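import Pool.Agent.Work.MP_0f7328_co.RW

/-!
Solid bricks and triangles: definitions and basic facts.
-/

set_option autoImplicit false
set_option linter.unusedSectionVars false

namespace Pool.Agent.Work.MP_0f7328_co.TV

open Finset

section defs

variable {V : Type}

/-- Stable sets of vertices. -/
def Stable (H : SimpleGraph V) (S : Finset V) : Prop := ∀ u ∈ S, ∀ v ∈ S, ¬ H.Adj u v

/-- The vertex `v` lies in a triangle. -/
def InTri (H : SimpleGraph V) (v : V) : Prop := ∃ a b, H.Adj v a ∧ H.Adj v b ∧ H.Adj a b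

/-- The wheel with rim of length `n`: the hub `none` is adjacent to the vertices `some i` of the
rim, and these form a cycle. -/
def wheel (n : ℕ) : SimpleGraph (Option (Fin n)) :=
  SimpleGraph.fromRel fun a b => match a, b with
    | none, some _ => True
    | some i, some j => (i.1 + 1) % n = j.1
    | _, _ => False

/-- The graph `Q8`: two adjacent vertices `0, 1`, both adjacent to `2, 3, 4`; a triangle `5, 6, 7`;
and the edges `25, 36, 47`. -/
def Q8 : SimpleGraph (Fin 8) :=
  SimpleGraph.fromRel fun a b => (a, b) ∈ ([(0, 1), (0, 2), (0, 3), (0, 4), (1, 2), (1, 3), (1, 4),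
    (5, 6), (6, 7), (5, 7), (2, 5), (3, 6), (4, 7)] : List (Fin 8 × Fin 8))

/-- No vertex has three pairwise nonadjacent neighbours. -/
def ClawFree (H : SimpleGraph V) : Prop :=
  ∀ v a b c, H.Adj v a → H.Adj v b → H.Adj v c → a ≠ b → a ≠ c → b ≠ c →
    H.Adj a b ∨ H.Adj a c ∨ H.Adj b c

/-- The subgraph induced by `X` has a permutation of its vertices along its edges. -/
def Rot (H : SimpleGraph V) (X : Finset V) : Prop :=
  ∃ f : V → V, Set.InjOn f X ∧ ∀ v ∈ X, f v ∈ X ∧ H.Adj v (f v)

/-- The subgraph induced by `X` has a perfect matching. -/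
def Mat (H : SimpleGraph V) (X : Finset V) : Prop :=
  ∃ f : V → V, ∀ v ∈ X, f v ∈ X ∧ f (f v) = v ∧ H.Adj v (f v)

variable [Fintype V] [DecidableEq V]

open Classical in
/-- The set of vertices with a neighbour in `S`. -/
noncomputable def nb (H : SimpleGraph V) (S : Finset V) : Finset V :=
  univ.filter fun v => ∃ s ∈ S, H.Adj s v

/-- Bicritical graphs: without any two vertices there is a perfect matching. -/
def Bicrit (H : SimpleGraph V) : Prop := ∀ x y, x ≠ y → Mat H ({x, y} : Finset V)ᶜ

/-- An odd set of vertices such that it and its complement have permutations along edges. -/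
def Split (H : SimpleGraph V) : Prop := ∃ X : Finset V, Odd X.card ∧ Rot H X ∧ Rot H Xᶜ

/-- The properties of the simple graph of a solid brick that are used. -/
structure SB (H : SimpleGraph V) : Prop where
  bic : Bicrit H
  nosplit : ¬ Split H
  four : 4 ≤ Fintype.card V

/-- Stable sets of the largest possible size `|V| / 2 - 1`. -/
def Big (H : SimpleGraph V) (I : Finset V) : Prop :=
  Stable H I ∧ 2 * I.card + 2 = Fintype.card V

/-- A pair of hubs. -/
structure Hub (H : SimpleGraph V) (r s : V) : Prop where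
  sb : SB H
  tri : ∀ v, InTri H v
  adj : H.Adj r s
  com : ∃ x, H.Adj r x ∧ H.Adj s x
  mem : ∀ v, v ≠ r → v ≠ s → ∃ I, Big H I ∧ r ∉ I ∧ s ∉ I ∧ v ∈ I
  non : ∀ v, v ≠ r → v ≠ s → ∃ I, Big H I ∧ r ∉ I ∧ s ∉ I ∧ v ∉ I

/-- `m` is a perfect matching that contains the edge `rs`. -/
structure PM (H : SimpleGraph V) (r s : V) (m : V → V) : Prop where
  inv : ∀ v, m (m v) = v
  adj : ∀ v, H.Adj v (m v)
  hub : m r = s

open Classical in
/-- The closure of `u`: the vertices that lie in all big stable sets that contain `u` and avoid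
the hubs. -/
noncomputable def cl (H : SimpleGraph V) (r s u : V) : Finset V :=
  univ.filter fun v => ∀ I, Big H I → r ∉ I → s ∉ I → u ∈ I → v ∈ I

/-- Closed stable sets of the graph without the hubs, with respect to a perfect matching. -/
structure Clo (H : SimpleGraph V) (r s : V) (m : V → V) (D : Finset V) : Prop where
  st : Stable H D
  nr : r ∉ D
  ns : s ∉ D
  clo : ∀ w ∈ D, ∀ v, v ≠ r → v ≠ s → H.Adj v w → m v ∈ D

end defs

section basic

variable {V : Type} [Fintype V] [DecidableEq V] {H : SimpleGraph V}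

theorem mem_nb {S : Finset V} {v : V} : v ∈ nb H S ↔ ∃ s ∈ S, H.Adj s v := by
  simp [nb]

theorem nb_mono {S T : Finset V} (h : S ⊆ T) : nb H S ⊆ nb H T := by
  intro v hv
  rw [mem_nb] at hv ⊢
  obtain ⟨s, hs, h1⟩ := hv
  exact ⟨s, h hs, h1⟩

theorem nb_union (S T : Finset V) : nb H (S ∪ T) = nb H S ∪ nb H T := by
  ext v
  simp only [mem_nb, mem_union]
  constructor
  · rintro ⟨s, hs | hs, h⟩
    · exact Or.inl ⟨s, hs, h⟩
    · exact Or.inr ⟨s, hs, h⟩
  · rintro (⟨s, hs, h⟩ | ⟨s, hs, h⟩)
    · exact ⟨s, Or.inl hs, h⟩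
    · exact ⟨s, Or.inr hs, h⟩

omit [Fintype V] [DecidableEq V] in
theorem Stable.mono {S T : Finset V} (h : Stable H T) (hs : S ⊆ T) : Stable H S :=
  fun u hu v hv => h u (hs hu) v (hs hv)

theorem Stable.notMem_nb {S : Finset V} (h : Stable H S) {v : V} (hv : v ∈ S) : v ∉ nb H S := by
  rw [mem_nb]
  rintro ⟨s, hs, h1⟩
  exact h s hs v hv h1

theorem Stable.disjoint_nb {S : Finset V} (h : Stable H S) : Disjoint S (nb H S) :=
  disjoint_left.2 fun _ hv => h.notMem_nb hv

theorem mem_cl {r s u v : V} : v ∈ cl H r s u ↔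
    ∀ I, Big H I → r ∉ I → s ∉ I → u ∈ I → v ∈ I := by
  simp [cl]

theorem self_mem_cl (r s u : V) : u ∈ cl H r s u := mem_cl.2 fun _ _ _ _ h => h

theorem cl_swap (r s u : V) : cl H s r u = cl H r s u := by
  ext v
  rw [mem_cl, mem_cl]
  exact ⟨fun h I a b c d => h I a c b d, fun h I a b c d => h I a c b d⟩

omit [Fintype V] [DecidableEq V] in
theorem Rot.of_mat {X : Finset V} (h : Mat H X) : Rot H X := by
  obtain ⟨f, hf⟩ := h
  refine ⟨f, fun a ha b hb hab => ?_, fun v hv => ⟨(hf v hv).1, (hf v hv).2.2⟩⟩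
  rw [← (hf a ha).2.1, ← (hf b hb).2.1, hab]

omit [Fintype V] in
theorem Rot.union {X Y : Finset V} (hX : Rot H X) (hY : Rot H Y) (h : Disjoint X Y) :
    Rot H (X ∪ Y) := by
  obtain ⟨f, hf, hf'⟩ := hX
  obtain ⟨g, hg, hg'⟩ := hY
  have hx : ∀ v ∈ Y, v ∉ X := fun v hv hv' => disjoint_left.1 h hv' hv
  refine ⟨fun v => if v ∈ X then f v else g v, ?_, ?_⟩
  · intro a ha b hb hab
    simp only at hab
    rw [mem_coe, mem_union] at ha hb
    by_cases h1 : a ∈ X <;> by_cases h2 : b ∈ X
    · rw [if_pos h1, if_pos h2] at hab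
      exact hf h1 h2 hab
    · rw [if_pos h1, if_neg h2] at hab
      have hb' : b ∈ Y := hb.resolve_left h2
      exact absurd (hab ▸ (hf' a h1).1) (hx _ (hg' b hb').1)
    · rw [if_neg h1, if_pos h2] at hab
      have ha' : a ∈ Y := ha.resolve_left h1
      exact absurd (hab ▸ (hf' b h2).1) (hx _ (hg' a ha').1)
    · rw [if_neg h1, if_neg h2] at hab
      exact hg (ha.resolve_left h1) (hb.resolve_left h2) hab
  · intro v hv
    simp only
    rw [mem_union] at hv
    by_cases h1 : v ∈ X
    · rw [if_pos h1]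
      exact ⟨mem_union_left _ (hf' v h1).1, (hf' v h1).2⟩
    · rw [if_neg h1]
      have := hg' v (hv.resolve_left h1)
      exact ⟨mem_union_right _ this.1, this.2⟩

omit [Fintype V] in
/-- A triangle has a rotation. -/
theorem Rot.tri {a b c : V} (hab : H.Adj a b) (hbc : H.Adj b c) (hac : H.Adj a c) :
    Rot H ({a, b, c} : Finset V) := by
  refine ⟨fun v => if v = a then b else if v = b then c else a, ?_, ?_⟩
  · intro u hu v hv huv
    have h1 := hab.ne
    have h2 := hbc.ne
    have h3 := hac.ne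
    have e1 : (if a = a then b else if a = b then c else a) = b := if_pos rfl
    have e2 : (if b = a then b else if b = b then c else a) = c := by
      rw [if_neg h1.symm, if_pos rfl]
    have e3 : (if c = a then b else if c = b then c else a) = a := by
      rw [if_neg h3.symm, if_neg h2.symm]
    simp only [coe_insert, coe_singleton, Set.mem_insert_iff, Set.mem_singleton_iff] at hu hv
    simp only at huv
    rcases hu with rfl | rfl | rfl <;> rcases hv with rfl | rfl | rfl
    · rfl
    · rw [e1, e2] at huv; exact absurd huv h2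
    · rw [e1, e3] at huv; exact absurd huv.symm h1
    · rw [e1, e2] at huv; exact absurd huv.symm h2
    · rfl
    · rw [e2, e3] at huv; exact absurd huv.symm h3
    · rw [e1, e3] at huv; exact absurd huv h1
    · rw [e2, e3] at huv; exact absurd huv h3
    · rfl
  · intro v hv
    have h1 := hab.ne
    have h2 := hbc.ne
    have h3 := hac.ne
    simp only [mem_insert, mem_singleton] at hv
    rcases hv with rfl | rfl | rfl
    · simp [hab]
    · simp [h1.symm, hbc]
    · simp [h3.symm, h2.symm, hac.symm]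

omit [Fintype V] in
theorem card_tri {a b c : V} (hab : H.Adj a b) (hbc : H.Adj b c) (hac : H.Adj a c) :
    ({a, b, c} : Finset V).card = 3 := by
  rw [card_eq_three]
  exact ⟨a, b, c, hab.ne, hac.ne, hbc.ne, rfl⟩

omit [Fintype V] [DecidableEq V] in
theorem Mat.even {X : Finset V} (h : Mat H X) : Even X.card := by
  obtain ⟨f, hf⟩ := h
  exact even_of_invol f fun v hv => ⟨(hf v hv).1, (hf v hv).2.2.ne', (hf v hv).2.1⟩

theorem PM.swap {r s : V} {m : V → V} (h : PM H r s m) : PM H s r m :=
  ⟨h.inv, h.adj, by rw [← h.hub, h.inv]⟩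

theorem PM.hub' {r s : V} {m : V → V} (h : PM H r s m) : m s = r := h.swap.hub

theorem PM.inj {r s : V} {m : V → V} (h : PM H r s m) {a b : V} (hab : m a = m b) : a = b := by
  rw [← h.inv a, ← h.inv b, hab]

theorem PM.ne_r {r s : V} {m : V → V} (h : PM H r s m) {v : V} (hv : v ≠ s) : m v ≠ r := by
  intro h1
  exact hv (h.inj (h1.trans h.hub'.symm))

theorem PM.ne_s {r s : V} {m : V → V} (h : PM H r s m) {v : V} (hv : v ≠ r) : m v ≠ s :=
  h.swap.ne_r hv

theorem Hub.swap {r s : V} (h : Hub H r s) : Hub H s r :=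
  ⟨h.sb, h.tri, h.adj.symm, by obtain ⟨x, h1, h2⟩ := h.com; exact ⟨x, h2, h1⟩,
    fun v h1 h2 => by obtain ⟨I, a, b, c, d⟩ := h.mem v h2 h1; exact ⟨I, a, c, b, d⟩,
    fun v h1 h2 => by obtain ⟨I, a, b, c, d⟩ := h.non v h2 h1; exact ⟨I, a, c, b, d⟩⟩

theorem Clo.swap {r s : V} {m : V → V} {D : Finset V} (h : Clo H r s m D) : Clo H s r m D :=
  ⟨h.st, h.ns, h.nr, fun w hw v h1 h2 h3 => h.clo w hw v h2 h1 h3⟩

/-- A set closed under a perfect matching has a rotation. -/
theorem PM.rot {r s : V} {m : V → V} (h : PM H r s m) {X : Finset V} (hX : ∀ v ∈ X, m v ∈ X) :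
    Rot H X :=
  Rot.of_mat ⟨m, fun v hv => ⟨hX v hv, h.inv v, h.adj v⟩⟩

end basic

end Pool.Agent.Work.MP_0f7328_co.TV
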