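import Pool.Agent.Work.MP_0f7328_co.TV.Defs

/-!
The initial segment of an orbit up to the first visit of `y` or `z`.

Proof. `σ` is a permutation of the finite type `V`, so `x = σ y` is in the same cycle as `y`: some
iterate `σ^[k] x = y` (`σ` has finite order `n ≥ 1` as a permutation, `σ^[n - 1] x = y`). Let `k`
be the least number with `σ^[k] x ∈ {y, z}` (`Nat.find`), `w = σ^[k] x`, and let `X` be the set of
all `σ^[i] x` with `i ≤ k`. If `v ∈ X` and `v ≠ w` then `v = σ^[i] x` with `i < k` (for `i = k` it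
would be `w`), so `v ∉ {y, z}` and `σ v = σ^[i + 1] x ∈ X`.
-/

set_option autoImplicit false
set_option linter.unusedSectionVars false

namespace Pool.Agent.Work.MP_0f7328_co.TV

open Finset

variable {V : Type} [Fintype V] [DecidableEq V] {H : SimpleGraph V}

theorem hit (σ : V → V) (hσ : Function.Injective σ) (x y z : V) (hy : σ y = x) :
    ∃ (X : Finset V) (w : V), x ∈ X ∧ w ∈ X ∧ (w = y ∨ w = z) ∧
      ∀ v ∈ X, v ≠ w → v ≠ y ∧ v ≠ z ∧ σ v ∈ X := by
  classical
  have hex : ∃ k, (σ^[k]) x = y ∨ (σ^[k]) x = z := by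
    obtain ⟨n, hn, hp⟩ := hσ.mem_periodicPts y
    obtain ⟨m, rfl⟩ : ∃ m, n = m + 1 := ⟨n - 1, by omega⟩
    refine ⟨m, Or.inl ?_⟩
    have h1 : (σ^[m + 1]) y = y := hp
    rw [Function.iterate_succ_apply, hy] at h1
    exact h1
  set k := Nat.find hex with hk
  refine ⟨(range (k + 1)).image fun i => (σ^[i]) x, (σ^[k]) x, ?_, ?_, Nat.find_spec hex, ?_⟩
  · exact mem_image.2 ⟨0, by simp, rfl⟩
  · exact mem_image.2 ⟨k, by simp, rfl⟩
  · intro v hv hvw
    obtain ⟨i, hi, rfl⟩ := mem_image.1 hv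
    have hik : i < k := by
      have h1 : i ≤ k := by simpa [Nat.lt_succ_iff] using hi
      rcases h1.lt_or_eq with h2 | h2
      · exact h2
      · exact absurd (by rw [h2]) hvw
    have hmin := Nat.find_min hex hik
    push Not at hmin
    refine ⟨hmin.1, hmin.2, mem_image.2 ⟨i + 1, by simpa using hik, ?_⟩⟩
    exact Function.iterate_succ_apply' σ i x

end Pool.Agent.Work.MP_0f7328_co.TV
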