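import Pool.Agent.Work.MP_0f7328_co.TV.Defs

/-!
A perfect matching of the graph without two neighbours of `I` exchanges `I` with the other
neighbours of `I`, if `I` has exactly `|I| + 2` neighbours.

Proof. `I` is disjoint from `nb H I`, so `x, y ∉ I`. The injective map `f` sends `I` into
`nb H I \ {x, y}`, which has `|I|` elements, so it is a bijection between them; since `f` is an
involution it sends `nb H I \ {x, y}` back to `I`. The remaining vertices (not in `I`, not in
`nb H I`) are therefore sent to remaining vertices: if `f v ∈ I` then `v = f (f v) ∈ nb H I`, if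
`f v ∈ nb H I` (it is not `x, y`) then `v = f (f v) ∈ I`.
-/

set_option autoImplicit false
set_option linter.unusedSectionVars false

namespace Pool.Agent.Work.MP_0f7328_co.TV

open Finset

variable {V : Type} [Fintype V] [DecidableEq V] {H : SimpleGraph V}

theorem swp {I : Finset V} (hI : Stable H I) (hc : (nb H I).card = I.card + 2) {x y : V}
    (hx : x ∈ nb H I) (hy : y ∈ nb H I) (hxy : x ≠ y) {f : V → V}
    (hf : ∀ v ∈ ({x, y} : Finset V)ᶜ, f v ∈ ({x, y} : Finset V)ᶜ ∧ f (f v) = v ∧ H.Adj v (f v)) :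
    (∀ v ∈ I, f v ∈ nb H I ∧ f v ≠ x ∧ f v ≠ y) ∧
    (∀ v ∈ nb H I, v ≠ x → v ≠ y → f v ∈ I) ∧
    (∀ v, v ∉ I → v ∉ nb H I → f v ∉ I ∧ f v ∉ nb H I) := by
  have hmem : ∀ v : V, v ∈ ({x, y} : Finset V)ᶜ ↔ v ≠ x ∧ v ≠ y := by
    intro v
    simp
  have hI2 : ∀ v ∈ I, v ∈ ({x, y} : Finset V)ᶜ := by
    intro v hv
    rw [hmem]
    constructor
    · rintro rfl
      exact hI.notMem_nb hv hx
    · rintro rfl
      exact hI.notMem_nb hv hy
  have h1 : ∀ v ∈ I, f v ∈ nb H I ∧ f v ≠ x ∧ f v ≠ y := by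
    intro v hv
    obtain ⟨a, b, c⟩ := hf v (hI2 v hv)
    rw [hmem] at a
    exact ⟨mem_nb.2 ⟨v, hv, c⟩, a⟩
  have hinj : Set.InjOn f I := by
    intro a ha b hb hab
    rw [← (hf a (hI2 a ha)).2.1, ← (hf b (hI2 b hb)).2.1, hab]
  have himg : I.image f = ((nb H I).erase x).erase y := by
    apply eq_of_subset_of_card_le
    · intro u hu
      obtain ⟨v, hv, rfl⟩ := mem_image.1 hu
      obtain ⟨a, b, c⟩ := h1 v hv
      exact mem_erase.2 ⟨c, mem_erase.2 ⟨b, a⟩⟩
    · rw [card_image_of_injOn hinj, card_erase_of_mem (mem_erase.2 ⟨hxy.symm, hy⟩),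
        card_erase_of_mem hx, hc]
      omega
  have h2 : ∀ v ∈ nb H I, v ≠ x → v ≠ y → f v ∈ I := by
    intro v hv hvx hvy
    have : v ∈ I.image f := by
      rw [himg]
      exact mem_erase.2 ⟨hvy, mem_erase.2 ⟨hvx, hv⟩⟩
    obtain ⟨u, hu, rfl⟩ := mem_image.1 this
    rw [(hf u (hI2 u hu)).2.1]
    exact hu
  refine ⟨h1, h2, ?_⟩
  intro v hvI hvn
  have hv : v ∈ ({x, y} : Finset V)ᶜ := by
    rw [hmem]
    constructor
    · rintro rfl
      exact hvn hx
    · rintro rfl
      exact hvn hy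
  obtain ⟨a, b, c⟩ := hf v hv
  rw [hmem] at a
  constructor
  · intro h
    exact hvn (mem_nb.2 ⟨f v, h, c.symm⟩)
  · intro h
    have := h2 (f v) h a.1 a.2
    rw [b] at this
    exact hvI this

end Pool.Agent.Work.MP_0f7328_co.TV
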