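import Pool.Agent.Work.MP_0f7328_co.TV.Defs

/-!
Barriers and perfect matchings.

Proof. Every `k ∈ K` contains a vertex `v` with `τ v ∉ k`: otherwise `τ` maps `k` to `k` without
fixed points and `k.card` is even (`even_of_invol`). Choose one, `c k`. Then `τ (c k) ∈ B` by `hc`.
The map `k ↦ τ (c k)` from `K` to `B` is injective: `τ` is injective, and `c k = c l` lies in `k` and
`l`, which are disjoint for `k ≠ l`. With `hBK` it is a bijection and `B.card = K.card`. So every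
`b ∈ B` is `τ (c k)` for some `k`, and `τ b = c k ∈ k`. If `v ∈ k` and `τ v ∉ k` then `τ v ∈ B`, so
`τ v = τ (c l)`, `v = c l ∈ l`, so `l = k` and `v = c k`: `crosses τ k = 1`.
-/

set_option autoImplicit false
set_option linter.unusedSectionVars false

namespace Pool.Agent.Work.MP_0f7328_co.TV

open Finset

variable {V : Type} [Fintype V] [DecidableEq V] {H : SimpleGraph V}

theorem bar1 {τ : Equiv.Perm V} (hτ : τ ∈ PMs H) {B : Finset V} {K : Finset (Finset V)}
    (hBK : B.card ≤ K.card) (hK : ∀ k ∈ K, Disjoint k B ∧ Odd k.card)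
    (hd : ∀ k ∈ K, ∀ l ∈ K, k ≠ l → Disjoint k l)
    (hc : ∀ k ∈ K, ∀ v ∈ k, ∀ w, w ∉ B → H.Adj v w → w ∈ k) :
    B.card = K.card ∧ (∀ k ∈ K, crosses τ k = 1) ∧ ∀ b ∈ B, ∃ k ∈ K, τ b ∈ k := by
  obtain ⟨hinv, hadj⟩ := hτ
  rcases K.eq_empty_or_nonempty with rfl | ⟨k₀, hk₀⟩
  · rw [card_empty] at hBK
    have hB : B = ∅ := card_eq_zero.1 (Nat.le_zero.1 hBK)
    subst hB
    refine ⟨rfl, fun k hk => absurd hk (notMem_empty _), fun b hb => absurd hb (notMem_empty _)⟩
  have hne : Nonempty V := by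
    obtain ⟨v, -⟩ := card_pos.1 (hK k₀ hk₀).2.pos
    exact ⟨v⟩
  have hex : ∀ k ∈ K, ∃ v, v ∈ k ∧ τ v ∉ k := by
    intro k hk
    by_contra hcon
    push Not at hcon
    have heven : Even k.card := by
      refine even_of_invol (fun v => τ v) fun v hv => ?_
      exact ⟨hcon v hv, (hadj v).ne', hinv v⟩
    exact (Nat.not_even_iff_odd.2 (hK k hk).2) heven
  choose! c h1 h2 using hex
  have h3 : ∀ k ∈ K, ∀ v ∈ k, τ v ∉ k → τ v ∈ B := by
    intro k hk v hv hv'
    by_contra hn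
    exact hv' (hc k hk v hv (τ v) hn (hadj v))
  have hsame : ∀ k ∈ K, ∀ l ∈ K, ∀ v, v ∈ k → v ∈ l → k = l := by
    intro k hk l hl v hv hv'
    by_contra hkl
    exact disjoint_left.1 (hd k hk l hl hkl) hv hv'
  have hinj : Set.InjOn (fun k => τ (c k)) (K : Set (Finset V)) := by
    intro k hk l hl hkl
    have h4 : c k = c l := τ.injective hkl
    exact hsame k hk l hl (c k) (h1 k hk) (h4 ▸ h1 l hl)
  have hmap : K.image (fun k => τ (c k)) ⊆ B := by
    intro b hb
    obtain ⟨k, hk, rfl⟩ := mem_image.1 hb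
    exact h3 k hk _ (h1 k hk) (h2 k hk)
  have hci : (K.image (fun k => τ (c k))).card = K.card := card_image_of_injOn hinj
  have heq : K.image (fun k => τ (c k)) = B := eq_of_subset_of_card_le hmap (by omega)
  have hcard : B.card = K.card := by rw [← heq, hci]
  have hB : ∀ b ∈ B, ∃ k ∈ K, τ b = c k := by
    intro b hb
    rw [← heq] at hb
    obtain ⟨k, hk, rfl⟩ := mem_image.1 hb
    exact ⟨k, hk, hinv _⟩
  refine ⟨hcard, fun k hk => ?_, fun b hb => ?_⟩
  · rw [crosses, card_eq_one]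
    refine ⟨c k, ?_⟩
    ext v
    rw [mem_filter, mem_singleton]
    constructor
    · rintro ⟨hv, hv'⟩
      obtain ⟨l, hl, hlv⟩ := hB _ (h3 k hk v hv hv')
      rw [hinv] at hlv
      have h5 : k = l := hsame k hk l hl v hv (hlv ▸ h1 l hl)
      rw [hlv, h5]
    · rintro rfl
      exact ⟨h1 k hk, h2 k hk⟩
  · obtain ⟨k, hk, h4⟩ := hB b hb
    exact ⟨k, hk, h4 ▸ h1 k hk⟩

end Pool.Agent.Work.MP_0f7328_co.TV
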