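import Pool.Agent.Work.MP_0f7328_co.TV.Tut
import Pool.Agent.Work.MP_0f7328_co.TV.Bar1

/-!
Bricks are bicritical and have at least four vertices.

Proof of `bicrit_of_brick`. Suppose that `{x, y}ᶜ` has no perfect matching. Take `S, K` from
`tutte_finset` for `W = {x, y}ᶜ` and put `B = S ∪ {x, y}`, `B.card = S.card + 2`. The rest
`U = (B ∪ K.biUnion id)ᶜ` is not joined to the members of `K`. If `B.card ≤ K.card`, put `K' = K`.
Otherwise `K.card = S.card + 1`. `Fintype.card V` is even (`even_card_of_brick`) and equals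
`B.card + ∑ k ∈ K, k.card + U.card`, congruent to `S.card + K.card + U.card` modulo 2, so `U.card` is
odd, and `K' = insert U K` has `B.card` members (`U` is nonempty and disjoint from the members of
`K`); `U` is closed off `B`, too. In both cases `K'` satisfies the hypotheses of `bar1` for every
`τ ∈ PMs G.simple`.
Every `k ∈ K'` is tight (`MGraph.tight_iff`, the graph has a vertex), so trivial
(`hG.2.2`): `k.card = 1`, or its complement has one element, but the complement contains `B` and
`B.card ≥ 2`. So `k.card = 1`.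
Every edge lies in a perfect matching (`exists_pm_of_adj hG.1`), and a perfect matching sends `b ∈ B`
into a member of `K'` (last statement of `bar1`; there is at least one perfect matching). So there
is no edge inside `B`, and no edge between `B` and `U' = (B ∪ K'.biUnion id)ᶜ`. No edge leaves `U'`
at all, `B` is nonempty and `G.simple` is connected, so `U'` is empty. The colouring that is `0` on
`B` and `1` outside of `B` is proper: outside of `B` every vertex is a member of `K'` by itself, and
members are closed off `B`. This contradicts that `G.simple` is not 2-colourable.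
Proof of `four_le`. `Fintype.card V` is even and at least 2 (`Nontrivial V`). If it is 2 then the
graph is 2-colourable (by a bijection with `Fin 2`).
-/

set_option autoImplicit false
set_option linter.unusedSectionVars false

namespace Pool.Agent.Work.MP_0f7328_co.TV

open Finset

variable {V : Type} [Fintype V] [DecidableEq V] {H : SimpleGraph V}

/-- The usable families of odd sets: with `U` added if necessary. -/
private theorem bar2_fam (hev : Even (Fintype.card V)) {x y : V} (hxy : x ≠ y)
    (hcon : ¬ Mat H ({x, y} : Finset V)ᶜ) :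
    ∃ (B : Finset V) (K : Finset (Finset V)), x ∈ B ∧ 2 ≤ B.card ∧ B.card ≤ K.card ∧
      (∀ k ∈ K, Disjoint k B ∧ Odd k.card) ∧ (∀ k ∈ K, ∀ l ∈ K, k ≠ l → Disjoint k l) ∧
      (∀ k ∈ K, ∀ v ∈ k, ∀ w, w ∉ B → H.Adj v w → w ∈ k) := by
  obtain ⟨S, K, hSW, hSK, hKp, hKd, hKc⟩ := tutte_finset hcon
  have hxS : x ∉ S := by
    intro h
    have := hSW h
    simp at this
  have hyS : y ∉ S := by
    intro h
    have := hSW h
    simp at this
  have hBW : ∀ v : V, v ∈ ({x, y} : Finset V)ᶜ \ S ↔ v ∉ S ∪ {x, y} := by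
    intro v
    rw [mem_sdiff, mem_compl, mem_union]
    tauto
  have hBc : (S ∪ {x, y}).card = S.card + 2 := by
    rw [card_union_of_disjoint, card_pair hxy]
    rw [disjoint_left]
    intro a ha hb
    rw [mem_insert, mem_singleton] at hb
    rcases hb with rfl | rfl
    · exact hxS ha
    · exact hyS ha
  have hdis : ∀ k ∈ K, Disjoint k (S ∪ {x, y}) := by
    intro k hk
    rw [disjoint_left]
    intro a ha
    exact (hBW a).1 ((hKp k hk).1 ha)
  have hclo : ∀ k ∈ K, ∀ v ∈ k, ∀ w, w ∉ S ∪ {x, y} → H.Adj v w → w ∈ k :=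
    fun k hk v hv w hw h => hKc k hk v hv w ((hBW w).2 hw) h
  have hxB : x ∈ S ∪ {x, y} := by simp
  by_cases hle : (S ∪ {x, y}).card ≤ K.card
  · exact ⟨S ∪ {x, y}, K, hxB, by omega, hle, fun k hk => ⟨hdis k hk, (hKp k hk).2⟩, hKd, hclo⟩
  have hKcard : K.card = S.card + 1 := by omega
  set B := S ∪ {x, y} with hB
  set U := (B ∪ K.biUnion id)ᶜ with hU
  have hmemU : ∀ v, v ∈ U ↔ v ∉ B ∧ ∀ k ∈ K, v ∉ k := by
    intro v
    rw [hU, mem_compl, mem_union, not_or, mem_biUnion]
    simp
  have hsum : Even (∑ k ∈ K, k.card + K.card) := by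
    have : ∑ k ∈ K, k.card + K.card = ∑ k ∈ K, (k.card + 1) := by
      rw [sum_add_distrib, sum_const, smul_eq_mul, mul_one]
    rw [this]
    apply even_sum
    intro k hk
    exact (hKp k hk).2.add_odd odd_one
  have hcardbi : (K.biUnion id).card = ∑ k ∈ K, k.card :=
    card_biUnion fun k hk l hl hkl => hKd k hk l hl hkl
  have hBbi : Disjoint B (K.biUnion id) := by
    rw [disjoint_left]
    intro a ha hb
    rw [mem_biUnion] at hb
    obtain ⟨k, hk, hak⟩ := hb
    exact disjoint_left.1 (hdis k hk) hak ha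
  have hcardV : Fintype.card V = B.card + ∑ k ∈ K, k.card + U.card := by
    rw [← hcardbi, ← card_union_of_disjoint hBbi, hU, card_compl]
    have := card_le_univ (B ∪ K.biUnion id)
    omega
  have hUodd : Odd U.card := by
    rcases hev with ⟨a, ha⟩
    rcases hsum with ⟨b, hb⟩
    rw [← Nat.not_even_iff_odd]
    rintro ⟨c, hc⟩
    omega
  have hUK : U ∉ K := by
    intro h
    obtain ⟨v, hv⟩ := card_pos.1 hUodd.pos
    exact ((hmemU v).1 hv).2 U h hv
  refine ⟨B, insert U K, hxB, by omega, ?_, ?_, ?_, ?_⟩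
  · rw [card_insert_of_notMem hUK]
    omega
  · intro k hk
    rcases mem_insert.1 hk with rfl | hk
    · refine ⟨?_, hUodd⟩
      rw [disjoint_left]
      intro a ha
      exact ((hmemU a).1 ha).1
    · exact ⟨hdis k hk, (hKp k hk).2⟩
  · intro k hk l hl hkl
    rcases mem_insert.1 hk with rfl | hk <;> rcases mem_insert.1 hl with rfl | hl
    · exact absurd rfl hkl
    · rw [disjoint_left]
      intro a ha
      exact ((hmemU a).1 ha).2 l hl
    · rw [disjoint_right]
      intro a ha
      exact ((hmemU a).1 ha).2 k hk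
    · exact hKd k hk l hl hkl
  · intro k hk v hv w hw hvw
    rcases mem_insert.1 hk with rfl | hk
    · rw [hmemU] at hv ⊢
      refine ⟨hw, fun l hl hwl => ?_⟩
      exact hv.2 l hl (hclo l hl w hwl v hv.1 hvw.symm)
    · exact hclo k hk v hv w hw hvw

theorem bicrit_of_brick {E : Type} {G : MGraph V E} (hG : G.IsBrick) : Bicrit G.simple := by
  intro x y hxy
  by_contra hcon
  obtain ⟨B, K, hxB, hB2, hBK, hK, hd, hc⟩ := bar2_fam (even_card_of_brick hG) hxy hcon
  have hne : Nonempty V := ⟨x⟩
  have hone : ∀ k ∈ K, k.card = 1 := by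
    intro k hk
    have ht : G.Tight (k : Set V) :=
      (G.tight_iff hne k).2 fun τ hτ => (bar1 hτ hBK hK hd hc).2.1 k hk
    have hodd : Odd (k : Set V).ncard := by
      rw [Set.ncard_coe_finset]
      exact (hK k hk).2
    rcases hG.2.2 (k : Set V) hodd ht with h1 | h1
    · rwa [Set.ncard_coe_finset] at h1
    · exfalso
      rw [← coe_compl, Set.ncard_coe_finset] at h1
      have h2 : B ⊆ kᶜ := by
        intro b hb
        rw [mem_compl]
        intro hbk
        exact disjoint_left.1 (hK k hk).1 hbk hb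
      have := card_le_card h2
      omega
  have hBe : ∀ u v, G.simple.Adj u v → u ∈ B → ∃ k ∈ K, v ∈ k := by
    intro u v huv hu
    obtain ⟨τ, hτ, h1⟩ := exists_pm_of_adj hG.1 u v huv
    obtain ⟨k, hk, h2⟩ := (bar1 hτ hBK hK hd hc).2.2 u hu
    exact ⟨k, hk, h1 ▸ h2⟩
  -- every vertex lies in `B` or in a member of `K`
  have hall : ∀ v, v ∈ B ∨ ∃ k ∈ K, v ∈ k := by
    by_contra hnot
    push Not at hnot
    obtain ⟨v, hvB, hvK⟩ := hnot
    have hstep : ∀ a b : V, ∀ _ : G.simple.Walk a b, (a ∉ B ∧ ∀ k ∈ K, a ∉ k) →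
        (b ∉ B ∧ ∀ k ∈ K, b ∉ k) := by
      intro a b w
      induction w with
      | nil => exact id
      | @cons p q r h _ ih =>
        rintro ⟨h1, h2⟩
        apply ih
        constructor
        · intro hq
          obtain ⟨k, hk, h3⟩ := hBe q p h.symm hq
          exact h2 k hk h3
        · intro k hk hq
          exact h2 k hk (hc k hk q hq p h1 h.symm)
    obtain ⟨w⟩ := hG.1.1.preconnected v x
    exact (hstep v x w ⟨hvB, hvK⟩).1 hxB
  apply hG.2.1
  refine ⟨SimpleGraph.Coloring.mk (fun v => if v ∈ B then (0 : Fin 2) else 1) ?_⟩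
  intro u v huv
  by_cases hu : u ∈ B
  · obtain ⟨k, hk, hv⟩ := hBe u v huv hu
    have hvB : v ∉ B := disjoint_left.1 (hK k hk).1 hv
    simp [hu, hvB]
  · by_cases hv : v ∈ B
    · simp [hu, hv]
    · exfalso
      rcases hall u with h1 | ⟨k, hk, h1⟩
      · exact hu h1
      · have h2 := hc k hk u h1 v hv huv
        obtain ⟨a, ha⟩ := card_eq_one.1 (hone k hk)
        rw [ha, mem_singleton] at h1 h2
        exact huv.ne (h1.trans h2.symm)

theorem four_le {E : Type} {G : MGraph V E} (hG : G.IsBrick) : 4 ≤ Fintype.card V := by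
  have h1 := even_card_of_brick hG
  have h2 : 1 < Fintype.card V := Fintype.one_lt_card_iff_nontrivial.2 hG.1.2.1
  by_contra hcon
  have h3 : Fintype.card V = 2 := by
    rcases h1 with ⟨a, ha⟩
    omega
  have h4 := SimpleGraph.colorable_of_fintype G.simple
  rw [h3] at h4
  exact hG.2.1 h4

end Pool.Agent.Work.MP_0f7328_co.TV
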