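import Pool.Agent.Work.MP_0f7328_co.TV.Defs

/-!
From `Split` to `TwoOdd`.

Proof. Let `f` be the rotation of `X`, `g` that of `Xᶜ`. The map that is `f` on `X` and `g` on `Xᶜ`
is injective on the finite type `V`, so it is a permutation `σ` (`Equiv.ofBijective`), with
`H.Adj v (σ v)` and `σ v ∈ X ↔ v ∈ X`. Use `twoOdd_of_perm`.
-/

set_option autoImplicit false
set_option linter.unusedSectionVars false

namespace Pool.Agent.Work.MP_0f7328_co.TV

open Finset

variable {V : Type} [Fintype V] [DecidableEq V] {H : SimpleGraph V}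

theorem twoOdd_of_split (h : Split H) {τ : Equiv.Perm V} (hτ : τ ∈ PMs H) : TwoOdd H := by
  obtain ⟨X, hX, ⟨f, hf, hf'⟩, ⟨g, hg, hg'⟩⟩ := h
  let σ : V → V := fun v => if v ∈ X then f v else g v
  have s1 : ∀ v, v ∈ X → σ v = f v := fun v hv => if_pos hv
  have s2 : ∀ v, v ∉ X → σ v = g v := fun v hv => if_neg hv
  have s3 : ∀ v, σ v ∈ X ↔ v ∈ X := by
    intro v
    by_cases hv : v ∈ X
    · rw [s1 v hv]
      exact ⟨fun _ => hv, fun _ => (hf' v hv).1⟩
    · rw [s2 v hv]
      exact ⟨fun h => absurd h (mem_compl.1 (hg' v (mem_compl.2 hv)).1), fun h => absurd h hv⟩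
  have hinj : Function.Injective σ := by
    intro a b hab
    by_cases ha : a ∈ X
    · have hb : b ∈ X := by rw [← s3, ← hab, s3]; exact ha
      rw [s1 a ha, s1 b hb] at hab
      exact hf ha hb hab
    · have hb : b ∉ X := by rw [← s3, ← hab, s3]; exact ha
      rw [s2 a ha, s2 b hb] at hab
      exact hg (mem_coe.2 (mem_compl.2 ha)) (mem_coe.2 (mem_compl.2 hb)) hab
  have hbij : Function.Bijective σ := Finite.injective_iff_bijective.1 hinj
  refine twoOdd_of_perm H (Equiv.ofBijective σ hbij) (fun v => ?_) X hX (fun v => s3 v) τ hτ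
  change H.Adj v (σ v)
  by_cases hv : v ∈ X
  · rw [s1 v hv]
    exact (hf' v hv).2
  · rw [s2 v hv]
    exact (hg' v (mem_compl.2 hv)).2

end Pool.Agent.Work.MP_0f7328_co.TV
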