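import Pool.Agent.Work.MP_0f7328_co.TV.Defs

/-!
Surplus: in a bicritical graph on at least four vertices a nonempty stable set `S` has at least
`|S| + 2` neighbours.

Proof. If `nb H S` contains two distinct vertices `x, y`, take the perfect matching `f` of
`{x, y}ᶜ`. No element of `S` is `x` or `y` (`S` is disjoint from `nb H S`, `Stable.notMem_nb`), so
`f` is defined on `S`, injective, and maps `S` into `nb H S \ {x, y}`; hence
`|S| ≤ |nb H S| - 2`. Otherwise `|nb H S| ≤ 1`. Choose `s ∈ S` and distinct `x, y`, both different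
from `s`, with `nb H S ⊆ {x, y}` (there are at least three vertices different from `s`, and
`s ∉ nb H S`). The perfect matching `f` of `{x, y}ᶜ` gives `f s ∈ nb H S` with `f s ≠ x, y`, a
contradiction.
`deg_three` is the case `S = {v}` (stable because `H` has no loops).
-/

set_option autoImplicit false
set_option linter.unusedSectionVars false

namespace Pool.Agent.Work.MP_0f7328_co.TV

open Finset

variable {V : Type} [Fintype V] [DecidableEq V] {H : SimpleGraph V}

theorem surplus (hb : Bicrit H) (h4 : 4 ≤ Fintype.card V) {S : Finset V} (hS : Stable H S)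
    (hne : S.Nonempty) : S.card + 2 ≤ (nb H S).card := by
  by_cases h2 : ∃ x ∈ nb H S, ∃ y ∈ nb H S, x ≠ y
  · obtain ⟨x, hx, y, hy, hxy⟩ := h2
    obtain ⟨f, hf⟩ := hb x y hxy
    have hSc : ∀ s ∈ S, s ∈ ({x, y} : Finset V)ᶜ := by
      intro s hs
      rw [mem_compl, mem_insert, mem_singleton]
      rintro (rfl | rfl)
      · exact hS.notMem_nb hs hx
      · exact hS.notMem_nb hs hy
    have hsub : S.image f ⊆ ((nb H S).erase x).erase y := by
      intro w hw
      rw [mem_image] at hw
      obtain ⟨s, hs, rfl⟩ := hw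
      obtain ⟨h1, -, h3⟩ := hf s (hSc s hs)
      rw [mem_compl, mem_insert, mem_singleton, not_or] at h1
      rw [mem_erase, mem_erase]
      exact ⟨h1.2, h1.1, mem_nb.2 ⟨s, hs, h3⟩⟩
    have hinj : Set.InjOn f S := by
      intro a ha b hb' hab
      rw [← (hf a (hSc a ha)).2.1, ← (hf b (hSc b hb')).2.1, hab]
    have h3 := card_le_card hsub
    rw [card_image_of_injOn hinj, card_erase_of_mem (mem_erase.2 ⟨hxy.symm, hy⟩),
      card_erase_of_mem hx] at h3
    have h4 : 2 ≤ (nb H S).card := by
      have h5 : ({x, y} : Finset V) ⊆ nb H S := by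
        intro z hz
        rw [mem_insert, mem_singleton] at hz
        rcases hz with rfl | rfl
        · exact hx
        · exact hy
      have h6 := card_le_card h5
      rw [card_pair hxy] at h6
      exact h6
    omega
  · exfalso
    push Not at h2
    obtain ⟨s, hs⟩ := hne
    have hsn : s ∉ nb H S := hS.notMem_nb hs
    obtain ⟨x, hxs, hx⟩ : ∃ x, x ≠ s ∧ ∀ z ∈ nb H S, z = x := by
      by_cases h3 : (nb H S).Nonempty
      · obtain ⟨z, hz⟩ := h3
        refine ⟨z, ?_, fun w hw => h2 w hw z hz⟩
        rintro rfl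
        exact hsn hz
      · rw [not_nonempty_iff_eq_empty] at h3
        have : Nontrivial V := Fintype.one_lt_card_iff_nontrivial.1 (by omega)
        obtain ⟨x, hx⟩ := exists_ne s
        refine ⟨x, hx, fun z hz => ?_⟩
        rw [h3] at hz
        exact absurd hz (notMem_empty z)
    obtain ⟨y, hy⟩ : (({s, x} : Finset V)ᶜ).Nonempty := by
      rw [← card_pos, card_compl]
      have h5 : ({s, x} : Finset V).card ≤ 2 := card_le_two
      omega
    rw [mem_compl, mem_insert, mem_singleton, not_or] at hy
    obtain ⟨f, hf⟩ := hb x y (Ne.symm hy.2)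
    obtain ⟨h1, -, h3⟩ := hf s (by
      rw [mem_compl, mem_insert, mem_singleton, not_or]
      exact ⟨hxs.symm, Ne.symm hy.1⟩)
    rw [mem_compl, mem_insert, mem_singleton, not_or] at h1
    exact h1.1 (hx _ (mem_nb.2 ⟨s, hs, h3⟩))

theorem deg_three (hb : Bicrit H) (h4 : 4 ≤ Fintype.card V) (v : V) :
    3 ≤ (nb H ({v} : Finset V)).card := by
  have hst : Stable H ({v} : Finset V) := by
    intro a ha b hb'
    rw [mem_singleton] at ha hb'
    rw [ha, hb']
    exact H.irrefl
  have h := surplus hb h4 hst (singleton_nonempty v)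
  rw [card_singleton] at h
  exact h

end Pool.Agent.Work.MP_0f7328_co.TV
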