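import Pool.Agent.Work.MP_0f7328_co.TV.Hall

/-!
A set without a rotation contains a stable set that violates Hall's condition.

Proof. By `rot_of_hall` there is `S ⊆ X` with `(nb H S ∩ X).card < S.card`. Put
`S' = S \ nb H S`. It is stable: if `u, v ∈ S'` are adjacent then `v ∈ nb H S`. Moreover no element
of `nb H S'` lies in `S` (if `t ∈ S` is adjacent to `s ∈ S'` then `s ∈ nb H S`), so
`nb H S' ∩ X ⊆ (nb H S ∩ X) \ (nb H S ∩ S)` and, since `nb H S ∩ S ⊆ nb H S ∩ X`,
`(nb H S' ∩ X).card ≤ (nb H S ∩ X).card - (nb H S ∩ S).card < S.card - (nb H S ∩ S).card = S'.card`.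
-/

set_option autoImplicit false
set_option linter.unusedSectionVars false

namespace Pool.Agent.Work.MP_0f7328_co.TV

open Finset

variable {V : Type} [Fintype V] [DecidableEq V] {H : SimpleGraph V}

theorem stable_of_not_rot {X : Finset V} (h : ¬ Rot H X) :
    ∃ S ⊆ X, Stable H S ∧ (nb H S ∩ X).card < S.card := by
  obtain ⟨S, hSX, hS⟩ : ∃ S ⊆ X, (nb H S ∩ X).card < S.card := by
    by_contra hcon
    push Not at hcon
    exact h (rot_of_hall hcon)
  refine ⟨S \ nb H S, sdiff_subset.trans hSX, ?_, ?_⟩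
  · intro u hu v hv huv
    exact (mem_sdiff.1 hv).2 (mem_nb.2 ⟨u, (mem_sdiff.1 hu).1, huv⟩)
  · have h1 : nb H (S \ nb H S) ∩ X ⊆ (nb H S ∩ X) \ (nb H S ∩ S) := by
      intro t ht
      obtain ⟨ht1, ht2⟩ := mem_inter.1 ht
      refine mem_sdiff.2 ⟨mem_inter.2 ⟨nb_mono sdiff_subset ht1, ht2⟩, fun ht3 => ?_⟩
      obtain ⟨s, hs, hst⟩ := mem_nb.1 ht1
      exact (mem_sdiff.1 hs).2 (mem_nb.2 ⟨t, (mem_inter.1 ht3).2, hst.symm⟩)
    have h2 : nb H S ∩ S ⊆ nb H S ∩ X := inter_subset_inter_left hSX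
    have h3 := card_le_card h1
    rw [card_sdiff_of_subset h2] at h3
    have h4 : (S \ nb H S).card = S.card - (nb H S ∩ S).card := by
      rw [card_sdiff]
    have h5 := card_le_card h2
    have h6 : (nb H S ∩ S).card ≤ S.card := card_le_card inter_subset_right
    omega

end Pool.Agent.Work.MP_0f7328_co.TV
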