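import Pool.Agent.Work.MP_0f7328_co.TV.A2
import Pool.Agent.Work.MP_0f7328_co.TV.Viol
import Pool.Agent.Work.MP_0f7328_co.TV.Surp
import Pool.Agent.Work.MP_0f7328_co.TV.Swp

/-!
Extension of a barrier. Write `B = nb H I` and `R = (I ∪ B)ᶜ`.

Proof. By `a2` the set `X = I ∪ B.erase x` has a rotation; `I` and `B` are disjoint, so
`X.card = 2 * I.card + 1` is odd. By `h.nosplit`, `Xᶜ` has no rotation, where `Xᶜ = insert x R`. By
`stable_of_not_rot` there is a stable `S ⊆ insert x R` with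
`(nb H S ∩ insert x R).card < S.card`.
`R` has a perfect matching: take `y ∈ B` different from `x` (one of `a, b, c`) and the perfect
matching `f` of `{x, y}ᶜ`; by `swp` it maps `R` to `R`. So if `x ∉ S` then `S ⊆ R` and `f` maps `S`
injectively into `nb H S ∩ R`, a contradiction. Hence `x ∈ S`. Let `J = S.erase x ⊆ R`. As `S` is
stable, `x ∉ nb H S`, so `(nb H S ∩ R).card = (nb H S ∩ insert x R).card ≤ J.card`.
If `J = ∅` then `nb H {x} ∩ R = ∅`: every neighbour of `x` is in `I ∪ B`, first alternative.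
If `J` is nonempty let `I' = I ∪ J`. It is stable: `J` is stable and no element of `R` is adjacent
to an element of `I`. `I'.card = I.card + J.card > I.card`. Its neighbourhood is contained in
`B ∪ (nb H S ∩ R)` (a neighbour of an element of `J` is not in `I`; if it is not in `B` it is in
`R`), so it has at most `I.card + 2 + J.card = I'.card + 2` elements, and at least that many by
`surplus`. Finally `B ⊆ nb H I'` contains `a, b, c`.
-/

set_option autoImplicit false
set_option linter.unusedSectionVars false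

namespace Pool.Agent.Work.MP_0f7328_co.TV

open Finset

variable {V : Type} [Fintype V] [DecidableEq V] {H : SimpleGraph V}

theorem a3 (h : SB H) {I : Finset V} (hI : Stable H I) (hc : (nb H I).card = I.card + 2)
    {a b c : V} (hab : H.Adj a b) (hbc : H.Adj b c) (hac : H.Adj a c) (ha : a ∈ nb H I)
    (hb : b ∈ nb H I) (hc' : c ∈ nb H I) {x : V} (hx : x ∈ nb H I) :
    (∀ v, H.Adj x v → v ∈ I ∪ nb H I) ∨
    ∃ I', Stable H I' ∧ (nb H I').card = I'.card + 2 ∧ a ∈ nb H I' ∧ b ∈ nb H I' ∧ c ∈ nb H I' ∧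
      I.card < I'.card := by
  have hrot := a2 h.bic hI hc hab hbc hac ha hb hc' hx
  have hdI : ∀ v ∈ I, v ∉ nb H I := fun v hv => hI.notMem_nb hv
  have hdis : Disjoint I ((nb H I).erase x) :=
    disjoint_left.2 fun v hv hv' => hdI v hv (mem_of_mem_erase hv')
  have hcard : (I ∪ (nb H I).erase x).card = 2 * I.card + 1 := by
    rw [card_union_of_disjoint hdis, card_erase_of_mem hx, hc]
    omega
  have hns : ¬ Rot H (I ∪ (nb H I).erase x)ᶜ := by
    intro hr
    exact h.nosplit ⟨_, ⟨I.card, hcard⟩, hrot, hr⟩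
  obtain ⟨S, hS, hSst, hScard⟩ := stable_of_not_rot hns
  have hmem : ∀ v, v ∈ (I ∪ (nb H I).erase x)ᶜ ↔ v ∉ I ∧ (v = x ∨ v ∉ nb H I) := by
    intro v
    rw [mem_compl, mem_union, mem_erase]
    tauto
  have hxS : x ∈ S := by
    by_contra hxS
    obtain ⟨y, hy, hyx⟩ : ∃ y ∈ nb H I, x ≠ y := by
      by_cases h1 : a = x
      · exact ⟨b, hb, h1 ▸ hab.ne⟩
      · exact ⟨a, ha, Ne.symm h1⟩
    obtain ⟨f, hf⟩ := h.bic x y hyx
    obtain ⟨-, -, s3⟩ := swp hI hc hx hy hyx hf
    have hSR : ∀ v ∈ S, v ∉ I ∧ v ∉ nb H I := by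
      intro v hv
      obtain ⟨h1, h2 | h2⟩ := (hmem v).1 (hS hv)
      · exact absurd (h2 ▸ hv) hxS
      · exact ⟨h1, h2⟩
    have hSc : ∀ v ∈ S, v ∈ ({x, y} : Finset V)ᶜ := by
      intro v hv
      rw [mem_compl, mem_insert, mem_singleton]
      rintro (h1 | h1)
      · exact hxS (h1 ▸ hv)
      · exact (hSR v hv).2 (h1 ▸ hy)
    have h1 : S.card ≤ (nb H S ∩ (I ∪ (nb H I).erase x)ᶜ).card := by
      refine card_le_card_of_injOn f ?_ ?_
      · intro v hv
        rw [mem_coe] at hv ⊢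
        obtain ⟨h2, h3⟩ := s3 v (hSR v hv).1 (hSR v hv).2
        exact mem_inter.2 ⟨mem_nb.2 ⟨v, hv, (hf v (hSc v hv)).2.2⟩, (hmem _).2 ⟨h2, Or.inr h3⟩⟩
      · intro u hu v hv huv
        rw [← (hf u (hSc u hu)).2.1, huv, (hf v (hSc v hv)).2.1]
    omega
  have hJ1 : (S.erase x).card + 1 = S.card := card_erase_add_one hxS
  have hJR : ∀ v ∈ S.erase x, v ∉ I ∧ v ∉ nb H I := by
    intro v hv
    obtain ⟨h1, h2⟩ := mem_erase.1 hv
    obtain ⟨h3, h4 | h4⟩ := (hmem v).1 (hS h2)
    · exact absurd h4 h1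
    · exact ⟨h3, h4⟩
  rcases (S.erase x).eq_empty_or_nonempty with hJ | hJ
  · left
    intro v hv
    by_contra hv'
    rw [hJ, card_empty] at hJ1
    have h1 : (nb H S ∩ (I ∪ (nb H I).erase x)ᶜ).card = 0 := by omega
    rw [card_eq_zero] at h1
    have h2 : v ∈ nb H S ∩ (I ∪ (nb H I).erase x)ᶜ := by
      refine mem_inter.2 ⟨mem_nb.2 ⟨x, hxS, hv⟩, (hmem v).2 ?_⟩
      rw [mem_union, not_or] at hv'
      exact ⟨hv'.1, Or.inr hv'.2⟩
    rw [h1] at h2
    exact notMem_empty v h2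
  · right
    have hst : Stable H (I ∪ S.erase x) := by
      intro u hu v hv huv
      rcases mem_union.1 hu with h1 | h1 <;> rcases mem_union.1 hv with h2 | h2
      · exact hI u h1 v h2 huv
      · exact (hJR v h2).2 (mem_nb.2 ⟨u, h1, huv⟩)
      · exact (hJR u h1).2 (mem_nb.2 ⟨v, h2, huv.symm⟩)
      · exact hSst u (mem_of_mem_erase h1) v (mem_of_mem_erase h2) huv
    have hd2 : Disjoint I (S.erase x) := disjoint_left.2 fun v hv hv' => (hJR v hv').1 hv
    have hc2 : (I ∪ S.erase x).card = I.card + (S.erase x).card := card_union_of_disjoint hd2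
    have hpos : 0 < (S.erase x).card := card_pos.2 hJ
    have hsub : nb H (I ∪ S.erase x) ⊆ nb H I ∪ (nb H S ∩ (I ∪ (nb H I).erase x)ᶜ) := by
      intro v hv
      obtain ⟨s, hs, hsv⟩ := mem_nb.1 hv
      rw [mem_union]
      by_cases h1 : v ∈ nb H I
      · exact Or.inl h1
      · right
        rcases mem_union.1 hs with h2 | h2
        · exact absurd (mem_nb.2 ⟨s, h2, hsv⟩) h1
        · have h3 : v ∉ I := fun h3 => (hJR s h2).2 (mem_nb.2 ⟨v, h3, hsv.symm⟩)
          exact mem_inter.2 ⟨mem_nb.2 ⟨s, mem_of_mem_erase h2, hsv⟩, (hmem v).2 ⟨h3, Or.inr h1⟩⟩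
    have hc3 := (card_le_card hsub).trans (card_union_le _ _)
    have hne : (I ∪ S.erase x).Nonempty := hJ.mono subset_union_right
    have hc4 := surplus h.bic h.four hst hne
    have hmono := nb_mono (H := H) (subset_union_left : I ⊆ I ∪ S.erase x)
    refine ⟨I ∪ S.erase x, hst, ?_, hmono ha, hmono hb, hmono hc', ?_⟩
    · omega
    · omega

end Pool.Agent.Work.MP_0f7328_co.TV
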