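import Pool.Agent.Work.MP_0f7328_co.TV.Defs

/-!
A bicritical graph on at least four vertices has an even number of vertices and is 2-connected.

Proof of `even_card`: take `x ≠ y`; `Mat.even` gives that `({x, y}ᶜ).card = Fintype.card V - 2` is
even.
Proof of `conn`: suppose that there is no such edge, so every neighbour of an element of `W` lies in
`W` or is `r`. Let `W' = (insert r W)ᶜ`, which is nonempty; no element of `W'` is adjacent to an
element of `W`, so every neighbour of an element of `W'` lies in `W'` or is `r`. As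
`|W| + |W'| + 1` is even, exactly one of `|W|, |W'|` is odd. If `|W|` is odd, choose `w' ∈ W'` and
the perfect matching `f` of `{r, w'}ᶜ`: it maps `W` to `W` (for `v ∈ W`, `f v` is adjacent to `v`
and is not `r`), so `W` has a perfect matching and `|W|` is even by `Mat.even`, a contradiction. If
`|W'|` is odd, choose `w ∈ W` and the perfect matching of `{r, w}ᶜ`; it maps `W'` to `W'`, again a
contradiction.
Proof of `conn0`: let `u ∉ W`. If there is another vertex outside `W` besides `u`, apply `conn` with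
`r = u`. Otherwise `W = {u}ᶜ`; take `x, y` two distinct vertices different from `u`; the perfect
matching of `{x, y}ᶜ` gives a neighbour of `u`, which lies in `W`.
-/

set_option autoImplicit false
set_option linter.unusedSectionVars false

namespace Pool.Agent.Work.MP_0f7328_co.TV

open Finset

variable {V : Type} [Fintype V] [DecidableEq V] {H : SimpleGraph V}

private theorem cn_even (hb : Bicrit H) (h4 : 4 ≤ Fintype.card V) : Even (Fintype.card V) := by
  obtain ⟨x, y, hxy⟩ := Fintype.exists_pair_of_one_lt_card (α := V) (by omega)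
  have h1 := (hb x y hxy).even
  rw [card_compl, card_pair hxy] at h1
  obtain ⟨k, hk⟩ := h1
  exact ⟨k + 1, by omega⟩

private theorem cn_part (hb : Bicrit H) {r : V} {W : Finset V} (hr : r ∉ W) {w' : V}
    (hw : w' ∉ W) (hwr : w' ≠ r) (hcl : ∀ w ∈ W, ∀ u, H.Adj w u → u ∈ W ∨ u = r) :
    Even W.card := by
  obtain ⟨f, hf⟩ := hb r w' hwr.symm
  have hm : ∀ v ∈ W, v ∈ ({r, w'} : Finset V)ᶜ := by
    intro v hv
    rw [mem_compl, mem_insert, mem_singleton]
    rintro (h | h)
    · exact hr (h ▸ hv)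
    · exact hw (h ▸ hv)
  refine Mat.even (H := H) ⟨f, fun v hv => ?_⟩
  obtain ⟨h1, h2, h3⟩ := hf v (hm v hv)
  refine ⟨?_, h2, h3⟩
  rcases hcl v hv (f v) h3 with h | h
  · exact h
  · rw [mem_compl, mem_insert, mem_singleton, not_or] at h1
    exact absurd h h1.1

private theorem cn_conn (hb : Bicrit H) (h4 : 4 ≤ Fintype.card V) (r : V) (W : Finset V)
    (hW : W.Nonempty) (hr : r ∉ W) (hW' : ∃ u, u ∉ W ∧ u ≠ r) :
    ∃ w ∈ W, ∃ u, u ∉ W ∧ u ≠ r ∧ H.Adj w u := by
  by_contra hcon
  push Not at hcon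
  obtain ⟨u₀, hu₀, hur⟩ := hW'
  obtain ⟨w₀, hw₀⟩ := hW
  have hcl : ∀ w ∈ W, ∀ u, H.Adj w u → u ∈ W ∨ u = r := by
    intro w hw u hwu
    by_contra hn
    rw [not_or] at hn
    exact hcon w hw u hn.1 hn.2 hwu
  have h1 : Even W.card := cn_part hb hr hu₀ hur hcl
  have h2 : Even ((insert r W)ᶜ : Finset V).card := by
    refine cn_part hb (r := r) (w' := w₀) ?_ ?_ ?_ ?_
    · rw [mem_compl, not_not]
      exact mem_insert_self _ _
    · rw [mem_compl, not_not]
      exact mem_insert_of_mem hw₀
    · exact fun h => hr (h ▸ hw₀)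
    · intro w hw u hwu
      rw [mem_compl, mem_insert, not_or] at hw
      by_contra hn
      rw [not_or, mem_compl, not_not, mem_insert] at hn
      have hu : u ∈ W := hn.1.resolve_left hn.2
      rcases hcl u hu w hwu.symm with h | h
      · exact hw.2 h
      · exact hw.1 h
  have h3 := cn_even hb h4
  rw [card_compl, card_insert_of_notMem hr] at h2
  have h5 : (insert r W).card ≤ Fintype.card V := card_le_univ _
  rw [card_insert_of_notMem hr] at h5
  obtain ⟨i, hi⟩ := h1
  obtain ⟨j, hj⟩ := h2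
  obtain ⟨k, hk⟩ := h3
  omega

theorem even_card (hb : Bicrit H) (h4 : 4 ≤ Fintype.card V) : Even (Fintype.card V) := by
  exact cn_even hb h4

theorem conn (hb : Bicrit H) (h4 : 4 ≤ Fintype.card V) (r : V) (W : Finset V) (hW : W.Nonempty)
    (hr : r ∉ W) (hW' : ∃ u, u ∉ W ∧ u ≠ r) : ∃ w ∈ W, ∃ u, u ∉ W ∧ u ≠ r ∧ H.Adj w u := by
  exact cn_conn hb h4 r W hW hr hW'

theorem conn0 (hb : Bicrit H) (h4 : 4 ≤ Fintype.card V) (W : Finset V) (hW : W.Nonempty)
    (hW' : ∃ u, u ∉ W) : ∃ w ∈ W, ∃ u, u ∉ W ∧ H.Adj w u := by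
  obtain ⟨u, hu⟩ := hW'
  by_cases h1 : ∃ v, v ∉ W ∧ v ≠ u
  · obtain ⟨w, hw, v, hv, -, hwv⟩ := cn_conn hb h4 u W hW hu h1
    exact ⟨w, hw, v, hv, hwv⟩
  · push Not at h1
    have h2 : ∀ v, v ≠ u → v ∈ W := by
      intro v hv
      by_contra h3
      exact hv (h1 v h3)
    obtain ⟨x, hx⟩ : ∃ x, x ∉ ({u} : Finset V) := by
      by_contra hn
      push Not at hn
      have h3 : (univ : Finset V) ⊆ {u} := fun v _ => hn v
      have h5 := card_le_card h3
      rw [card_univ, card_singleton] at h5
      omega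
    obtain ⟨y, hy⟩ : ∃ y, y ∉ ({u, x} : Finset V) := by
      by_contra hn
      push Not at hn
      have h3 : (univ : Finset V) ⊆ {u, x} := fun v _ => hn v
      have h5 := (card_le_card h3).trans card_le_two
      rw [card_univ] at h5
      omega
    rw [mem_singleton] at hx
    rw [mem_insert, mem_singleton, not_or] at hy
    obtain ⟨f, hf⟩ := hb x y (Ne.symm hy.2)
    have hu' : u ∈ ({x, y} : Finset V)ᶜ := by
      rw [mem_compl, mem_insert, mem_singleton, not_or]
      exact ⟨Ne.symm hx, Ne.symm hy.1⟩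
    have h3 := (hf u hu').2.2
    exact ⟨f u, h2 _ h3.ne', u, hu, h3.symm⟩

end Pool.Agent.Work.MP_0f7328_co.TV
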