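import Pool.Agent.Work.MP_0f7328_co.TV.A1
import Pool.Agent.Work.MP_0f7328_co.TV.A3
import Pool.Agent.Work.MP_0f7328_co.TV.Conn

/-!
Theorem A: a triangle is avoided by a stable set of size `|V| / 2 - 1`.

Proof. Among all `I` with `Stable H I`, `(nb H I).card = I.card + 2` and `a, b, c ∈ nb H I` (there
is one by `a1`) take one with `I.card` maximal. By `a3` every neighbour of every `x ∈ nb H I` lies
in `I ∪ nb H I`; every neighbour of an element of `I` lies in `nb H I`. So no edge leaves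
`W = I ∪ nb H I`, which is nonempty (it contains `a`), and `W = univ` by `conn0`. As `I` and
`nb H I` are disjoint, `Fintype.card V = 2 * I.card + 2`. Finally `a ∈ nb H I` and `I` stable give
`a ∉ I`, and the same for `b, c`.
-/

set_option autoImplicit false
set_option linter.unusedSectionVars false

namespace Pool.Agent.Work.MP_0f7328_co.TV

open Finset

variable {V : Type} [Fintype V] [DecidableEq V] {H : SimpleGraph V}

theorem thmA (h : SB H) {a b c : V} (hab : H.Adj a b) (hbc : H.Adj b c) (hac : H.Adj a c) :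
    ∃ I, Big H I ∧ a ∉ I ∧ b ∉ I ∧ c ∉ I := by
  classical
  obtain ⟨I₀, p1, p2, p3, p4, p5⟩ := a1 h hab hbc hac
  obtain ⟨I, hI, hmax⟩ := (univ.filter fun I : Finset V => Stable H I ∧
    (nb H I).card = I.card + 2 ∧ a ∈ nb H I ∧ b ∈ nb H I ∧ c ∈ nb H I).exists_max_image card
    ⟨I₀, mem_filter.2 ⟨mem_univ _, p1, p2, p3, p4, p5⟩⟩
  obtain ⟨-, hst, hc, ha, hb, hcc⟩ := mem_filter.1 hI
  have hnb : ∀ x ∈ nb H I, ∀ v, H.Adj x v → v ∈ I ∪ nb H I := by
    intro x hx
    rcases a3 h hst hc hab hbc hac ha hb hcc hx with h1 | ⟨I', q1, q2, q3, q4, q5, q6⟩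
    · exact h1
    · have := hmax I' (mem_filter.2 ⟨mem_univ _, q1, q2, q3, q4, q5⟩)
      omega
  have huniv : ∀ u, u ∈ I ∪ nb H I := by
    by_contra hn
    push Not at hn
    obtain ⟨w, hw, u, hu, hwu⟩ := conn0 h.bic h.four (I ∪ nb H I)
      ⟨a, mem_union_right _ ha⟩ hn
    rcases mem_union.1 hw with h1 | h1
    · exact hu (mem_union_right _ (mem_nb.2 ⟨w, h1, hwu⟩))
    · exact hu (hnb w h1 u hwu)
  have hcard : Fintype.card V = 2 * I.card + 2 := by
    have h1 : (I ∪ nb H I) = univ := eq_univ_of_forall huniv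
    have h2 := card_union_of_disjoint hst.disjoint_nb
    rw [h1, card_univ, hc] at h2
    omega
  refine ⟨I, ⟨hst, hcard.symm⟩, ?_, ?_, ?_⟩
  · exact fun h1 => hst.notMem_nb h1 ha
  · exact fun h1 => hst.notMem_nb h1 hb
  · exact fun h1 => hst.notMem_nb h1 hcc

end Pool.Agent.Work.MP_0f7328_co.TV
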