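import Pool.Agent.Work.MP_0f7328_co.TV.Viol
import Pool.Agent.Work.MP_0f7328_co.TV.Surp

/-!
The first barrier. The triangle `T = {a, b, c}` has a rotation (`Rot.tri`) and three elements
(`card_tri`), an odd number, so `Tᶜ` has no rotation (`h.nosplit`). `stable_of_not_rot` gives a
stable `I ⊆ Tᶜ` with `(nb H I ∩ Tᶜ).card < I.card`; `I` is nonempty. By `surplus`
`I.card + 2 ≤ (nb H I).card = (nb H I ∩ Tᶜ).card + (nb H I ∩ T).card ≤ I.card - 1 + 3`. So
`(nb H I).card = I.card + 2` and `nb H I ∩ T` has three elements, i.e. `T ⊆ nb H I`.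
-/

set_option autoImplicit false
set_option linter.unusedSectionVars false

namespace Pool.Agent.Work.MP_0f7328_co.TV

open Finset

variable {V : Type} [Fintype V] [DecidableEq V] {H : SimpleGraph V}

theorem a1 (h : SB H) {a b c : V} (hab : H.Adj a b) (hbc : H.Adj b c) (hac : H.Adj a c) :
    ∃ I, Stable H I ∧ (nb H I).card = I.card + 2 ∧ a ∈ nb H I ∧ b ∈ nb H I ∧ c ∈ nb H I := by
  have hc := card_tri hab hbc hac
  set T : Finset V := {a, b, c} with hT
  have hrot : ¬ Rot H Tᶜ := fun hr =>
    h.nosplit ⟨T, by rw [hc]; decide, Rot.tri hab hbc hac, hr⟩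
  obtain ⟨I, hIT, hst, hlt⟩ := stable_of_not_rot hrot
  have hne : I.Nonempty := by
    rw [← card_pos]
    omega
  have hsur := surplus h.bic h.four hst hne
  have hsplit : (nb H I).card = (nb H I ∩ Tᶜ).card + (nb H I ∩ T).card := by
    rw [← card_union_of_disjoint]
    · congr 1
      ext v
      simp only [mem_union, mem_inter, mem_compl]
      tauto
    · rw [disjoint_left]
      intro v hv hv'
      simp only [mem_inter, mem_compl] at hv hv'
      exact hv.2 hv'.2
  have hle : (nb H I ∩ T).card ≤ T.card := card_le_card inter_subset_right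
  have heq : nb H I ∩ T = T := eq_of_subset_of_card_le inter_subset_right (by omega)
  have hsub : T ⊆ nb H I := by
    rw [← heq]
    exact inter_subset_left
  refine ⟨I, hst, by omega, hsub ?_, hsub ?_, hsub ?_⟩ <;> simp [hT]

end Pool.Agent.Work.MP_0f7328_co.TV
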