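import Pool.Agent.Work.MP_0f7328_co.TV.Swp

/-!
A rotation of `I` together with all but one of its neighbours.

Proof. Among `a, b, c` choose two, `p` and `q`, different from `x` (case distinction; they are
adjacent). Let `f₁` be the perfect matching of `{x, p}ᶜ` and `f₂` that of `{x, q}ᶜ`. By `swp`, `f₁`
maps `I` injectively into `nb H I \ {x, p}` and `f₂` maps `nb H I \ {x, q}` injectively into `I`.
Define `g v = f₁ v` for `v ∈ I`, `g q = p`, and `g v = f₂ v` otherwise. For
`v ∈ I ∪ (nb H I).erase x`: `g` maps `I` into `nb H I \ {x, p}`, `q` to `p`, and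
`nb H I \ {x, q}` into `I`; these three targets are disjoint (`I` is disjoint from `nb H I`) and
contained in `I ∪ (nb H I).erase x`, `g` is injective on each part, and `v` is adjacent to `g v`.
-/

set_option autoImplicit false
set_option linter.unusedSectionVars false

namespace Pool.Agent.Work.MP_0f7328_co.TV

open Finset

variable {V : Type} [Fintype V] [DecidableEq V] {H : SimpleGraph V}

private theorem a2h (hb : Bicrit H) {I : Finset V} (hI : Stable H I)
    (hc : (nb H I).card = I.card + 2) {p q x : V} (hpq : H.Adj p q) (hp : p ∈ nb H I)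
    (hq : q ∈ nb H I) (hx : x ∈ nb H I) (hpx : p ≠ x) (hqx : q ≠ x) :
    Rot H (I ∪ (nb H I).erase x) := by
  obtain ⟨f₁, h₁⟩ := hb x p hpx.symm
  obtain ⟨f₂, h₂⟩ := hb x q hqx.symm
  obtain ⟨s1, -, -⟩ := swp hI hc hx hp hpx.symm h₁
  obtain ⟨-, s2, -⟩ := swp hI hc hx hq hqx.symm h₂
  have hd : ∀ v ∈ I, v ∉ nb H I := fun v hv => hI.notMem_nb hv
  have hI1 : ∀ v ∈ I, v ∈ ({x, p} : Finset V)ᶜ := by
    intro v hv
    rw [mem_compl, mem_insert, mem_singleton]
    rintro (h | h)
    · exact hd v hv (h ▸ hx)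
    · exact hd v hv (h ▸ hp)
  have hB2 : ∀ v, v ≠ x → v ≠ q → v ∈ ({x, q} : Finset V)ᶜ := by
    intro v h1 h2
    rw [mem_compl, mem_insert, mem_singleton]
    rintro (h | h)
    · exact h1 h
    · exact h2 h
  have hm : ∀ v, v ∈ I ∪ (nb H I).erase x → v ∉ I → v ≠ x ∧ v ∈ nb H I := by
    intro v hv hv'
    rcases mem_union.1 hv with h | h
    · exact absurd h hv'
    · exact mem_erase.1 h
  refine ⟨fun v => if v ∈ I then f₁ v else if v = q then p else f₂ v, ?_, ?_⟩
  · intro u hu v hv huv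
    rw [mem_coe] at hu hv
    simp only at huv
    by_cases h1 : u ∈ I <;> by_cases h2 : v ∈ I
    · rw [if_pos h1, if_pos h2] at huv
      rw [← (h₁ u (hI1 u h1)).2.1, huv, (h₁ v (hI1 v h2)).2.1]
    · rw [if_pos h1, if_neg h2] at huv
      obtain ⟨e1, e2⟩ := hm v hv h2
      by_cases h3 : v = q
      · rw [if_pos h3] at huv
        exact absurd huv (s1 u h1).2.2
      · rw [if_neg h3] at huv
        exact absurd (s1 u h1).1 (hd _ (huv ▸ s2 v e2 e1 h3))
    · rw [if_pos h2, if_neg h1] at huv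
      obtain ⟨e1, e2⟩ := hm u hu h1
      by_cases h3 : u = q
      · rw [if_pos h3] at huv
        exact absurd huv.symm (s1 v h2).2.2
      · rw [if_neg h3] at huv
        exact absurd (s1 v h2).1 (hd _ (huv ▸ s2 u e2 e1 h3))
    · rw [if_neg h1, if_neg h2] at huv
      obtain ⟨e1, e2⟩ := hm u hu h1
      obtain ⟨e3, e4⟩ := hm v hv h2
      by_cases h3 : u = q <;> by_cases h4 : v = q
      · rw [h3, h4]
      · rw [if_pos h3, if_neg h4] at huv
        exact absurd hp (hd _ (huv ▸ s2 v e4 e3 h4))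
      · rw [if_neg h3, if_pos h4] at huv
        exact absurd hp (hd _ (huv ▸ s2 u e2 e1 h3))
      · rw [if_neg h3, if_neg h4] at huv
        rw [← (h₂ u (hB2 u e1 h3)).2.1, huv, (h₂ v (hB2 v e3 h4)).2.1]
  · intro v hv
    simp only
    by_cases h1 : v ∈ I
    · rw [if_pos h1]
      exact ⟨mem_union_right _ (mem_erase.2 ⟨(s1 v h1).2.1, (s1 v h1).1⟩),
        (h₁ v (hI1 v h1)).2.2⟩
    · rw [if_neg h1]
      obtain ⟨e1, e2⟩ := hm v hv h1
      by_cases h3 : v = q
      · rw [if_pos h3, h3]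
        exact ⟨mem_union_right _ (mem_erase.2 ⟨hpx, hp⟩), hpq.symm⟩
      · rw [if_neg h3]
        exact ⟨mem_union_left _ (s2 v e2 e1 h3), (h₂ v (hB2 v e1 h3)).2.2⟩

theorem a2 (hb : Bicrit H) {I : Finset V} (hI : Stable H I) (hc : (nb H I).card = I.card + 2)
    {a b c : V} (hab : H.Adj a b) (hbc : H.Adj b c) (hac : H.Adj a c) (ha : a ∈ nb H I)
    (hb' : b ∈ nb H I) (hc' : c ∈ nb H I) {x : V} (hx : x ∈ nb H I) :
    Rot H (I ∪ (nb H I).erase x) := by
  by_cases h1 : a = x
  · exact a2h hb hI hc hbc hb' hc' hx (h1 ▸ hab.ne') (h1 ▸ hac.ne')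
  · by_cases h2 : b = x
    · exact a2h hb hI hc hac ha hc' hx h1 (h2 ▸ hbc.ne')
    · exact a2h hb hI hc hab ha hb' hx h1 h2

end Pool.Agent.Work.MP_0f7328_co.TV
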