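import Pool.Agent.Work.MP_0f7328_co.TV.Defs
import Pool.Agent.Work.PolyTime.NPClose

/-!
Bit strings of multigraphs; the algorithm that recognises the solid ones among the bricks all of
whose vertices lie in triangles.
-/

set_option autoImplicit false
set_option linter.unusedSectionVars false

namespace Pool.Agent.Work.MP_0f7328_co.TV

open Pool.Agent.Work.PolyTime

/-- The edges join different vertices below `n`. -/
def Wf (n : ℕ) (E : List (ℕ × ℕ)) : Prop := ∀ e ∈ E, e.1 < n ∧ e.2 < n ∧ e.1 ≠ e.2

/-- The loopless multigraph with vertices `0, ..., n - 1` whose edges are given by a list; parallel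
edges are repeated members of the list. -/
def graph (n : ℕ) (E : List (ℕ × ℕ)) (h : Wf n E) : MGraph (Fin n) (Fin E.length) where
  ends i := s(⟨(E.get i).1, (h _ (E.get_mem i)).1⟩, ⟨(E.get i).2, (h _ (E.get_mem i)).2.1⟩)
  loopless i hd := (h _ (E.get_mem i)).2.2 (by simpa [Sym2.mk_isDiag_iff] using hd)

/-- A number is written in unary, `0` as `0` and `n + 1` as `10` followed by `n`. -/
def encNat : ℕ → List Bool
  | 0 => [false]
  | n + 1 => true :: false :: encNat n

/-- A pair of numbers is written by writing `1`, the first and the second number. -/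
def encPair (x : ℕ × ℕ) : List Bool := true :: (encNat x.1 ++ encNat x.2)

/-- A list of edges is written by writing `1` before each of its members and `0` at the end. -/
def encList : List (ℕ × ℕ) → List Bool
  | [] => [false]
  | e :: E => true :: (encPair e ++ encList E)

/-- The bit string of a multigraph. -/
def encode (n : ℕ) (E : List (ℕ × ℕ)) : List Bool := true :: (encNat n ++ encList E)

/-- The bricks all of whose vertices lie in triangles. -/
def TriBricks : Set (List Bool) :=
  {w | ∃ (n : ℕ) (E : List (ℕ × ℕ)) (h : Wf n E), w = encode n E ∧ (graph n E h).IsBrick ∧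
    ∀ v, InTri (graph n E h).simple v}

/-- The solid bricks, the yes-instances of SOLID BRICK. -/
def SolidBricks : Set (List Bool) :=
  {w | ∃ (n : ℕ) (E : List (ℕ × ℕ)) (h : Wf n E), w = encode n E ∧ (graph n E h).IsBrick ∧
    (graph n E h).Solid}

/-- The decision problem with set of inputs `P` and set of yes-instances `L` is in P: a
polynomial-time algorithm accepts exactly the yes-instances among the inputs. -/
def InPOn (P L : Set (List Bool)) : Prop :=
  ∃ f : List Bool → List Bool, PolyTimeComputable f ∧ ∀ w ∈ P, w ∈ L ↔ f w = [true]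

/-! ### the algorithm -/

/-- Adjacency. -/
def adjB (E : List (ℕ × ℕ)) (u v : ℕ) : Bool := decide ((u, v) ∈ E) || decide ((v, u) ∈ E)

/-- Number of neighbours. -/
def degB (n : ℕ) (E : List (ℕ × ℕ)) (v : ℕ) : ℕ :=
  ((List.range n).filter fun u => adjB E v u).length

/-- Some vertex is adjacent to all others, and these have exactly three neighbours. -/
def wheelB (n : ℕ) (E : List (ℕ × ℕ)) : Bool :=
  (List.range n).any fun r => (List.range n).all fun v =>
    decide (v = r) || (adjB E r v && decide (degB n E v = 3))

/-- The adjacency bits of eight vertices. -/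
def bits8 (E : List (ℕ × ℕ)) : List Bool :=
  (List.range 8).flatMap fun u => (List.range 8).map fun v => adjB E u v

open Classical in
/-- The adjacency bits of the graph `Q8`, renumbered by `π`. -/
noncomputable def row8 (π : Equiv.Perm (Fin 8)) : List Bool :=
  (List.finRange 8).flatMap fun u => (List.finRange 8).map fun v => decide (Q8.Adj (π u) (π v))

/-- All such lists. -/
noncomputable def table8 : List (List Bool) :=
  (Finset.univ : Finset (Equiv.Perm (Fin 8))).toList.map row8

/-- The algorithm on a graph. -/
noncomputable def algG (n : ℕ) (E : List (ℕ × ℕ)) : Bool :=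
  wheelB n E || (decide (n = 8) && decide (bits8 E ∈ table8))

/-- The algorithm on words. -/
noncomputable def alg (w : List Bool) : Bool :=
  ((parseW (ℕ × List (ℕ × ℕ)) w).bind fun I => some (algG I.1 I.2)).getD false

/-! ### basic facts -/

theorem encNat_eq (n : ℕ) : encNat n = (code n).ser := by
  induction n with
  | zero => rfl
  | succ n ih => rw [encNat, ih]; rfl

theorem encList_eq (E : List (ℕ × ℕ)) : encList E = (code E).ser := by
  induction E with
  | nil => rfl
  | cons e E ih => rw [encList, ih, encPair, encNat_eq, encNat_eq]; rfl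

theorem encode_eq (n : ℕ) (E : List (ℕ × ℕ)) : encode n E = (code (n, E)).ser := by
  rw [encode, encNat_eq, encList_eq]; rfl

theorem encode_inj {n n' : ℕ} {E E' : List (ℕ × ℕ)} (h : encode n E = encode n' E') :
    n = n' ∧ E = E' := by
  rw [encode_eq, encode_eq] at h
  have h1 : (code (n, E) : T) = code (n', E') := T.ser_inj h
  have h2 := LawfulCode.inj h1
  exact ⟨congrArg Prod.fst h2, congrArg Prod.snd h2⟩

theorem adjB_iff {n : ℕ} {E : List (ℕ × ℕ)} (h : Wf n E) (u v : Fin n) :
    adjB E u v = true ↔ (graph n E h).simple.Adj u v := by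
  unfold adjB
  rw [Bool.or_eq_true, decide_eq_true_iff, decide_eq_true_iff]
  change _ ↔ ∃ i, (graph n E h).ends i = s(u, v)
  constructor
  · rintro (hm | hm)
    · obtain ⟨i, hi⟩ := List.mem_iff_get.1 hm
      exact ⟨i, Sym2.eq_iff.2 (Or.inl ⟨Fin.ext (congrArg Prod.fst hi),
        Fin.ext (congrArg Prod.snd hi)⟩)⟩
    · obtain ⟨i, hi⟩ := List.mem_iff_get.1 hm
      exact ⟨i, Sym2.eq_iff.2 (Or.inr ⟨Fin.ext (congrArg Prod.fst hi),
        Fin.ext (congrArg Prod.snd hi)⟩)⟩
  · rintro ⟨i, hi⟩
    have hm := E.get_mem i
    rcases Sym2.eq_iff.1 hi with ⟨h1, h2⟩ | ⟨h1, h2⟩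
    · left
      have : E.get i = (u.1, v.1) := Prod.ext (congrArg Fin.val h1) (congrArg Fin.val h2)
      rwa [this] at hm
    · right
      have : E.get i = (v.1, u.1) := Prod.ext (congrArg Fin.val h1) (congrArg Fin.val h2)
      rwa [this] at hm

theorem alg_encode (n : ℕ) (E : List (ℕ × ℕ)) : alg (encode n E) = algG n E := by
  unfold alg
  rw [show parseW (ℕ × List (ℕ × ℕ)) (encode n E) = some (n, E) by
    rw [encode_eq]; exact parseW_ser _]
  rfl

end Pool.Agent.Work.MP_0f7328_co.TV
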