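import Pool.Agent.Work.MP_0f7328_co.TV.AlgDefs

/-!
The meaning of the table.

Proof. The two lists of 64 bits are equal iff the bits agree for all `u, v` (`List.range 8` is
`(List.finRange 8).map Fin.val`). So `bits8 E ∈ table8` iff there is a permutation `π` of `Fin 8` with
`adjB E u v = decide (Q8.Adj (π u) (π v))` for all `u, v : Fin 8`, i.e. (`adjB_iff`)
`(graph 8 E h).simple.Adj u v ↔ Q8.Adj (π u) (π v)`, i.e. `π` is an isomorphism.
-/

set_option autoImplicit false
set_option linter.unusedSectionVars false

namespace Pool.Agent.Work.MP_0f7328_co.TV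

open Finset

private theorem flat_eq {A B : Type} (f g : A → B → Bool) (l : List A) (m : List B) :
    l.flatMap (fun u => m.map (f u)) = l.flatMap (fun u => m.map (g u)) ↔
      ∀ u ∈ l, ∀ v ∈ m, f u v = g u v := by
  induction l with
  | nil => simp
  | cons a l ih =>
    rw [List.flatMap_cons, List.flatMap_cons]
    constructor
    · intro h
      have h1 := List.append_inj h (by rw [List.length_map, List.length_map])
      intro u hu
      rcases List.mem_cons.1 hu with rfl | hu
      · exact List.map_inj_left.1 h1.1
      · exact ih.1 h1.2 u hu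
    · intro h
      rw [List.map_inj_left.2 (h a List.mem_cons_self),
        ih.2 (fun u hu => h u (List.mem_cons_of_mem _ hu))]

private theorem bits8_eq (E : List (ℕ × ℕ)) :
    bits8 E = (List.finRange 8).flatMap fun u : Fin 8 => (List.finRange 8).map
      fun v : Fin 8 => adjB E u.1 v.1 := by
  unfold bits8
  have h1 : List.range 8 = (List.finRange 8).map Fin.val := by simp
  rw [h1, List.flatMap_map]
  simp only [List.map_map]
  rfl

theorem bits8_iff {E : List (ℕ × ℕ)} (h : Wf 8 E) :
    bits8 E ∈ table8 ↔ Nonempty ((graph 8 E h).simple ≃g Q8) := by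
  classical
  unfold table8
  rw [List.mem_map, bits8_eq]
  constructor
  · rintro ⟨π, _, hπ⟩
    unfold row8 at hπ
    rw [flat_eq] at hπ
    refine ⟨⟨π, ?_⟩⟩
    intro u v
    have h1 := hπ u (List.mem_finRange u) v (List.mem_finRange v)
    rw [← adjB_iff h u v, ← h1, decide_eq_true_iff]
  · rintro ⟨e⟩
    refine ⟨e.toEquiv, Finset.mem_toList.2 (Finset.mem_univ _), ?_⟩
    unfold row8
    rw [flat_eq]
    intro u _ v _
    rw [Bool.eq_iff_iff, decide_eq_true_iff, adjB_iff h u v]
    exact e.map_rel_iff

end Pool.Agent.Work.MP_0f7328_co.TV
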