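import Pool.Agent.Work.MP_0f7328_co.TV.AlgDefs

/-!
The algorithm runs in polynomial time.

Proof. Model: `ptime_entry`, `ptime_amat` in `TimeC.lean` of this problem. `adjB`: `PTime.or`,
`PTime.mem`, `PTime.prodMk`. `degB`: `PTime.length`, `PTime.filter`, `PTime.range`. `wheelB`:
`PTime.any`, `PTime.all`, `PTime.range`, `PTime.eq` for `decide (v = r)`. `bits8`: `PTime.flatMap`,
`PTime.map`, `List.range 8` is a constant (`PTime.const`). `table8` is a constant, membership by
`PTime.mem`. The theorem `ptime_alg` follows with `PTime.parseTest`.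
-/

set_option autoImplicit false
set_option linter.unusedSectionVars false

namespace Pool.Agent.Work.MP_0f7328_co.TV

open Pool.Agent.Work.PolyTime

section

variable {α : Type} [Code α]

private theorem ptime_adjB {E : α → List (ℕ × ℕ)} {u v : α → ℕ} (hE : PTime E) (hu : PTime u)
    (hv : PTime v) : PTime (fun x => adjB (E x) (u x) (v x)) := by
  unfold adjB
  have h1 : PTime (fun x => decide ((u x, v x) ∈ E x)) :=
    (PTime.mem (PTime.prodMk hu hv) hE).code_congr (fun x => decide_eq_decide.2 Iff.rfl)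
  have h2 : PTime (fun x => decide ((v x, u x) ∈ E x)) :=
    (PTime.mem (PTime.prodMk hv hu) hE).code_congr (fun x => decide_eq_decide.2 Iff.rfl)
  exact PTime.or h1 h2

private theorem ptime_degB {n : α → ℕ} {E : α → List (ℕ × ℕ)} {v : α → ℕ} (hn : PTime n)
    (hE : PTime E) (hv : PTime v) : PTime (fun x => degB (n x) (E x) (v x)) := by
  unfold degB
  refine PTime.length (PTime.filter (PTime.range hn) ?_)
  exact ptime_adjB (hE.comp PTime.fst) (hv.comp PTime.fst) PTime.snd

private theorem ptime_wheelB {n : α → ℕ} {E : α → List (ℕ × ℕ)} (hn : PTime n)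
    (hE : PTime E) : PTime (fun x => wheelB (n x) (E x)) := by
  unfold wheelB
  refine PTime.any (PTime.range hn) (PTime.all (PTime.range (hn.comp PTime.fst)) ?_)
  have x1 : PTime (fun y : (α × ℕ) × ℕ => y.1.1) := PTime.fst.comp PTime.fst
  have x2 : PTime (fun y : (α × ℕ) × ℕ => y.1.2) := PTime.snd.comp PTime.fst
  have h1 : PTime (fun y : (α × ℕ) × ℕ => decide (y.2 = y.1.2)) :=
    (PTime.eq PTime.snd x2).code_congr (fun x => decide_eq_decide.2 Iff.rfl)
  have h2 : PTime (fun y : (α × ℕ) × ℕ => adjB (E y.1.1) y.1.2 y.2) :=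
    ptime_adjB (hE.comp x1) x2 PTime.snd
  have h3 : PTime (fun y : (α × ℕ) × ℕ => decide (degB (n y.1.1) (E y.1.1) y.2 = 3)) :=
    (PTime.eq (ptime_degB (hn.comp x1) (hE.comp x1) PTime.snd) (PTime.const 3)).code_congr
      (fun x => decide_eq_decide.2 Iff.rfl)
  exact PTime.or h1 (PTime.and h2 h3)

private theorem ptime_bits8 {E : α → List (ℕ × ℕ)} (hE : PTime E) :
    PTime (fun x => bits8 (E x)) := by
  unfold bits8
  refine PTime.flatMap (PTime.const _) (PTime.map (PTime.const _) ?_)
  have x1 : PTime (fun y : (α × ℕ) × ℕ => y.1.1) := PTime.fst.comp PTime.fst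
  have x2 : PTime (fun y : (α × ℕ) × ℕ => y.1.2) := PTime.snd.comp PTime.fst
  exact ptime_adjB (hE.comp x1) x2 PTime.snd

private theorem ptime_algG' {n : α → ℕ} {E : α → List (ℕ × ℕ)} (hn : PTime n)
    (hE : PTime E) : PTime (fun x => algG (n x) (E x)) := by
  unfold algG
  have h1 : PTime (fun x => decide (n x = 8)) :=
    (PTime.eq hn (PTime.const 8)).code_congr (fun x => decide_eq_decide.2 Iff.rfl)
  have h2 : PTime (fun x => decide (bits8 (E x) ∈ table8)) :=
    (PTime.mem (ptime_bits8 hE) (PTime.const table8)).code_congr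
      (fun x => decide_eq_decide.2 Iff.rfl)
  exact PTime.or (ptime_wheelB hn hE) (PTime.and h1 h2)

end

theorem ptime_algG : PTime (fun x : ℕ × List (ℕ × ℕ) => algG x.1 x.2) :=
  ptime_algG' PTime.fst PTime.snd

theorem ptime_alg : PTime alg := by
  unfold alg
  exact PTime.parseTest (β := ℕ × List (ℕ × ℕ)) (t := fun _ I => algG I.1 I.2) PTime.id
    (ptime_algG.comp PTime.snd)

end Pool.Agent.Work.MP_0f7328_co.TV
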