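import Pool.Agent.Work.MP_0f7328_co.TV.AlgDefs

/-!
The meaning of the wheel test.

Proof. `adjB_iff`; `degB n E v` is the number of `u < n` with `adjB E v u`, which is the number of
elements of `nb H {v}` for `H = (graph n E h).simple` (bijection `Fin n` and `List.range n`;
`List.range n` has no repetitions).
-/

set_option autoImplicit false
set_option linter.unusedSectionVars false

namespace Pool.Agent.Work.MP_0f7328_co.TV

open Finset

private theorem degB_card {n : ℕ} {E : List (ℕ × ℕ)} (h : Wf n E) (v : Fin n) :
    degB n E v = (nb (graph n E h).simple ({v} : Finset (Fin n))).card := by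
  unfold degB
  have h1 : List.range n = (List.finRange n).map Fin.val := by simp
  rw [h1, List.filter_map, List.length_map]
  have h2 : nb (graph n E h).simple ({v} : Finset (Fin n)) =
      ((List.finRange n).filter ((fun u => adjB E v u) ∘ Fin.val)).toFinset := by
    ext u
    rw [mem_nb, List.mem_toFinset, List.mem_filter]
    simp only [mem_singleton, exists_eq_left, List.mem_finRange, true_and, Function.comp_apply]
    exact (adjB_iff h v u).symm
  rw [h2, List.toFinset_card_of_nodup ((List.nodup_finRange n).filter _)]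

theorem wheelB_iff {n : ℕ} {E : List (ℕ × ℕ)} (h : Wf n E) :
    wheelB n E = true ↔ ∃ r : Fin n, (∀ v, v ≠ r → (graph n E h).simple.Adj r v) ∧
      ∀ v, v ≠ r → (nb (graph n E h).simple ({v} : Finset (Fin n))).card = 3 := by
  unfold wheelB
  rw [List.any_eq_true]
  constructor
  · rintro ⟨r, hr, h1⟩
    rw [List.mem_range] at hr
    rw [List.all_eq_true] at h1
    have h2 : ∀ v : Fin n, v ≠ ⟨r, hr⟩ → adjB E r v = true ∧ degB n E v = 3 := by
      intro v hv
      have h3 := h1 v.1 (List.mem_range.2 v.2)
      rw [Bool.or_eq_true, Bool.and_eq_true, decide_eq_true_iff, decide_eq_true_iff] at h3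
      rcases h3 with h3 | h3
      · exact absurd (Fin.ext h3) hv
      · exact h3
    exact ⟨⟨r, hr⟩, fun v hv => (adjB_iff h ⟨r, hr⟩ v).1 (h2 v hv).1,
      fun v hv => by rw [← degB_card h v]; exact (h2 v hv).2⟩
  · rintro ⟨r, h1, h2⟩
    refine ⟨r.1, List.mem_range.2 r.2, ?_⟩
    rw [List.all_eq_true]
    intro v hv
    rw [List.mem_range] at hv
    rw [Bool.or_eq_true, Bool.and_eq_true, decide_eq_true_iff, decide_eq_true_iff]
    by_cases hvr : v = r.1
    · exact Or.inl hvr
    · have hne : (⟨v, hv⟩ : Fin n) ≠ r := fun h => hvr (congrArg Fin.val h)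
      refine Or.inr ⟨(adjB_iff h r ⟨v, hv⟩).2 (h1 _ hne), ?_⟩
      have := degB_card h ⟨v, hv⟩
      rw [h2 _ hne] at this
      exact this

end Pool.Agent.Work.MP_0f7328_co.TV
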