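import Pool.Agent.Work.MP_0f7328_co.TV.Main
import Pool.Agent.Work.MP_0f7328_co.TV.AlgT
import Pool.Agent.Work.MP_0f7328_co.TV.AlgW
import Pool.Agent.Work.MP_0f7328_co.TV.AlgQ

/-!
Solidity is decided in polynomial time for bricks all of whose vertices lie in triangles.
-/

set_option autoImplicit false
set_option linter.unusedSectionVars false

namespace Pool.Agent.Work.MP_0f7328_co.TV

open Pool.Agent.Work.PolyTime

theorem algG_iff {n : ℕ} {E : List (ℕ × ℕ)} (h : Wf n E) (hG : (graph n E h).IsBrick)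
    (ht : ∀ v, InTri (graph n E h).simple v) : algG n E = true ↔ (graph n E h).Solid := by
  unfold algG
  rw [Bool.or_eq_true, Bool.and_eq_true, decide_eq_true_iff, decide_eq_true_iff, wheelB_iff h]
  constructor
  · rintro (⟨r, h1, h2⟩ | ⟨rfl, h8⟩)
    · exact (solid_iff _ hG).2 (wheel_not_twoOdd (bicrit_of_brick hG) (four_le hG) h1 h2)
    · exact solid_of_q8 hG ((bits8_iff h).1 h8).some
  · intro hs
    rcases (main hG ht).1 hs with ⟨k, hk, ⟨e⟩⟩ | ⟨⟨e⟩⟩
    · exact Or.inl (wheel_props hk e)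
    · have hn : n = 8 := by
        have := Fintype.card_congr e.toEquiv
        simpa using this
      subst hn
      exact Or.inr ⟨rfl, (bits8_iff h).2 ⟨e⟩⟩

theorem inP_triBricks : InPOn TriBricks SolidBricks := by
  refine ⟨fun w => [alg w], polyTimeComputable_of_PTime_word (PTime.cons ptime_alg (PTime.const _)),
    ?_⟩
  rintro w ⟨n, E, h, rfl, hB, ht⟩
  simp only [List.cons.injEq, and_true]
  rw [alg_encode, algG_iff h hB ht]
  constructor
  · rintro ⟨n', E', h', he, -, hS⟩
    obtain ⟨rfl, rfl⟩ := encode_inj he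
    exact hS
  · intro hS
    exact ⟨n, E, h, rfl, hB, hS⟩

end Pool.Agent.Work.MP_0f7328_co.TV
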