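import Pool.Agent.Work.MP_0f7328_co.TV.Defs

/-!
Hall's theorem in the form used everywhere.

Proof of `match_of_hall`. Apply Hall's theorem
(`Finset.all_card_le_biUnion_card_iff_exists_injective`) to the family indexed by the subtype
`{v // v ∈ P}` with sets `Q.filter (H.Adj v ·)` (classical decidability). For a set `S` of indices,
with image `S'` in `V`, the union of the sets is `nb H S' ∩ Q`, and `S.card = S'.card`. Extend the
resulting function on the subtype by the identity (or any value).
`rot_of_hall` is the case `P = Q = X`.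
-/

set_option autoImplicit false
set_option linter.unusedSectionVars false

namespace Pool.Agent.Work.MP_0f7328_co.TV

open Finset

variable {V : Type} [Fintype V] [DecidableEq V] {H : SimpleGraph V}

theorem match_of_hall {P Q : Finset V} (h : ∀ S ⊆ P, S.card ≤ (nb H S ∩ Q).card) :
    ∃ f : V → V, Set.InjOn f P ∧ ∀ v ∈ P, f v ∈ Q ∧ H.Adj v (f v) := by
  classical
  have key : ∀ s : Finset {v // v ∈ P},
      s.card ≤ (s.biUnion fun v => Q.filter (fun w => H.Adj v.1 w)).card := by
    intro s
    have h1 := h (s.map (Function.Embedding.subtype _)) (by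
      intro v hv
      rw [mem_map] at hv
      obtain ⟨a, -, rfl⟩ := hv
      exact a.2)
    rw [card_map] at h1
    refine h1.trans (card_le_card ?_)
    intro w hw
    rw [mem_inter, mem_nb] at hw
    obtain ⟨⟨v, hv, hvw⟩, hwQ⟩ := hw
    rw [mem_map] at hv
    obtain ⟨a, ha, rfl⟩ := hv
    rw [mem_biUnion]
    exact ⟨a, ha, mem_filter.2 ⟨hwQ, hvw⟩⟩
  obtain ⟨f, hf, hf'⟩ := (Finset.all_card_le_biUnion_card_iff_exists_injective _).1 key
  refine ⟨fun v => if hv : v ∈ P then f ⟨v, hv⟩ else v, ?_, ?_⟩
  · intro a ha b hb hab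
    rw [mem_coe] at ha hb
    simp only at hab
    rw [dif_pos ha, dif_pos hb] at hab
    exact congrArg Subtype.val (hf hab)
  · intro v hv
    simp only
    rw [dif_pos hv]
    have h1 := hf' ⟨v, hv⟩
    rw [mem_filter] at h1
    exact h1

theorem rot_of_hall {X : Finset V} (h : ∀ S ⊆ X, S.card ≤ (nb H S ∩ X).card) : Rot H X := by
  obtain ⟨f, hf, hf'⟩ := match_of_hall h
  exact ⟨f, hf, hf'⟩

end Pool.Agent.Work.MP_0f7328_co.TV
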