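import Pool.Agent.Work.MP_0f7328_co.TV.Side

/-!
The closure of `u` is contained in every closed stable set that contains `u`.

Proof. Let `v ∉ D`; we show `v ∉ cl u`, i.e. we find a big `I` that avoids the hubs, contains `u`
and not `v`. If `v = r` or `v = s`: any big `I` containing `u` and avoiding the hubs (`hh.mem u`,
where `u ≠ r, s` since `r, s ∉ D`) works. Otherwise take a big `I₀` that avoids the hubs and `v`
(`hh.non v`), and put `I = D ∪ (I₀ \ D.image m)`. It contains `u`, avoids `r, s` and `v` (`v ∉ D`,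
`v ∉ I₀`). It is stable: `D` is stable, `I₀` is stable, and an element `w` of `I₀` adjacent to an
element of `D` is not `r, s`, so `m w ∈ D` by `hD.clo` and `w = m (m w) ∈ D.image m`. Its
cardinality is that of `I₀`: by `side` (for `I₀`), for every `w ∈ D` exactly one of `w`, `m w` lies
in `I₀`; so the map that sends `w ∈ D` to itself if `w ∈ I₀` and to `m w` otherwise is a bijection
from `D` to `I₀ ∩ (D ∪ D.image m)` (injective because `D` and `D.image m` are disjoint: `m w ∈ D`
with `w ∈ D` contradicts stability), and `I = D ∪ (I₀ \ (D ∪ D.image m))` is a disjoint union. So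
`I` is big.
-/

set_option autoImplicit false
set_option linter.unusedSectionVars false

namespace Pool.Agent.Work.MP_0f7328_co.TV

open Finset

variable {V : Type} [Fintype V] [DecidableEq V] {H : SimpleGraph V}

theorem cl_min {r s : V} {m : V → V} (hh : Hub H r s) (hm : PM H r s m) {D : Finset V}
    (hD : Clo H r s m D) {u : V} (hu : u ∈ D) : cl H r s u ⊆ D := by
  intro v hv
  by_contra hvD
  have hur : u ≠ r := fun e => hD.nr (e ▸ hu)
  have hus : u ≠ s := fun e => hD.ns (e ▸ hu)
  by_cases hvr : v = r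
  · obtain ⟨I, hb, hr, hs, hI⟩ := hh.mem u hur hus
    exact hr (hvr ▸ mem_cl.1 hv I hb hr hs hI)
  by_cases hvs : v = s
  · obtain ⟨I, hb, hr, hs, hI⟩ := hh.mem u hur hus
    exact hs (hvs ▸ mem_cl.1 hv I hb hr hs hI)
  obtain ⟨J, hb, hr, hs, hvJ⟩ := hh.non v hvr hvs
  have him : ∀ v, v ∈ D.image m ↔ m v ∈ D := by
    intro v
    rw [mem_image]
    constructor
    · rintro ⟨w, hw, rfl⟩
      rw [hm.inv]
      exact hw
    · intro h
      exact ⟨m v, h, hm.inv v⟩
  have hdis : ∀ w ∈ D, w ∉ D.image m := by
    intro w hw h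
    rw [him] at h
    exact hD.st w hw (m w) h (hm.adj w)
  have hE : J ∩ D.image m = (D \ J).image m := by
    ext w
    rw [mem_inter, him, mem_image]
    constructor
    · rintro ⟨h1, h2⟩
      refine ⟨m w, mem_sdiff.2 ⟨h2, ?_⟩, hm.inv w⟩
      exact (side hh hm hb hr hs (fun e => hr (e ▸ h1)) (fun e => hs (e ▸ h1))).1 h1
    · rintro ⟨x, hx, rfl⟩
      obtain ⟨h1, h2⟩ := mem_sdiff.1 hx
      rw [hm.inv]
      refine ⟨?_, h1⟩
      by_contra h3
      exact h2 ((side hh hm hb hr hs (fun e => hD.nr (e ▸ h1)) (fun e => hD.ns (e ▸ h1))).2 h3)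
  have hEc : (J ∩ D.image m).card = (D \ J).card := by
    rw [hE]
    exact card_image_of_injective _ fun a b h => hm.inj h
  have hIeq : D ∪ J \ D.image m = D ∪ J \ (D ∪ D.image m) := by
    ext w
    simp only [mem_union, mem_sdiff]
    tauto
  have hst : Stable H (D ∪ J \ D.image m) := by
    intro a ha b hb' hab
    rcases mem_union.1 ha with h1 | h1 <;> rcases mem_union.1 hb' with h2 | h2
    · exact hD.st a h1 b h2 hab
    · obtain ⟨h3, h4⟩ := mem_sdiff.1 h2
      apply h4
      rw [him]
      exact hD.clo a h1 b (fun e => hr (e ▸ h3)) (fun e => hs (e ▸ h3)) hab.symm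
    · obtain ⟨h3, h4⟩ := mem_sdiff.1 h1
      apply h4
      rw [him]
      exact hD.clo b h2 a (fun e => hr (e ▸ h3)) (fun e => hs (e ▸ h3)) hab
    · exact hb.1 a (mem_sdiff.1 h1).1 b (mem_sdiff.1 h2).1 hab
  have hcard : (D ∪ J \ D.image m).card = J.card := by
    have h1 : (D ∪ J \ (D ∪ D.image m)).card = D.card + (J \ (D ∪ D.image m)).card := by
      apply card_union_of_disjoint
      rw [disjoint_left]
      intro w hw hw'
      exact (mem_sdiff.1 hw').2 (mem_union_left _ hw)
    have h2 : (J \ (D ∪ D.image m)).card + (J ∩ (D ∪ D.image m)).card = J.card :=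
      card_sdiff_add_card_inter _ _
    have h3 : (J ∩ (D ∪ D.image m)).card = (J ∩ D).card + (J ∩ D.image m).card := by
      rw [inter_union_distrib_left]
      apply card_union_of_disjoint
      rw [disjoint_left]
      intro w hw hw'
      exact hdis w (mem_inter.1 hw).2 (mem_inter.1 hw').2
    have h4 : (D \ J).card + (D ∩ J).card = D.card := card_sdiff_add_card_inter _ _
    have h5 : (J ∩ D).card = (D ∩ J).card := by rw [inter_comm]
    rw [hIeq]
    omega
  have hvI : v ∈ D ∪ J \ D.image m := by
    refine mem_cl.1 hv _ ⟨hst, ?_⟩ ?_ ?_ (mem_union_left _ hu)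
    · rw [hcard]
      exact hb.2
    · intro h
      rcases mem_union.1 h with h1 | h1
      · exact hD.nr h1
      · exact hr (mem_sdiff.1 h1).1
    · intro h
      rcases mem_union.1 h with h1 | h1
      · exact hD.ns h1
      · exact hs (mem_sdiff.1 h1).1
  rcases mem_union.1 hvI with h1 | h1
  · exact hvD h1
  · exact hvJ (mem_sdiff.1 h1).1

end Pool.Agent.Work.MP_0f7328_co.TV
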