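import Pool.Agent.Work.MP_0f7328_co.TV.ClA
import Pool.Agent.Work.MP_0f7328_co.TV.Min
import Pool.Agent.Work.MP_0f7328_co.TV.Surp
import Pool.Agent.Work.MP_0f7328_co.TV.Hall

/-!
An edge `a w` without hubs such that `a` is in the closure of `m w` lies in a perfect matching.

Proof. Let `C = cl (m w)`, a `Clo` set that contains `a` and `m w`; `C` and `C.image m` are disjoint
and avoid `r, s`; `w = m (m w) ∈ C.image m`. Claim: for every `S ⊆ C.erase a`,
`S.card ≤ (nb H S ∩ (C.image m).erase w).card`. Let `S` be nonempty. It is stable, so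
`S.card + 2 ≤ (nb H S).card` (`surplus`), and `nb H S ⊆ {r, s} ∪ C.image m` (by `Clo`), so
`S.card ≤ (nb H S ∩ C.image m).card`. If the claim fails then `w ∈ nb H S` and
`(nb H S ∩ C.image m).card = S.card`. As `S.image m ⊆ nb H S ∩ C.image m` has `S.card` elements,
`nb H S ∩ C.image m = S.image m`. Then `w ∈ S.image m`, `m w ∈ S`, and `S` is `Clo`: a vertex
`v ≠ r, s` adjacent to an element of `S` is in `nb H S` and in `C.image m`, so in `S.image m`, and
`m v ∈ S`. `cl_min` gives `C = cl (m w) ⊆ S`, but `a ∈ C`, `a ∉ S`. Contradiction.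
By `match_of_hall` there is an injective `ψ` from `C.erase a` to `(C.image m).erase w` along edges;
put `ψ a = w`: now `ψ` is a bijection from `C` to `C.image m` (equal cardinalities) along edges.
Let `m'` be `ψ` on `C`, the inverse of `ψ` on `C.image m`, and `m` elsewhere. It is an involution
along edges with `m' r = s` and `m' a = w`.
-/

set_option autoImplicit false
set_option linter.unusedSectionVars false

namespace Pool.Agent.Work.MP_0f7328_co.TV

open Finset

variable {V : Type} [Fintype V] [DecidableEq V] {H : SimpleGraph V}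

theorem allowed {r s : V} {m : V → V} (hh : Hub H r s) (hm : PM H r s m) {a w : V} (har : a ≠ r)
    (has : a ≠ s) (hwr : w ≠ r) (hws : w ≠ s) (haw : H.Adj a w) (hc : a ∈ cl H r s (m w)) :
    ∃ m', PM H r s m' ∧ m' a = w := by
  classical
  have hur : m w ≠ r := hm.ne_r hws
  have hus : m w ≠ s := hm.ne_s hwr
  have hC := cl_clo hh hm hur hus
  obtain ⟨C, hCdef⟩ : ∃ C, C = cl H r s (m w) := ⟨_, rfl⟩
  have huC : m w ∈ C := by rw [hCdef]; exact self_mem_cl r s (m w)
  have hmin : ∀ S : Finset V, Clo H r s m S → m w ∈ S → C ⊆ S := by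
    intro S hS h1
    rw [hCdef]
    exact cl_min hh hm hS h1
  rw [← hCdef] at hC hc
  have hinj : Function.Injective m := fun x y h => hm.inj h
  have hdis : ∀ v ∈ C, v ∉ C.image m := by
    intro v hv h1
    obtain ⟨x, hx, rfl⟩ := mem_image.1 h1
    exact hC.st x hx _ hv (hm.adj x)
  have hrD : r ∉ C.image m := by
    intro h1
    obtain ⟨x, hx, hxr⟩ := mem_image.1 h1
    have h2 : x = s := by rw [← hm.inv x, hxr, hm.hub]
    exact hC.ns (h2 ▸ hx)
  have hsD : s ∉ C.image m := by
    intro h1
    obtain ⟨x, hx, hxr⟩ := mem_image.1 h1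
    have h2 : x = r := by rw [← hm.inv x, hxr, hm.hub']
    exact hC.nr (h2 ▸ hx)
  have hwD : w ∈ C.image m := mem_image.2 ⟨m w, huC, hm.inv w⟩
  have hnb : ∀ S ⊆ C, ∀ v ∈ nb H S, v ≠ r → v ≠ s → v ∈ C.image m := by
    intro S hS v hv h1 h2
    obtain ⟨x, hx, hxv⟩ := mem_nb.1 hv
    exact mem_image.2 ⟨m v, hC.clo x (hS hx) v h1 h2 hxv.symm, hm.inv v⟩
  -- the Hall condition
  have hall : ∀ S ⊆ C.erase a, S.card ≤ (nb H S ∩ (C.image m).erase w).card := by
    intro S hS
    by_contra hcon
    rw [not_le] at hcon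
    have hSC : S ⊆ C := hS.trans (erase_subset _ _)
    have hne : S.Nonempty := by
      rw [nonempty_iff_ne_empty]
      rintro rfl
      rw [card_empty] at hcon
      exact Nat.not_lt_zero _ hcon
    have hst : Stable H S := hC.st.mono hSC
    have h1 := surplus hh.sb.bic hh.sb.four hst hne
    have h2 : nb H S ⊆ ({r, s} : Finset V) ∪ (nb H S ∩ C.image m) := by
      intro v hv
      by_cases hvr : v = r
      · rw [hvr]
        exact mem_union_left _ (mem_insert_self _ _)
      · by_cases hvs : v = s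
        · rw [hvs]
          exact mem_union_left _ (mem_insert_of_mem (mem_singleton_self _))
        · exact mem_union_right _ (mem_inter.2 ⟨hv, hnb S hSC v hv hvr hvs⟩)
    have h3 : (nb H S).card ≤ 2 + (nb H S ∩ C.image m).card :=
      (card_le_card h2).trans ((card_union_le _ _).trans (Nat.add_le_add_right card_le_two _))
    have h4 : S.card ≤ (nb H S ∩ C.image m).card := by omega
    have h5 : nb H S ∩ (C.image m).erase w = (nb H S ∩ C.image m).erase w := by
      ext v
      simp only [mem_inter, mem_erase]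
      tauto
    rw [h5] at hcon
    have hwm : w ∈ nb H S ∩ C.image m := by
      by_contra h6
      rw [erase_eq_of_notMem h6] at hcon
      omega
    have h6 := card_erase_add_one hwm
    have h7 : S.image m ⊆ nb H S ∩ C.image m := by
      intro v hv
      obtain ⟨x, hx, rfl⟩ := mem_image.1 hv
      exact mem_inter.2 ⟨mem_nb.2 ⟨x, hx, hm.adj x⟩, mem_image_of_mem m (hSC hx)⟩
    have h8 : (S.image m).card = S.card := card_image_of_injective S hinj
    have h9 : S.image m = nb H S ∩ C.image m := eq_of_subset_of_card_le h7 (by omega)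
    have hback : ∀ v ∈ nb H S ∩ C.image m, m v ∈ S := by
      intro v hv
      rw [← h9] at hv
      obtain ⟨x, hx, rfl⟩ := mem_image.1 hv
      rw [hm.inv]
      exact hx
    have hS' : Clo H r s m S := by
      refine ⟨hst, fun h => hC.nr (hSC h), fun h => hC.ns (hSC h), ?_⟩
      intro x hx v hvr hvs hvx
      have hv : v ∈ nb H S := mem_nb.2 ⟨x, hx, hvx.symm⟩
      exact hback v (mem_inter.2 ⟨hv, hnb S hSC v hv hvr hvs⟩)
    have h10 := hmin S hS' (hback w hwm) hc
    exact (mem_erase.1 (hS h10)).1 rfl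
  obtain ⟨f, hf, hf'⟩ := match_of_hall hall
  -- the bijection
  obtain ⟨ψ, hψ⟩ : ∃ ψ : V → V, ψ = fun v => if v = a then w else f v := ⟨_, rfl⟩
  have hψa : ψ a = w := by rw [hψ]; exact if_pos rfl
  have hψn : ∀ v, v ≠ a → ψ v = f v := by
    intro v hv
    rw [hψ]
    exact if_neg hv
  have hψm : ∀ v ∈ C, ψ v ∈ C.image m ∧ H.Adj v (ψ v) := by
    intro v hv
    by_cases hva : v = a
    · rw [hva, hψa]
      exact ⟨hwD, haw⟩
    · rw [hψn v hva]
      have h1 := hf' v (mem_erase.2 ⟨hva, hv⟩)
      exact ⟨(mem_erase.1 h1.1).2, h1.2⟩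
  have hψi : ∀ x ∈ C, ∀ y ∈ C, ψ x = ψ y → x = y := by
    intro x hx y hy hxy
    by_cases hxa : x = a <;> by_cases hya : y = a
    · rw [hxa, hya]
    · exfalso
      rw [hxa, hψa, hψn y hya] at hxy
      have h1 := hf' y (mem_erase.2 ⟨hya, hy⟩)
      exact (mem_erase.1 h1.1).1 hxy.symm
    · exfalso
      rw [hya, hψa, hψn x hxa] at hxy
      have h1 := hf' x (mem_erase.2 ⟨hxa, hx⟩)
      exact (mem_erase.1 h1.1).1 hxy
    · rw [hψn x hxa, hψn y hya] at hxy
      exact hf (mem_coe.2 (mem_erase.2 ⟨hxa, hx⟩)) (mem_coe.2 (mem_erase.2 ⟨hya, hy⟩)) hxy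
  have himg : C.image ψ = C.image m := by
    apply eq_of_subset_of_card_le
    · intro v hv
      obtain ⟨x, hx, rfl⟩ := mem_image.1 hv
      exact (hψm x hx).1
    · rw [card_image_of_injective C hinj,
        card_image_of_injOn (fun x hx y hy h => hψi x (mem_coe.1 hx) y (mem_coe.1 hy) h)]
  have hsurj : ∀ v, v ∈ C.image m → ∃ x, x ∈ C ∧ ψ x = v := by
    intro v hv
    rw [← himg] at hv
    exact mem_image.1 hv
  have hnon : Nonempty V := ⟨a⟩
  choose! g hg using hsurj
  refine ⟨fun v => if v ∈ C then ψ v else if v ∈ C.image m then g v else m v, ⟨?_, ?_, ?_⟩, ?_⟩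
  · intro v
    by_cases h1 : v ∈ C
    · have h2 := (hψm v h1).1
      have h3 : ψ v ∉ C := fun h => hdis _ h h2
      simp only [if_pos h1, if_neg h3, if_pos h2]
      exact hψi _ (hg _ h2).1 _ h1 (hg _ h2).2
    · by_cases h2 : v ∈ C.image m
      · have h3 := (hg v h2).1
        simp only [if_neg h1, if_pos h2, if_pos h3]
        exact (hg v h2).2
      · have h3 : m v ∉ C := fun h => h2 (mem_image.2 ⟨m v, h, hm.inv v⟩)
        have h4 : m v ∉ C.image m := by
          intro h
          obtain ⟨x, hx, hxv⟩ := mem_image.1 h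
          exact h1 (hinj hxv ▸ hx)
        simp only [if_neg h1, if_neg h2, if_neg h3, if_neg h4]
        exact hm.inv v
  · intro v
    by_cases h1 : v ∈ C
    · simp only [if_pos h1]
      exact (hψm v h1).2
    · by_cases h2 : v ∈ C.image m
      · simp only [if_neg h1, if_pos h2]
        have h3 := (hψm _ (hg v h2).1).2
        rw [(hg v h2).2] at h3
        exact h3.symm
      · simp only [if_neg h1, if_neg h2]
        exact hm.adj v
  · simp only [if_neg hC.nr, if_neg hrD]
    exact hm.hub
  · simp only [if_pos hc]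
    exact hψa

end Pool.Agent.Work.MP_0f7328_co.TV
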