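import Pool.Agent.Work.MP_0f7328_co.TV.Defs

/-!
The alternating path of two matchings `f` (missing only `v`) and `g` (missing only `w`) of `A`.

Proof. Define `e 0 = v`, `e (2 i + 1) = g (e (2 i))`, `e (2 i + 2) = f (e (2 i + 1))`. Call `n` good
if `e 0, ..., e n` are distinct elements of `A` and `e j ≠ w` for `j < n`. `0` is good. If `n` is
good and `e n ≠ w` then `n + 1` is good: suppose `n` is even, so `e (n + 1) = g (e n) ∈ A`. If
`e (n + 1) = e j` with `j ≤ n`: for `j` even, `e j ≠ w` and `e (j + 1) = g (e j) = g (g (e n)) = e n`;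
if `j = n` then `g (e n) = e n`, impossible; if `j < n` then `j + 1 ≤ n`, so `j + 1 = n`, impossible
by parity. For `j` odd, `e j = g (e (j - 1))` gives `e (j - 1) = g (e j) = g (g (e n)) = e n` with
`j - 1 < n`, impossible. Suppose `n` is odd, so `e (n + 1) = f (e n) ∈ A` (`e n ≠ v = e 0`). If
`e (n + 1) = e j` with `j ≤ n`: `j = 0` is impossible because `f (e n) ≠ v`; `j ≥ 2` even:
`e (j - 1) = f (e j) = e n`, impossible; `j` odd: `e (j + 1) = f (e j) = f (f (e n)) = e n`, so
`j + 1 ≤ n` is impossible by parity, and `j = n` gives `f (e n) = e n`, impossible.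
As `A` is finite, not all `n` are good, so there is a good `n` with `e n = w`. `n` is even, because
for odd `n`, `e n = g (e (n - 1)) ≠ w`; `n ≠ 0` because `v ≠ w`. Put `n = 2 k`. The set
`{e 0, ..., e (2 k)}` is closed under `f`, except that `f` is not considered at `v = e 0`: `f` exchanges
`e (2 i + 1)` and `e (2 i + 2)`. So if `x ∈ A` is not in it then `f x` is not in it: `f x = e i` with
`i ≥ 1` would give `x = f (f x) = f (e i)` in it, `i = 0` is impossible as `f x ≠ v`.
-/

set_option autoImplicit false
set_option linter.unusedSectionVars false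

namespace Pool.Agent.Work.MP_0f7328_co.TV

open Finset

variable {V : Type} [Fintype V] [DecidableEq V] {H : SimpleGraph V}

/-- The alternating sequence. -/
private def altSeq (f g : V → V) (v : V) : ℕ → V
  | 0 => v
  | n + 1 => if Even n then g (altSeq f g v n) else f (altSeq f g v n)

private theorem altSeq_even (f g : V → V) (v : V) {n : ℕ} (h : Even n) :
    altSeq f g v (n + 1) = g (altSeq f g v n) := by
  rw [altSeq, if_pos h]

private theorem altSeq_odd (f g : V → V) (v : V) {n : ℕ} (h : Odd n) :
    altSeq f g v (n + 1) = f (altSeq f g v n) := by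
  rw [altSeq, if_neg (Nat.not_even_iff_odd.2 h)]

theorem altp (A : Finset V) (f g : V → V) (v w : V) (hv : v ∈ A) (hw : w ∈ A) (hvw : v ≠ w)
    (hf : ∀ x ∈ A, x ≠ v → f x ∈ A ∧ f x ≠ v ∧ f (f x) = x ∧ f x ≠ x)
    (hg : ∀ x ∈ A, x ≠ w → g x ∈ A ∧ g x ≠ w ∧ g (g x) = x ∧ g x ≠ x) :
    ∃ (k : ℕ) (e : ℕ → V), 1 ≤ k ∧ e 0 = v ∧ e (2 * k) = w ∧ (∀ i ≤ 2 * k, e i ∈ A) ∧
      (∀ i ≤ 2 * k, ∀ j ≤ 2 * k, e i = e j → i = j) ∧
      (∀ i < k, g (e (2 * i)) = e (2 * i + 1) ∧ f (e (2 * i + 1)) = e (2 * i + 2)) ∧
      ∀ x ∈ A, (∀ i ≤ 2 * k, e i ≠ x) → ∀ i ≤ 2 * k, e i ≠ f x := by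
  set e : ℕ → V := altSeq f g v with he
  have e0 : e 0 = v := rfl
  have eE : ∀ n, Even n → e (n + 1) = g (e n) := fun n hn => altSeq_even f g v hn
  have eO : ∀ n, Odd n → e (n + 1) = f (e n) := fun n hn => altSeq_odd f g v hn
  -- the step
  have step : ∀ n, ((∀ i ≤ n, e i ∈ A) ∧ (∀ i ≤ n, ∀ j ≤ n, e i = e j → i = j) ∧
      ∀ j < n, e j ≠ w) → e n ≠ w → ((∀ i ≤ n + 1, e i ∈ A) ∧
      (∀ i ≤ n + 1, ∀ j ≤ n + 1, e i = e j → i = j) ∧ ∀ j < n + 1, e j ≠ w) := by
    rintro n ⟨h1, h2, h3⟩ hn
    have hne : ∀ j ≤ n, e j ≠ w := by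
      intro j hj
      rcases Nat.lt_or_ge j n with h | h
      · exact h3 j h
      · rw [Nat.le_antisymm hj h]
        exact hn
    have main : e (n + 1) ∈ A ∧ ∀ j ≤ n, e j ≠ e (n + 1) := by
      rcases Nat.even_or_odd n with hp | hp
      · rw [eE n hp]
        obtain ⟨a1, a2, a3, a4⟩ := hg (e n) (h1 n le_rfl) hn
        refine ⟨a1, fun j hj hej => ?_⟩
        rcases Nat.even_or_odd j with hq | hq
        · have hjn : j ≠ n := by
            rintro rfl
            exact a4 hej.symm
          have hlt : j < n := lt_of_le_of_ne hj hjn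
          have h4 : e (j + 1) = e n := by
            rw [eE j hq, hej, a3]
          have h5 := h2 (j + 1) hlt n le_rfl h4
          rw [← h5] at hp
          exact (Nat.not_even_iff_odd.2 (hq.add_one)) hp
        · obtain ⟨i, rfl⟩ : ∃ i, j = i + 1 := ⟨j - 1, by have := hq.pos; omega⟩
          have hi : Even i := by
            by_contra hi
            exact (Nat.not_even_iff_odd.2 hq) ((Nat.not_even_iff_odd.1 hi).add_one)
          obtain ⟨_, _, b3, _⟩ := hg (e i) (h1 i (by omega)) (hne i (by omega))
          have h4 : e i = e n := by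
            rw [← b3, ← eE i hi, hej, a3]
          have := h2 i (by omega) n le_rfl h4
          omega
      · rw [eO n hp]
        have hnv : e n ≠ v := by
          intro h
          have := h2 n le_rfl 0 (Nat.zero_le _) (h.trans e0.symm)
          rw [this] at hp
          exact absurd hp (by decide)
        obtain ⟨a1, a2, a3, a4⟩ := hf (e n) (h1 n le_rfl) hnv
        refine ⟨a1, fun j hj hej => ?_⟩
        rcases Nat.eq_zero_or_pos j with rfl | hj0
        · exact a2 (hej.symm.trans e0)
        rcases Nat.even_or_odd j with hq | hq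
        · obtain ⟨i, rfl⟩ : ∃ i, j = i + 1 := ⟨j - 1, by omega⟩
          have hi : Odd i := by
            by_contra hi
            exact (Nat.not_even_iff_odd.2 ((Nat.not_odd_iff_even.1 hi).add_one)) hq
          have hiv : e i ≠ v := by
            intro h
            have := h2 i (by omega) 0 (Nat.zero_le _) (h.trans e0.symm)
            rw [this] at hi
            exact absurd hi (by decide)
          obtain ⟨_, _, b3, _⟩ := hf (e i) (h1 i (by omega)) hiv
          have h4 : e i = e n := by
            rw [← b3, ← eO i hi, hej, a3]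
          have := h2 i (by omega) n le_rfl h4
          omega
        · have hjn : j ≠ n := by
            rintro rfl
            exact a4 hej.symm
          have hlt : j < n := lt_of_le_of_ne hj hjn
          have h4 : e (j + 1) = e n := by
            rw [eO j hq, hej, a3]
          have h5 := h2 (j + 1) hlt n le_rfl h4
          rw [← h5] at hp
          exact (Nat.not_even_iff_odd.2 hp) (hq.add_one)
    refine ⟨fun i hi => ?_, fun i hi j hj hij => ?_, fun j hj => hne j (by omega)⟩
    · rcases Nat.lt_or_ge i (n + 1) with h | h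
      · exact h1 i (by omega)
      · rw [Nat.le_antisymm hi h]
        exact main.1
    · rcases Nat.lt_or_ge i (n + 1) with h | h <;> rcases Nat.lt_or_ge j (n + 1) with h' | h'
      · exact h2 i (by omega) j (by omega) hij
      · have : j = n + 1 := Nat.le_antisymm hj h'
        subst this
        exact absurd hij (main.2 i (by omega))
      · have : i = n + 1 := Nat.le_antisymm hi h
        subst this
        exact absurd hij.symm (main.2 j (by omega))
      · omega
  have hex : ∃ n, ((∀ i ≤ n, e i ∈ A) ∧ (∀ i ≤ n, ∀ j ≤ n, e i = e j → i = j) ∧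
      ∀ j < n, e j ≠ w) ∧ e n = w := by
    by_contra hc
    push Not at hc
    have hall : ∀ n, ((∀ i ≤ n, e i ∈ A) ∧ (∀ i ≤ n, ∀ j ≤ n, e i = e j → i = j) ∧
        ∀ j < n, e j ≠ w) := by
      intro n
      induction n with
      | zero =>
        refine ⟨fun i hi => ?_, fun i hi j hj _ => by omega, fun j hj => by omega⟩
        have : i = 0 := by omega
        rw [this, e0]
        exact hv
      | succ n ih => exact step n ih (hc n ih)
    have hinj : Function.Injective e := fun i j hij =>
      (hall (max i j)).2.1 i (le_max_left _ _) j (le_max_right _ _) hij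
    exact not_injective_infinite_finite e hinj
  obtain ⟨n, ⟨h1, h2, h3⟩, hn⟩ := hex
  have hn0 : n ≠ 0 := by
    rintro rfl
    exact hvw (e0.symm.trans hn)
  have hev : Even n := by
    by_contra hodd
    rw [Nat.not_even_iff_odd] at hodd
    obtain ⟨i, rfl⟩ : ∃ i, n = i + 1 := ⟨n - 1, by omega⟩
    have hi : Even i := by
      by_contra hi
      exact (Nat.not_even_iff_odd.2 hodd) ((Nat.not_even_iff_odd.1 hi).add_one)
    have := hg (e i) (h1 i (by omega)) (h3 i (by omega))
    rw [eE i hi] at hn
    exact this.2.1 hn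
  obtain ⟨k, hk⟩ := hev
  have hk2 : n = 2 * k := by omega
  subst hk2
  refine ⟨k, e, by omega, e0, hn, h1, h2, fun i hi => ⟨?_, ?_⟩, ?_⟩
  · exact (eE (2 * i) (even_two_mul i)).symm
  · exact (eO (2 * i + 1) ⟨i, rfl⟩).symm
  · intro x hx hxe i hi hei
    have hxv : x ≠ v := fun h => hxe 0 (Nat.zero_le _) (e0.trans h.symm)
    obtain ⟨_, a2, a3, _⟩ := hf x hx hxv
    have hi0 : i ≠ 0 := by
      rintro rfl
      exact a2 (hei.symm.trans e0)
    rcases Nat.even_or_odd i with hp | hp
    · obtain ⟨j, rfl⟩ : ∃ j, i = j + 1 := ⟨i - 1, by omega⟩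
      have hj : Odd j := by
        by_contra hj
        exact (Nat.not_even_iff_odd.2 ((Nat.not_odd_iff_even.1 hj).add_one)) hp
      have hjv : e j ≠ v := by
        intro h
        have := h2 j (by omega) 0 (Nat.zero_le _) (h.trans e0.symm)
        rw [this] at hj
        exact absurd hj (by decide)
      obtain ⟨_, _, b3, _⟩ := hf (e j) (h1 j (by omega)) hjv
      refine hxe j (by omega) ?_
      rw [← b3, ← eO j hj, hei, a3]
    · have hlt : i < 2 * k := by
        rcases Nat.lt_or_ge i (2 * k) with h | h
        · exact h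
        · exfalso
          have : i = 2 * k := le_antisymm hi h
          rw [this] at hp
          exact (Nat.not_even_iff_odd.2 hp) (even_two_mul k)
      refine hxe (i + 1) hlt ?_
      rw [eO i hp, hei, a3]

end Pool.Agent.Work.MP_0f7328_co.TV
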