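import Pool.Agent.Work.MP_0f7328_co.TV.Glue

/-!
There are no two different matching edges that form triangles with different hubs.

Proof. Otherwise `X = {r, v, m v}` and `Y = {s, w, m w}` are triangles (`Rot.tri`, `card_tri`). They
are disjoint: `v ≠ s` (else `m v = r`, but `m v` is adjacent to `r`), `m v ≠ s` (else `v = r`),
`w, m w ≠ r` in the same way, `w ≠ v, m v` and `m w ≠ v, m v` (`m` is an involution). `u ∉ X ∪ Y`
implies `m u ∉ X ∪ Y`. Use `glue`.
-/

set_option autoImplicit false
set_option linter.unusedSectionVars false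

namespace Pool.Agent.Work.MP_0f7328_co.TV

open Finset

variable {V : Type} [Fintype V] [DecidableEq V] {H : SimpleGraph V}

theorem b1 {r s : V} {m : V → V} (hh : Hub H r s) (hm : PM H r s m) {v w : V} (h1 : H.Adj v r)
    (h2 : H.Adj (m v) r) (h3 : H.Adj w s) (h4 : H.Adj (m w) s) : w = v ∨ w = m v := by
  by_contra hcon
  rw [not_or] at hcon
  obtain ⟨c1, c2⟩ := hcon
  have e1 : v ≠ s := by
    rintro rfl
    rw [hm.hub'] at h2
    exact h2.ne rfl
  have e2 : v ≠ r := h1.ne
  have e3 : w ≠ r := by
    rintro rfl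
    rw [hm.hub] at h4
    exact h4.ne rfl
  have e4 : w ≠ s := h3.ne
  have e5 : m v ≠ s := hm.ne_s e2
  have e6 : m v ≠ r := hm.ne_r e1
  have e7 : m w ≠ s := hm.ne_s e3
  have e8 : m w ≠ r := hm.ne_r e4
  have e9 : r ≠ s := hh.adj.ne
  have e10 : m w ≠ v := by
    intro h
    apply c2
    rw [← h, hm.inv]
  have e11 : m w ≠ m v := fun h => c1 (hm.inj h)
  refine glue hh.sb hm (X := {r, v, m v}) (Y := {s, w, m w}) ?_ (Rot.tri h1.symm (hm.adj v) h2.symm)
    (Rot.tri h3.symm (hm.adj w) h4.symm) ?_ ?_
  · rw [card_tri h1.symm (hm.adj v) h2.symm]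
    decide
  · rw [disjoint_left]
    intro u hu hu'
    simp only [mem_insert, mem_singleton] at hu hu'
    rcases hu with rfl | rfl | rfl
    · rcases hu' with h | h | h
      · exact e9 h
      · exact e3 h.symm
      · exact e8 h.symm
    · rcases hu' with h | h | h
      · exact e1 h
      · exact c1 h.symm
      · exact e10 h.symm
    · rcases hu' with h | h | h
      · exact e5 h
      · exact c2 h.symm
      · exact e11 h.symm
  · intro u hu hu'
    simp only [mem_insert, mem_singleton, not_or] at hu hu' ⊢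
    refine ⟨⟨fun h => ?_, fun h => ?_, fun h => ?_⟩, fun h => ?_, fun h => ?_, fun h => ?_⟩
    · apply hu'.1
      rw [← hm.inv u, h, hm.hub]
    · apply hu.2.2
      rw [← hm.inv u, h]
    · exact hu.2.1 (hm.inj h)
    · apply hu.1
      rw [← hm.inv u, h, hm.hub']
    · apply hu'.2.2
      rw [← hm.inv u, h]
    · exact hu'.2.1 (hm.inj h)

end Pool.Agent.Work.MP_0f7328_co.TV
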