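import Pool.Agent.Work.MP_0f7328_co.TV.Defs

/-!
Two disjoint sets with rotations, one of them odd, whose union is closed under the perfect
matching `m` (for which `v` and `m v` lie both in the union or both outside).

Proof. The complement of `X ∪ Y` is closed under `m`, so it has a rotation (`PM.rot`), and `Xᶜ` is
the disjoint union of `Y` and this complement (`Rot.union`). So `Split H`.
-/

set_option autoImplicit false
set_option linter.unusedSectionVars false

namespace Pool.Agent.Work.MP_0f7328_co.TV

open Finset

variable {V : Type} [Fintype V] [DecidableEq V] {H : SimpleGraph V}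

theorem glue {r s : V} {m : V → V} (h : SB H) (hm : PM H r s m) {X Y : Finset V}
    (hX : Odd X.card) (rX : Rot H X) (rY : Rot H Y) (hd : Disjoint X Y)
    (hc : ∀ v, v ∉ X → v ∉ Y → m v ∉ X ∧ m v ∉ Y) : False := by
  have rZ : Rot H (X ∪ Y)ᶜ := by
    refine hm.rot fun v hv => ?_
    rw [mem_compl, mem_union, not_or] at hv ⊢
    exact hc v hv.1 hv.2
  have hd2 : Disjoint Y (X ∪ Y)ᶜ := by
    rw [disjoint_left]
    intro v hv hv2
    rw [mem_compl, mem_union, not_or] at hv2
    exact hv2.2 hv
  have hr := rY.union rZ hd2
  have he : Y ∪ (X ∪ Y)ᶜ = Xᶜ := by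
    ext v
    simp only [mem_union, mem_compl, not_or]
    constructor
    · rintro (hv | hv)
      · exact fun hx => disjoint_left.1 hd hx hv
      · exact hv.1
    · intro hv
      by_cases h1 : v ∈ Y
      · exact Or.inl h1
      · exact Or.inr ⟨hv, h1⟩
  rw [he] at hr
  exact h.nosplit ⟨X, hX, rX, hr⟩

end Pool.Agent.Work.MP_0f7328_co.TV
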