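import Pool.Agent.Work.MP_0f7328_co.TV.LemQ

/-!
A closed stable set `D` whose partners together with the hub `r` span an edge gives an odd set with
a rotation.

Proof. `Q = insert r (D.image m)`. First `D` and `D.image m` are disjoint (if `w, m w ∈ D` then
stability is violated), `r ∉ D`, `r ∉ D.image m` (`r = m w` gives `w = s ∈ D`); `m` is injective.
So `(insert r (D ∪ D.image m)).card = 2 * D.card + 1` and `Q.card = D.card + 1`.
By `lemQ` there are `φ`, avoiding `a`, and `ψ`, avoiding `b`: injective from `D` to `Q.erase a`,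
resp. `Q.erase b`. By cardinality (`a, b ∈ Q`) both are bijections onto these sets. Define
`g v = φ v` for `v ∈ D`, `g b = a`, and for `v ∈ Q`, `v ≠ b`, `g v` is the element `w` of `D` with
`ψ w = v`. Then `g` maps `D` onto `Q.erase a`, `b` to `a` and `Q.erase b` onto `D`, so it is an
injective map of `D ∪ Q = insert r (D ∪ D.image m)` to itself, and `v` is adjacent to `g v`.
-/

set_option autoImplicit false
set_option linter.unusedSectionVars false

namespace Pool.Agent.Work.MP_0f7328_co.TV

open Finset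

variable {V : Type} [Fintype V] [DecidableEq V] {H : SimpleGraph V}

theorem lemP {r s : V} {m : V → V} (h : SB H) (hm : PM H r s m) {D : Finset V}
    (hD : Clo H r s m D) {a b : V} (ha : a ∈ insert r (D.image m))
    (hb : b ∈ insert r (D.image m)) (hab : H.Adj a b) :
    Odd (insert r (D ∪ D.image m)).card ∧ Rot H (insert r (D ∪ D.image m)) := by
  classical
  have hdis : ∀ v ∈ D, v ∉ insert r (D.image m) := by
    intro v hv h1
    rcases mem_insert.1 h1 with h2 | h2
    · exact hD.nr (h2 ▸ hv)
    · obtain ⟨u, hu, huv⟩ := mem_image.1 h2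
      exact hD.st u hu v hv (huv ▸ hm.adj u)
  have hr : r ∉ D.image m := by
    intro h1
    obtain ⟨w, hw, hwr⟩ := mem_image.1 h1
    have h2 : w = s := by rw [← hm.hub, ← hwr, hm.inv]
    exact hD.ns (h2 ▸ hw)
  have hQ : (insert r (D.image m)).card = D.card + 1 := by
    rw [card_insert_of_notMem hr, card_image_of_injective _ (fun u v h => hm.inj h)]
  have hX : insert r (D ∪ D.image m) = D ∪ insert r (D.image m) := by
    ext v
    simp only [mem_insert, mem_union]
    tauto
  have hdj : Disjoint D (insert r (D.image m)) := disjoint_left.2 hdis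
  have hcard : (insert r (D ∪ D.image m)).card = 2 * D.card + 1 := by
    rw [hX, card_union_of_disjoint hdj, hQ]
    ring
  refine ⟨⟨D.card, hcard⟩, ?_⟩
  rw [hX]
  generalize hQd : insert r (D.image m) = Q at *
  obtain ⟨φ, hφ, hφ'⟩ := lemQ h hm hD a
  obtain ⟨ψ, hψ, hψ'⟩ := lemQ h hm hD b
  rw [hQd] at hφ' hψ'
  have him : D.image ψ = Q.erase b := by
    apply eq_of_subset_of_card_le
    · intro v hv
      obtain ⟨w, hw, rfl⟩ := mem_image.1 hv
      exact (hψ' w hw).1
    · rw [card_image_of_injOn hψ, card_erase_of_mem hb, hQ]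
      rfl
  have hex : ∀ v, ∃ w, v ∈ Q.erase b → w ∈ D ∧ ψ w = v := by
    intro v
    by_cases hv : v ∈ Q.erase b
    · rw [← him] at hv
      obtain ⟨w, hw, hwv⟩ := mem_image.1 hv
      exact ⟨w, fun _ => ⟨hw, hwv⟩⟩
    · exact ⟨v, fun h1 => absurd h1 hv⟩
  choose χ hχ using hex
  have hQe : ∀ v, v ∈ D ∪ Q → v ∉ D → v ≠ b → v ∈ Q.erase b := by
    intro v hv h1 h2
    exact mem_erase.2 ⟨h2, (mem_union.1 hv).resolve_left h1⟩
  have hba : b ∉ D := fun h1 => hdis b h1 hb
  refine ⟨fun v => if v ∈ D then φ v else if v = b then a else χ v, ?_, ?_⟩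
  · intro u hu v hv huv
    have hu' : u ∈ D ∪ Q := hu
    have hv' : v ∈ D ∪ Q := hv
    simp only at huv
    by_cases h1 : u ∈ D <;> by_cases h2 : v ∈ D
    · rw [if_pos h1, if_pos h2] at huv
      exact hφ h1 h2 huv
    · rw [if_pos h1, if_neg h2] at huv
      have h3 := mem_erase.1 (hφ' u h1).1
      by_cases h4 : v = b
      · rw [if_pos h4] at huv
        exact absurd huv h3.1
      · rw [if_neg h4] at huv
        exact absurd h3.2 (hdis _ (huv ▸ (hχ v (hQe v hv' h2 h4)).1))
    · rw [if_neg h1, if_pos h2] at huv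
      have h3 := mem_erase.1 (hφ' v h2).1
      by_cases h4 : u = b
      · rw [if_pos h4] at huv
        exact absurd huv.symm h3.1
      · rw [if_neg h4] at huv
        exact absurd h3.2 (hdis _ (huv ▸ (hχ u (hQe u hu' h1 h4)).1))
    · rw [if_neg h1, if_neg h2] at huv
      by_cases h3 : u = b <;> by_cases h4 : v = b
      · rw [h3, h4]
      · rw [if_pos h3, if_neg h4] at huv
        exact absurd ha (hdis _ (huv ▸ (hχ v (hQe v hv' h2 h4)).1))
      · rw [if_neg h3, if_pos h4] at huv
        exact absurd ha (hdis _ (huv ▸ (hχ u (hQe u hu' h1 h3)).1))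
      · rw [if_neg h3, if_neg h4] at huv
        rw [← (hχ u (hQe u hu' h1 h3)).2, ← (hχ v (hQe v hv' h2 h4)).2, huv]
  · intro v hv
    simp only
    by_cases h1 : v ∈ D
    · rw [if_pos h1]
      exact ⟨mem_union_right _ (mem_erase.1 (hφ' v h1).1).2, (hφ' v h1).2⟩
    · rw [if_neg h1]
      by_cases h2 : v = b
      · rw [if_pos h2, h2]
        exact ⟨mem_union_right _ ha, hab.symm⟩
      · rw [if_neg h2]
        have h3 := hχ v (hQe v hv h1 h2)
        refine ⟨mem_union_left _ h3.1, ?_⟩
        have h4 := (hψ' _ h3.1).2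
        rw [h3.2] at h4
        exact h4.symm

end Pool.Agent.Work.MP_0f7328_co.TV
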