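import Pool.Agent.Work.MP_0f7328_co.TV.ClA
import Pool.Agent.Work.MP_0f7328_co.TV.LemP
import Pool.Agent.Work.MP_0f7328_co.TV.Glue

/-!
If `y`, `m y` and the hub `r` form a triangle then every neighbour `a ≠ r` of the hub `s` lies in
the closure of `y` or of `m y`.

Proof. Suppose not. `a ≠ s`. Let `D = cl (m a)` (`m a ≠ r, s`), a `Clo` set. As in `b1`,
`y, m y ≠ r, s`. By `cl_dual`: `y ∈ cl (m a)` iff `a = m (m a) ∈ cl (m y)`, false; `m y ∈ cl (m a)`
iff `a ∈ cl (m (m y)) = cl y`, false. So `y, m y ∉ D`, hence also `y, m y ∉ D.image m`. `lemP` for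
the pair of hubs `(s, r)` (`hm.swap`, `Clo.swap`) with the edge `s a`, `a = m (m a) ∈ D.image m`:
`X = insert s (D ∪ D.image m)` is odd with a rotation. `Y = {r, y, m y}` is a triangle. They are
disjoint and `v ∉ X ∪ Y` implies `m v ∉ X ∪ Y`. This contradicts `glue`.
-/

set_option autoImplicit false
set_option linter.unusedSectionVars false

namespace Pool.Agent.Work.MP_0f7328_co.TV

open Finset

variable {V : Type} [Fintype V] [DecidableEq V] {H : SimpleGraph V}

theorem b2 {r s : V} {m : V → V} (hh : Hub H r s) (hm : PM H r s m) {y a : V} (h1 : H.Adj y r)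
    (h2 : H.Adj (m y) r) (ha : H.Adj a s) (har : a ≠ r) :
    a ∈ cl H r s y ∨ a ∈ cl H r s (m y) := by
  by_contra hcon
  rw [not_or] at hcon
  obtain ⟨na1, na2⟩ := hcon
  have has : a ≠ s := ha.ne
  have hmar : m a ≠ r := hm.ne_r has
  have hmas : m a ≠ s := hm.ne_s har
  have hyr : y ≠ r := h1.ne
  have hys : y ≠ s := by
    intro e
    rw [e, hm.hub'] at h2
    exact h2.ne rfl
  have hmyr : m y ≠ r := h2.ne
  have hmys : m y ≠ s := hm.ne_s hyr
  have hD := cl_clo hh hm hmar hmas
  have e1 : y ∉ cl H r s (m a) := by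
    intro h
    have h3 := (cl_dual hh hm hmar hmas hyr hys).1 h
    rw [hm.inv] at h3
    exact na2 h3
  have e2 : m y ∉ cl H r s (m a) := by
    intro h
    have h3 := (cl_dual hh hm hmar hmas hmyr hmys).1 h
    rw [hm.inv, hm.inv] at h3
    exact na1 h3
  have hma : m a ∈ cl H r s (m a) := self_mem_cl _ _ _
  generalize cl H r s (m a) = D at *
  have haD : a ∈ D.image m := mem_image.2 ⟨m a, hma, hm.inv a⟩
  obtain ⟨hodd, hrot⟩ := lemP hh.sb hm.swap hD.swap (mem_insert_of_mem haD)
    (mem_insert_self s (D.image m)) ha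
  have him : ∀ v, v ∈ D.image m ↔ m v ∈ D := by
    intro v
    rw [mem_image]
    constructor
    · rintro ⟨w, hw, rfl⟩
      rw [hm.inv]
      exact hw
    · intro h
      exact ⟨m v, h, hm.inv v⟩
  refine glue hh.sb hm hodd hrot (Rot.tri h1.symm (hm.adj y) h2.symm) ?_ ?_
  · rw [disjoint_left]
    intro v hv hv'
    simp only [mem_insert, mem_singleton, mem_union, him] at hv hv'
    rcases hv' with rfl | rfl | rfl
    · rcases hv with h | h | h
      · exact hh.adj.ne h
      · exact hD.nr h
      · rw [hm.hub] at h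
        exact hD.ns h
    · rcases hv with h | h | h
      · exact hys h
      · exact e1 h
      · exact e2 h
    · rcases hv with h | h | h
      · exact hmys h
      · exact e2 h
      · rw [hm.inv] at h
        exact e1 h
  · intro v hv hv'
    simp only [mem_insert, mem_singleton, mem_union, him, not_or, hm.inv] at hv hv' ⊢
    refine ⟨⟨?_, hv.2.2, hv.2.1⟩, ?_, ?_, ?_⟩
    · intro h
      exact hv'.1 (hm.inj (h.trans hm.hub.symm))
    · intro h
      exact hv.1 (hm.inj (h.trans hm.hub'.symm))
    · intro h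
      apply hv'.2.2
      rw [← h, hm.inv]
    · intro h
      exact hv'.2.1 (hm.inj h)

end Pool.Agent.Work.MP_0f7328_co.TV
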