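import Pool.Agent.Work.MP_0f7328_co.TV.Defs

/-!
Counting: there are no perfect matchings `m`, `m'` such that no edge of `m` forms a triangle with
`s` and no edge of `m'` forms a triangle with `r`.

Proof. Let `R = {r, s}ᶜ`, `A = {v ∈ R : v not adjacent to s}`, `A' = {v ∈ R : v not adjacent to r}`.
`m` maps `R` to `R` and, by `h1`, `R \ A` into `A`; so `|R| ≤ 2 |A|`. In the same way
`|R| ≤ 2 |A'|`. By `hB`, `A` and `A'` are disjoint; the common neighbour `x` of `r, s` (`hh.com`) is
in `R` and in neither. So `2 |R| ≤ 2 (|A| + |A'|) ≤ 2 (|R| - 1)`, and `|R| ≥ 1`, a contradiction.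
-/

set_option autoImplicit false
set_option linter.unusedSectionVars false

namespace Pool.Agent.Work.MP_0f7328_co.TV

open Finset

variable {V : Type} [Fintype V] [DecidableEq V] {H : SimpleGraph V}

theorem b3 {r s : V} {m m' : V → V} (hh : Hub H r s) (hm : PM H r s m) (hm' : PM H r s m')
    (hB : ∀ v, v ≠ r → v ≠ s → H.Adj v r ∨ H.Adj v s)
    (h1 : ∀ v, ¬ (H.Adj v s ∧ H.Adj (m v) s)) (h2 : ∀ v, ¬ (H.Adj v r ∧ H.Adj (m' v) r)) :
    False := by
  classical
  set R : Finset V := ({r, s} : Finset V)ᶜ with hR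
  have memR : ∀ v, v ∈ R ↔ v ≠ r ∧ v ≠ s := by
    intro v
    simp [hR]
  have key : ∀ (p : V) (q : V → V), (p = r ∨ p = s) → PM H r s q →
      (∀ v, ¬ (H.Adj v p ∧ H.Adj (q v) p)) → R.card ≤ 2 * (R.filter fun v => ¬ H.Adj v p).card := by
    intro p q _ hq hv
    have e : (R.filter fun v => H.Adj v p).card + (R.filter fun v => ¬ H.Adj v p).card = R.card :=
      Finset.card_filter_add_card_filter_not _
    have h3 : (R.filter fun v => H.Adj v p).card ≤ (R.filter fun v => ¬ H.Adj v p).card := by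
      refine Finset.card_le_card_of_injOn q ?_ fun a _ b _ hab => hq.inj hab
      intro v hv'
      rw [Finset.mem_coe, Finset.mem_filter] at hv' ⊢
      have h4 := (memR v).1 hv'.1
      exact ⟨(memR _).2 ⟨hq.ne_r h4.2, hq.ne_s h4.1⟩, fun h5 => hv v ⟨hv'.2, h5⟩⟩
    omega
  have k1 := key s m (Or.inr rfl) hm h1
  have k2 := key r m' (Or.inl rfl) hm' h2
  obtain ⟨x, hx1, hx2⟩ := hh.com
  have hxR : x ∈ R := (memR x).2 ⟨hx1.ne', hx2.ne'⟩
  have hdis : Disjoint (R.filter fun v => ¬ H.Adj v s) (R.filter fun v => ¬ H.Adj v r) := by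
    rw [Finset.disjoint_left]
    intro v hv hv'
    rw [Finset.mem_filter] at hv hv'
    have h4 := (memR v).1 hv.1
    rcases hB v h4.1 h4.2 with h5 | h5
    · exact hv'.2 h5
    · exact hv.2 h5
  have hsub : (R.filter fun v => ¬ H.Adj v s) ∪ (R.filter fun v => ¬ H.Adj v r) ⊆ R.erase x := by
    intro v hv
    rw [Finset.mem_union, Finset.mem_filter, Finset.mem_filter] at hv
    rw [Finset.mem_erase]
    constructor
    · rintro rfl
      rcases hv with hv | hv
      · exact hv.2 hx2.symm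
      · exact hv.2 hx1.symm
    · rcases hv with hv | hv
      · exact hv.1
      · exact hv.1
  have k3 := Finset.card_le_card hsub
  rw [Finset.card_union_of_disjoint hdis, Finset.card_erase_of_mem hxR] at k3
  have k4 : 0 < R.card := Finset.card_pos.2 ⟨x, hxR⟩
  omega

end Pool.Agent.Work.MP_0f7328_co.TV
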