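import Pool.Agent.Work.MP_0f7328_co.TV.B1
import Pool.Agent.Work.MP_0f7328_co.TV.B2
import Pool.Agent.Work.MP_0f7328_co.TV.B3
import Pool.Agent.Work.MP_0f7328_co.TV.Allow

/-!
No perfect matching has both an edge forming a triangle with `r` and one forming a triangle with
`s`, if there is no triangle without hubs and there are at least six vertices.

Proof. First `hB`: every `v ≠ r, s` is adjacent to a hub (its triangle contains a hub by `hT`).
By `b1`, `z = y` or `z = m y`; so `y` and `m y` are adjacent to `r` and to `s`; `y, m y ≠ r, s`.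
(1) Every `a ≠ r, s` is in `cl y ∪ cl (m y)`: `b2` if `a` is adjacent to `s`, `b2` for the hubs
exchanged (`hh.swap`, `hm.swap`, `cl_swap`) if `a` is adjacent to `r`.
(2) If `v ∈ cl y` then `m v ∉ cl y` (`cl_not_both`), so `m v ∈ cl (m y)` by (1), and by `cl_dual`
`y ∈ cl v`. In the same way `v ∈ cl (m y)` implies `m v ∈ cl y` and `m y ∈ cl v`.
(3) If `v, w ≠ r, s` are adjacent then `v ∈ cl (m w)`: say `v ∈ cl y` (the other case is the same
with `m y`). `cl y` is stable, so `w ∉ cl y`, `w ∈ cl (m y)`, `m w ∈ cl y` and, by (2) for `m w`,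
`y ∈ cl (m w)`; so `v ∈ cl y ⊆ cl (m w)` by `cl_trans`. By `allowed` there is a perfect matching
`m'` with `m' v = w`.
(4) There is `v ≠ r, s` not adjacent to `s`: take `t ∉ {r, s, y, m y}` (six vertices); if `t` and
`m t` were both adjacent to `s` then `b1` would give `t = y` or `t = m y`. The triangle of `v` is
`v r w` with `w ≠ s`, `w ≠ r` (it contains a hub, not `s`). So `v, w` are adjacent to `r`, and (3)
gives `m'` with `m' v = w`. No edge of `m'` forms a triangle with `s`: if `t`, `m' t` are adjacent to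
`s` then `b1` (for `m'`) gives `t = v` or `t = m' v = w`, so `v ∈ {t, m' t}` is adjacent to `s`.
(5) In the same way (hubs exchanged) there is `m''` no edge of which forms a triangle with `r`. Now
`b3` gives a contradiction.
-/

set_option autoImplicit false
set_option linter.unusedSectionVars false

namespace Pool.Agent.Work.MP_0f7328_co.TV

open Finset

variable {V : Type} [Fintype V] [DecidableEq V] {H : SimpleGraph V}

/-- every vertex is adjacent to a hub -/
private theorem b4_hub {r s : V} (hh : Hub H r s)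
    (hT : ∀ a b c, a ≠ r → a ≠ s → b ≠ r → b ≠ s → c ≠ r → c ≠ s → H.Adj a b → H.Adj b c →
      H.Adj a c → False) (v : V) (hr : v ≠ r) (hs : v ≠ s) : H.Adj v r ∨ H.Adj v s := by
  obtain ⟨a, b, ha, hb, hab⟩ := hh.tri v
  by_contra hcon
  push Not at hcon
  have e1 : a ≠ r := fun e => hcon.1 (e ▸ ha)
  have e2 : a ≠ s := fun e => hcon.2 (e ▸ ha)
  have e3 : b ≠ r := fun e => hcon.1 (e ▸ hb)
  have e4 : b ≠ s := fun e => hcon.2 (e ▸ hb)
  exact hT v a b hr hs e1 e2 e3 e4 ha hab hb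

/-- steps (1) to (4) -/
private theorem b4_half {r s : V} {m : V → V} (hh : Hub H r s) (hm : PM H r s m)
    (h6 : 6 ≤ Fintype.card V)
    (hT : ∀ a b c, a ≠ r → a ≠ s → b ≠ r → b ≠ s → c ≠ r → c ≠ s → H.Adj a b → H.Adj b c →
      H.Adj a c → False)
    {y : V} (h1 : H.Adj y r) (h2 : H.Adj (m y) r) (h3 : H.Adj y s) (h4 : H.Adj (m y) s) :
    ∃ m', PM H r s m' ∧ ∀ t, ¬ (H.Adj t s ∧ H.Adj (m' t) s) := by
  have hB := b4_hub hh hT
  have yr : y ≠ r := h1.ne
  have ys : y ≠ s := h3.ne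
  have myr : m y ≠ r := h2.ne
  have mys : m y ≠ s := h4.ne
  -- step (1)
  have c1 : ∀ a, a ≠ r → a ≠ s → a ∈ cl H r s y ∨ a ∈ cl H r s (m y) := by
    intro a ar as
    rcases hB a ar as with h | h
    · have := b2 hh.swap hm.swap h3 h4 h as
      rwa [cl_swap r s y, cl_swap r s (m y)] at this
    · exact b2 hh hm h1 h2 h ar
  -- step (2)
  have c2 : ∀ y' : V, y' ≠ r → y' ≠ s →
      (∀ a, a ≠ r → a ≠ s → a ∈ cl H r s y' ∨ a ∈ cl H r s (m y')) →
      ∀ v ∈ cl H r s y', m v ∈ cl H r s (m y') ∧ y' ∈ cl H r s v := by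
    intro y' yr' ys' hy' v hv
    have vr : v ≠ r := fun e => cl_nr hh yr' ys' (e ▸ hv)
    have vs : v ≠ s := fun e => cl_ns hh yr' ys' (e ▸ hv)
    have h5 : m v ∉ cl H r s y' := cl_not_both hh hm yr' ys' hv
    have h6 : m v ∈ cl H r s (m y') := (hy' (m v) (hm.ne_r vs) (hm.ne_s vr)).resolve_left h5
    exact ⟨h6, (cl_dual hh hm vr vs yr' ys').2 h6⟩
  have c1' : ∀ a, a ≠ r → a ≠ s → a ∈ cl H r s (m y) ∨ a ∈ cl H r s (m (m y)) := by
    intro a ar as
    rw [hm.inv]
    exact (c1 a ar as).symm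
  -- step (3)
  have c3 : ∀ y' : V, y' ≠ r → y' ≠ s → m y' ≠ r → m y' ≠ s →
      (∀ a, a ≠ r → a ≠ s → a ∈ cl H r s y' ∨ a ∈ cl H r s (m y')) →
      ∀ v w, w ≠ r → w ≠ s → H.Adj v w → v ∈ cl H r s y' → v ∈ cl H r s (m w) := by
    intro y' yr' ys' myr' mys' hy' v w wr ws hvw hv
    have h5 : w ∉ cl H r s y' := fun h => cl_stable hh yr' ys' v hv w h hvw
    have h6 : w ∈ cl H r s (m y') := (hy' w wr ws).resolve_left h5
    have hy'' : ∀ a, a ≠ r → a ≠ s → a ∈ cl H r s (m y') ∨ a ∈ cl H r s (m (m y')) := by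
      intro a ar as
      rw [hm.inv]
      exact (hy' a ar as).symm
    have h7 := (c2 (m y') myr' mys' hy'' w h6).1
    rw [hm.inv] at h7
    have h8 := (c2 y' yr' ys' hy' (m w) h7).2
    exact cl_trans h8 hv
  have c4 : ∀ v w, v ≠ r → v ≠ s → w ≠ r → w ≠ s → H.Adj v w →
      ∃ m', PM H r s m' ∧ m' v = w := by
    intro v w vr vs wr ws hvw
    refine allowed hh hm vr vs wr ws hvw ?_
    rcases c1 v vr vs with h | h
    · exact c3 y yr ys myr mys c1 v w wr ws hvw h
    · refine c3 (m y) myr mys ?_ ?_ c1' v w wr ws hvw h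
      · rw [hm.inv]
        exact yr
      · rw [hm.inv]
        exact ys
  -- step (4)
  obtain ⟨v, vr, vs, hv⟩ : ∃ v, v ≠ r ∧ v ≠ s ∧ ¬ H.Adj v s := by
    obtain ⟨t, ht⟩ : ∃ t, t ∉ ({r, s, y, m y} : Finset V) := by
      by_contra hcon
      push Not at hcon
      have h5 : (univ : Finset V) ⊆ {r, s, y, m y} := fun t _ => hcon t
      have h7 := card_le_card h5
      have h8 : ({r, s, y, m y} : Finset V).card ≤ 4 := card_le_four
      rw [card_univ] at h7
      omega
    simp only [mem_insert, mem_singleton, not_or] at ht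
    obtain ⟨tr, ts, ty, tmy⟩ := ht
    by_cases h5 : H.Adj t s
    · by_cases h7 : H.Adj (m t) s
      · rcases b1 hh hm h1 h2 h5 h7 with h | h
        · exact absurd h ty
        · exact absurd h tmy
      · exact ⟨m t, hm.ne_r ts, hm.ne_s tr, h7⟩
    · exact ⟨t, tr, ts, h5⟩
  obtain ⟨w, wr, ws, hvw, hvr, hwr⟩ : ∃ w, w ≠ r ∧ w ≠ s ∧ H.Adj v w ∧ H.Adj v r ∧
      H.Adj w r := by
    obtain ⟨a, b, ha, hb, hab⟩ := hh.tri v
    have as : a ≠ s := fun e => hv (e ▸ ha)
    have bs : b ≠ s := fun e => hv (e ▸ hb)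
    by_cases ar : a = r
    · rw [ar] at ha hab
      exact ⟨b, hab.ne', bs, hb, ha, hab.symm⟩
    · by_cases br : b = r
      · rw [br] at hb hab
        exact ⟨a, ar, as, ha, hb, hab⟩
      · exact (hT v a b vr vs ar as br bs ha hab hb).elim
  obtain ⟨m', hm', hmv⟩ := c4 v w vr vs wr ws hvw
  refine ⟨m', hm', fun t ht => ?_⟩
  have hmr : H.Adj (m' v) r := by
    rw [hmv]
    exact hwr
  rcases b1 hh hm' hvr hmr ht.1 ht.2 with h | h
  · exact hv (h ▸ ht.1)
  · apply hv
    have h5 := ht.2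
    rw [h, hm'.inv] at h5
    exact h5

theorem b4 {r s : V} {m : V → V} (hh : Hub H r s) (hm : PM H r s m) (h6 : 6 ≤ Fintype.card V)
    (hT : ∀ a b c, a ≠ r → a ≠ s → b ≠ r → b ≠ s → c ≠ r → c ≠ s → H.Adj a b → H.Adj b c →
      H.Adj a c → False)
    {y z : V} (h1 : H.Adj y r) (h2 : H.Adj (m y) r) (h3 : H.Adj z s) (h4 : H.Adj (m z) s) :
    False := by
  have h5 : H.Adj y s ∧ H.Adj (m y) s := by
    rcases b1 hh hm h1 h2 h3 h4 with h | h
    · rw [h] at h3 h4
      exact ⟨h3, h4⟩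
    · rw [h] at h3 h4
      rw [hm.inv] at h4
      exact ⟨h4, h3⟩
  obtain ⟨m₁, hm₁, k1⟩ := b4_half hh hm h6 hT h1 h2 h5.1 h5.2
  obtain ⟨m₂, hm₂, k2⟩ := b4_half hh.swap hm.swap h6
    (fun a b c ar as br bs cr cs => hT a b c as ar bs br cs cr) h5.1 h5.2 h1 h2
  exact b3 hh hm₁ hm₂.swap (b4_hub hh hT) k1 k2

end Pool.Agent.Work.MP_0f7328_co.TV
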