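import Pool.Agent.Work.MP_0f7328_co.TV.B4
import Pool.Agent.Work.MP_0f7328_co.TV.Conn
import Pool.Agent.Work.MP_0f7328_co.TV.Surp

/-!
If there is no triangle without hubs then one of the hubs is adjacent to all other vertices.

Proof. `Fintype.card V` is even and at least 4. If it is 4, `deg_three` shows that `r` is adjacent
to all other vertices (`nb H {r} ⊆ {r}ᶜ` has three elements). So let it be at least 6. As in `b4`,
every `v ≠ r, s` is adjacent to a hub.
By `b3`, either every perfect matching (in the sense of `PM H r s`) has an edge forming a triangle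
with `r`, or every one has an edge forming a triangle with `s`. By symmetry (`hh.swap`, `PM.swap`,
write a private lemma for the first case) assume the first. By `b4` no perfect matching has an edge
forming a triangle with `s` (*). Claim: `r` is adjacent to every vertex. Suppose `a ≠ r` is not
adjacent to `r`. `a ≠ s`, and `a` is adjacent to `s`. Take `m` from `exists_PM` and the common
neighbour `x` of `r, s` (`hh.com`). `m x ≠ r, s`, and `m x` is not adjacent to `s` by (*), so it is
adjacent to `r`. The triangle of `a` is `a s w` with `w ≠ r`, `w ≠ s`. By `b2` (with `y = x`), `a`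
and `w` are in `cl x ∪ cl (m x)`; they are adjacent and closures are stable, so they are in
different ones. If `a ∈ cl x`, `w ∈ cl (m x)`: `cl_dual` gives `x = m (m x) ∈ cl (m w)`, so
`a ∈ cl x ⊆ cl (m w)`. If `a ∈ cl (m x)`, `w ∈ cl x`: `cl_dual` gives `m x ∈ cl (m w)`, so again
`a ∈ cl (m w)`. `allowed` gives a perfect matching `m'` with `m' a = w`: `a` and `w` are adjacent to
`s`, contradicting (*).
-/

set_option autoImplicit false
set_option linter.unusedSectionVars false

namespace Pool.Agent.Work.MP_0f7328_co.TV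

open Finset

variable {V : Type} [Fintype V] [DecidableEq V] {H : SimpleGraph V}

private theorem b5_hub {r s : V} (hh : Hub H r s)
    (hT : ∀ a b c, a ≠ r → a ≠ s → b ≠ r → b ≠ s → c ≠ r → c ≠ s → H.Adj a b → H.Adj b c →
      H.Adj a c → False) :
    ∀ v, v ≠ r → v ≠ s → H.Adj v r ∨ H.Adj v s := by
  intro v h1 h2
  obtain ⟨a, b, ha, hb, hab⟩ := hh.tri v
  by_cases har : a = r
  · subst har
    exact Or.inl ha
  by_cases has : a = s
  · subst has
    exact Or.inr ha
  by_cases hbr : b = r
  · subst hbr
    exact Or.inl hb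
  by_cases hbs : b = s
  · subst hbs
    exact Or.inr hb
  exact (hT v a b h1 h2 har has hbr hbs ha hab hb).elim

private theorem b5_main {r s : V} (hh : Hub H r s) (h6 : 6 ≤ Fintype.card V)
    (hT : ∀ a b c, a ≠ r → a ≠ s → b ≠ r → b ≠ s → c ≠ r → c ≠ s → H.Adj a b → H.Adj b c →
      H.Adj a c → False)
    (hP : ∀ m, PM H r s m → ∃ v, H.Adj v r ∧ H.Adj (m v) r) :
    ∀ v, v ≠ r → H.Adj r v := by
  have hB := b5_hub hh hT
  have star : ∀ m, PM H r s m → ∀ z, H.Adj z s → ¬ H.Adj (m z) s := by
    intro m hm z h1 h2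
    obtain ⟨y, hy1, hy2⟩ := hP m hm
    exact b4 hh hm h6 hT hy1 hy2 h1 h2
  intro a har
  by_contra hra
  have has : a ≠ s := by
    rintro rfl
    exact hra hh.adj
  have hrs : r ≠ s := hh.adj.ne
  have hnar : ¬ H.Adj a r := fun h => hra h.symm
  have haS : H.Adj a s := (hB a har has).resolve_left hnar
  obtain ⟨m, hm⟩ := exists_PM hh
  obtain ⟨x, hx1, hx2⟩ := hh.com
  have hxr : x ≠ r := hx1.ne'
  have hxs : x ≠ s := hx2.ne'
  have hmxr : m x ≠ r := hm.ne_r hxs
  have hmxs : m x ≠ s := hm.ne_s hxr
  have hmx : H.Adj (m x) r :=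
    (hB (m x) hmxr hmxs).resolve_right (star m hm x hx2.symm)
  -- the triangle of `a`
  obtain ⟨w, hwr, hws, haw, hwS⟩ : ∃ w, w ≠ r ∧ w ≠ s ∧ H.Adj a w ∧ H.Adj w s := by
    obtain ⟨p, q, hp, hq, hpq⟩ := hh.tri a
    have hpr : p ≠ r := by
      rintro rfl
      exact hnar hp
    have hqr : q ≠ r := by
      rintro rfl
      exact hnar hq
    by_cases hps : p = s
    · subst hps
      exact ⟨q, hqr, hpq.ne', hq, hpq.symm⟩
    by_cases hqs : q = s
    · subst hqs
      exact ⟨p, hpr, hps, hp, hpq⟩
    exact (hT a p q har has hpr hps hqr hqs hp hpq hq).elim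
  have ha2 := b2 hh hm hx1.symm hmx haS har
  have hw2 := b2 hh hm hx1.symm hmx hwS hwr
  have hcl : a ∈ cl H r s (m w) := by
    rcases ha2 with h | h
    · have hw3 : w ∈ cl H r s (m x) := by
        rcases hw2 with h' | h'
        · exact absurd haw (cl_stable hh hxr hxs a h w h')
        · exact h'
      have h4 := (cl_dual hh hm hmxr hmxs hwr hws).1 hw3
      rw [hm.inv] at h4
      exact cl_trans h4 h
    · have hw3 : w ∈ cl H r s x := by
        rcases hw2 with h' | h'
        · exact h'
        · exact absurd haw (cl_stable hh hmxr hmxs a h w h')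
      have h4 := (cl_dual hh hm hxr hxs hwr hws).1 hw3
      exact cl_trans h4 h
  obtain ⟨m', hm', hmaw⟩ := allowed hh hm har has hwr hws haw hcl
  refine star m' hm' a haS ?_
  rw [hmaw]
  exact hwS

theorem b5 {r s : V} (hh : Hub H r s)
    (hT : ∀ a b c, a ≠ r → a ≠ s → b ≠ r → b ≠ s → c ≠ r → c ≠ s → H.Adj a b → H.Adj b c →
      H.Adj a c → False) :
    (∀ v, v ≠ r → H.Adj r v) ∨ ∀ v, v ≠ s → H.Adj s v := by
  have h4 := hh.sb.four
  have hev := even_card hh.sb.bic h4
  by_cases hc : Fintype.card V = 4
  · left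
    have h3 := deg_three hh.sb.bic h4 r
    have hsub : nb H ({r} : Finset V) ⊆ univ.erase r := by
      intro v hv
      rw [mem_nb] at hv
      obtain ⟨u, hu, huv⟩ := hv
      rw [mem_singleton] at hu
      subst hu
      rw [mem_erase]
      exact ⟨huv.ne', mem_univ _⟩
    have hcard : (univ.erase r : Finset V).card = 3 := by
      rw [card_erase_of_mem (mem_univ _), card_univ, hc]
    have heq := eq_of_subset_of_card_le hsub (by rw [hcard]; exact h3)
    intro v hv
    have : v ∈ nb H ({r} : Finset V) := by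
      rw [heq, mem_erase]
      exact ⟨hv, mem_univ _⟩
    rw [mem_nb] at this
    obtain ⟨u, hu, huv⟩ := this
    rw [mem_singleton] at hu
    rwa [hu] at huv
  · have h6 : 6 ≤ Fintype.card V := by
      obtain ⟨k, hk⟩ := hev
      omega
    have hB := b5_hub hh hT
    by_cases hP : ∀ m, PM H r s m → ∃ v, H.Adj v r ∧ H.Adj (m v) r
    · exact Or.inl (b5_main hh h6 hT hP)
    · right
      push Not at hP
      obtain ⟨m', hm', hmr⟩ := hP
      refine b5_main hh.swap h6 ?_ ?_
      · intro a b c h1 h2 h3 h4 h5 h6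
        exact hT a b c h2 h1 h4 h3 h6 h5
      · intro m hm
        by_contra hc'
        push Not at hc'
        exact b3 hh hm.swap hm' hB (fun v hv => hc' v hv.1 hv.2) (fun v hv => hmr v hv.1 hv.2)

end Pool.Agent.Work.MP_0f7328_co.TV
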