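import Pool.Agent.Work.MP_0f7328_co.TV.Surp

/-!
The neighbourhood of a big stable set is its complement.

Proof. `I` is nonempty because `2 * I.card + 2 = Fintype.card V ≥ 4`. By `surplus` and disjointness
`nb H I ⊆ Iᶜ`, `I.card + 2 ≤ (nb H I).card ≤ (Iᶜ).card = I.card + 2`.
-/

set_option autoImplicit false
set_option linter.unusedSectionVars false

namespace Pool.Agent.Work.MP_0f7328_co.TV

open Finset

variable {V : Type} [Fintype V] [DecidableEq V] {H : SimpleGraph V}

private theorem big_ne (h : SB H) {I : Finset V} (hI : Big H I) : I.Nonempty := by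
  rw [← card_pos]
  have h1 := h.four
  have h2 := hI.2
  omega

private theorem big_sub {I : Finset V} (hI : Big H I) : nb H I ⊆ Iᶜ := by
  intro v hv
  rw [mem_compl]
  exact fun hv' => hI.1.notMem_nb hv' hv

theorem big_nb (h : SB H) {I : Finset V} (hI : Big H I) : nb H I = Iᶜ := by
  refine eq_of_subset_of_card_le (big_sub hI) ?_
  have h1 := surplus h.bic h.four hI.1 (big_ne h hI)
  have h2 := hI.2
  rw [card_compl]
  omega

theorem big_card (h : SB H) {I : Finset V} (hI : Big H I) :
    (nb H I).card = I.card + 2 ∧ I.Nonempty := by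
  refine ⟨?_, big_ne h hI⟩
  have h2 := hI.2
  rw [big_nb h hI, card_compl]
  omega

end Pool.Agent.Work.MP_0f7328_co.TV
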