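import Pool.Agent.Work.MP_0f7328_co.TV.ThmB

/-!
A big stable set that avoids the hubs avoids at most one common neighbour of them.

Proof. Otherwise `r x s y` is a 4-cycle outside of `I` (`r ≠ s`, `x ≠ y`), contradicting `thmB`.
-/

set_option autoImplicit false
set_option linter.unusedSectionVars false

namespace Pool.Agent.Work.MP_0f7328_co.TV

open Finset

variable {V : Type} [Fintype V] [DecidableEq V] {H : SimpleGraph V}

theorem cb {r s : V} (hh : Hub H r s) {x y : V} (hxy : x ≠ y) (h1 : H.Adj r x) (h2 : H.Adj s x)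
    (h3 : H.Adj r y) (h4 : H.Adj s y) {I : Finset V} (hI : Big H I) (hr : r ∉ I) (hs : s ∉ I)
    (hx : x ∉ I) : y ∈ I := by
  by_contra hy
  exact thmB hh.sb hI hr hx hs hy h1 h2.symm h4 h3.symm hh.adj.ne hxy

end Pool.Agent.Work.MP_0f7328_co.TV
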