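import Pool.Agent.Work.MP_0f7328_co.TV.Side

/-!
Properties of the closure `cl H r s u`. (All short.)

`cl_nr`, `cl_ns`: by `hh.mem u` there is a big `I` with `r, s ∉ I`, `u ∈ I`; `cl u ⊆ I`.
`cl_trans`: if `v ∈ cl u`, `w ∈ cl v` and `I` is big, avoids the hubs, contains `u`, then it
contains `v`, hence `w`.
`cl_stable`: `cl u ⊆ I` with `I` as in `cl_nr`, `I` is stable.
`cl_dual`: by `side`, for `I` big avoiding the hubs, `u ∈ I` iff `m u ∉ I`, `v ∈ I` iff `m v ∉ I`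
(`m v ≠ r, s` by `PM.ne_r`, `PM.ne_s`). So the implication (`u ∈ I` implies `v ∈ I`) is equivalent
to (`m v ∈ I` implies `m u ∈ I`).
`cl_clo`: stable and without hubs as above; if `w ∈ cl u`, `v ≠ r, s` is adjacent to `w` and `I` is
big, avoids the hubs and contains `u`, then `w ∈ I`, so `v ∉ I`, so `m v ∈ I` by `side`.
`cl_not_both`: `cl u` is stable and `v` is adjacent to `m v`.
`cl_not_opp`: `v ∈ cl u` gives `v ≠ r, s`. By `hh.non v` there is a big `I` avoiding the hubs with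
`v ∉ I`. So `u ∉ I`, so `m u ∈ I` by `side`; if `v ∈ cl (m u)` then `v ∈ I`, a contradiction.
-/

set_option autoImplicit false
set_option linter.unusedSectionVars false

namespace Pool.Agent.Work.MP_0f7328_co.TV

open Finset

variable {V : Type} [Fintype V] [DecidableEq V] {H : SimpleGraph V}

variable {r s : V} {m : V → V}

theorem cl_nr (hh : Hub H r s) {u : V} (h1 : u ≠ r) (h2 : u ≠ s) : r ∉ cl H r s u := by
  obtain ⟨I, hI, hr, hs, hu⟩ := hh.mem u h1 h2
  intro h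
  exact hr (mem_cl.1 h I hI hr hs hu)

theorem cl_ns (hh : Hub H r s) {u : V} (h1 : u ≠ r) (h2 : u ≠ s) : s ∉ cl H r s u := by
  obtain ⟨I, hI, hr, hs, hu⟩ := hh.mem u h1 h2
  intro h
  exact hs (mem_cl.1 h I hI hr hs hu)

theorem cl_trans {u v : V} (h : v ∈ cl H r s u) : cl H r s v ⊆ cl H r s u := by
  intro w hw
  rw [mem_cl] at hw h ⊢
  intro I hI hr hs hu
  exact hw I hI hr hs (h I hI hr hs hu)

theorem cl_stable (hh : Hub H r s) {u : V} (h1 : u ≠ r) (h2 : u ≠ s) :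
    Stable H (cl H r s u) := by
  obtain ⟨I, hI, hr, hs, hu⟩ := hh.mem u h1 h2
  exact hI.1.mono fun v hv => mem_cl.1 hv I hI hr hs hu

theorem cl_dual (hh : Hub H r s) (hm : PM H r s m) {u v : V} (h1 : u ≠ r) (h2 : u ≠ s)
    (h3 : v ≠ r) (h4 : v ≠ s) : v ∈ cl H r s u ↔ m u ∈ cl H r s (m v) := by
  rw [mem_cl, mem_cl]
  constructor
  · intro h I hI hr hs hv
    by_contra hu
    have h5 := (side hh hm hI hr hs h1 h2).2 hu
    exact (side hh hm hI hr hs h3 h4).1 (h I hI hr hs h5) hv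
  · intro h I hI hr hs hu
    by_contra hv
    have h5 : m v ∈ I := by
      by_contra h6
      exact hv ((side hh hm hI hr hs h3 h4).2 h6)
    exact (side hh hm hI hr hs h1 h2).1 hu (h I hI hr hs h5)

theorem cl_clo (hh : Hub H r s) (hm : PM H r s m) {u : V} (h1 : u ≠ r) (h2 : u ≠ s) :
    Clo H r s m (cl H r s u) := by
  refine ⟨cl_stable hh h1 h2, cl_nr hh h1 h2, cl_ns hh h1 h2, ?_⟩
  intro w hw v h3 h4 hvw
  rw [mem_cl] at hw ⊢
  intro I hI hr hs hu
  have h5 : v ∉ I := fun hv => hI.1 v hv w (hw I hI hr hs hu) hvw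
  by_contra h6
  exact h5 ((side hh hm hI hr hs h3 h4).2 h6)

theorem cl_not_both (hh : Hub H r s) (hm : PM H r s m) {u v : V} (h1 : u ≠ r) (h2 : u ≠ s)
    (h : v ∈ cl H r s u) : m v ∉ cl H r s u :=
  fun h3 => cl_stable hh h1 h2 v h (m v) h3 (hm.adj v)

theorem cl_not_opp (hh : Hub H r s) (hm : PM H r s m) {u v : V} (h1 : u ≠ r) (h2 : u ≠ s)
    (h : v ∈ cl H r s u) : v ∉ cl H r s (m u) := by
  have h3 : v ≠ r := fun e => cl_nr hh h1 h2 (e ▸ h)
  have h4 : v ≠ s := fun e => cl_ns hh h1 h2 (e ▸ h)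
  obtain ⟨I, hI, hr, hs, hv⟩ := hh.non v h3 h4
  have hu : u ∉ I := fun hu => hv (mem_cl.1 h I hI hr hs hu)
  have hmu : m u ∈ I := by
    by_contra h6
    exact hu ((side hh hm hI hr hs h1 h2).2 h6)
  intro h7
  exact hv (mem_cl.1 h7 I hI hr hs hmu)

end Pool.Agent.Work.MP_0f7328_co.TV
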