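import Pool.Agent.Work.MP_0f7328_co.TV.Defs

/-!
Which wheels are claw-free; `Q8` is not claw-free and has an edge in no triangle.

Proof of `wheel_claw`. For `k ≥ 3` the hub and the rim vertices `0, 2, 4` form a claw (they are
pairwise nonadjacent, the rim has length at least 7); transport along the isomorphism.
`q8_claw`: vertex `0` with `2, 3, 4`. `q8_edge`: the edge `25`. (`decide` for `Q8`.)
-/

set_option autoImplicit false
set_option linter.unusedSectionVars false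

namespace Pool.Agent.Work.MP_0f7328_co.TV

open Finset

variable {V : Type} [Fintype V] [DecidableEq V] {H : SimpleGraph V}

private theorem wh_hub {n : ℕ} (i : Fin n) : (wheel n).Adj none (some i) := by
  unfold wheel
  rw [SimpleGraph.fromRel_adj]
  exact ⟨by simp, Or.inl trivial⟩

private theorem wh_rim {n : ℕ} (i j : Fin n) : (wheel n).Adj (some i) (some j) ↔
    i ≠ j ∧ ((i.1 + 1) % n = j.1 ∨ (j.1 + 1) % n = i.1) := by
  unfold wheel
  rw [SimpleGraph.fromRel_adj]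
  simp

private theorem q8_adj (a b : Fin 8) : Q8.Adj a b ↔ a ≠ b ∧
    ((a, b) ∈ ([(0, 1), (0, 2), (0, 3), (0, 4), (1, 2), (1, 3), (1, 4),
    (5, 6), (6, 7), (5, 7), (2, 5), (3, 6), (4, 7)] : List (Fin 8 × Fin 8)) ∨
    (b, a) ∈ ([(0, 1), (0, 2), (0, 3), (0, 4), (1, 2), (1, 3), (1, 4),
    (5, 6), (6, 7), (5, 7), (2, 5), (3, 6), (4, 7)] : List (Fin 8 × Fin 8))) := by
  unfold Q8
  rw [SimpleGraph.fromRel_adj]

theorem wheel_claw {k : ℕ} (e : H ≃g wheel (2 * k + 1)) (hc : ClawFree H) : k ≤ 2 := by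
  by_contra hk
  push Not at hk
  have key : ∀ x y, H.Adj (e.symm x) (e.symm y) ↔ (wheel (2 * k + 1)).Adj x y :=
    fun x y => e.symm.map_rel_iff
  have hinj : ∀ x y, x ≠ y → e.symm x ≠ e.symm y := fun x y h h' => h (e.symm.injective h')
  set a : Fin (2 * k + 1) := ⟨0, by omega⟩ with ha
  set b : Fin (2 * k + 1) := ⟨2, by omega⟩ with hb
  set c : Fin (2 * k + 1) := ⟨4, by omega⟩ with hcc
  have e1 : (0 + 1) % (2 * k + 1) = 1 := Nat.mod_eq_of_lt (by omega)
  have e3 : (2 + 1) % (2 * k + 1) = 3 := Nat.mod_eq_of_lt (by omega)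
  have e5 : (4 + 1) % (2 * k + 1) = 5 := Nat.mod_eq_of_lt (by omega)
  have hab : a ≠ b := by rw [ha, hb]; simp [Fin.ext_iff]
  have hac : a ≠ c := by rw [ha, hcc]; simp [Fin.ext_iff]
  have hbc : b ≠ c := by rw [hb, hcc]; simp [Fin.ext_iff]
  rcases hc (e.symm none) (e.symm (some a)) (e.symm (some b)) (e.symm (some c))
    ((key _ _).2 (wh_hub a)) ((key _ _).2 (wh_hub b)) ((key _ _).2 (wh_hub c))
    (hinj _ _ (by simpa using hab)) (hinj _ _ (by simpa using hac))
    (hinj _ _ (by simpa using hbc)) with h | h | h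
  · rw [key, wh_rim] at h
    simp only [ha, hb, e1, e3] at h
    omega
  · rw [key, wh_rim] at h
    simp only [ha, hcc, e1, e5] at h
    omega
  · rw [key, wh_rim] at h
    simp only [hb, hcc, e3, e5] at h
    omega

theorem q8_claw (e : H ≃g Q8) : ¬ ClawFree H := by
  intro hc
  have key : ∀ x y, H.Adj (e.symm x) (e.symm y) ↔ Q8.Adj x y := fun x y => e.symm.map_rel_iff
  have hinj : ∀ x y, x ≠ y → e.symm x ≠ e.symm y := fun x y h h' => h (e.symm.injective h')
  rcases hc (e.symm 0) (e.symm 2) (e.symm 3) (e.symm 4)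
    ((key _ _).2 ((q8_adj _ _).2 (by decide))) ((key _ _).2 ((q8_adj _ _).2 (by decide)))
    ((key _ _).2 ((q8_adj _ _).2 (by decide))) (hinj _ _ (by decide)) (hinj _ _ (by decide))
    (hinj _ _ (by decide)) with h | h | h
  · rw [key, q8_adj] at h
    revert h; decide
  · rw [key, q8_adj] at h
    revert h; decide
  · rw [key, q8_adj] at h
    revert h; decide

theorem q8_edge (e : H ≃g Q8) : ¬ ∀ u v, H.Adj u v → ∃ w, H.Adj u w ∧ H.Adj v w := by
  intro hc
  have key : ∀ x y, H.Adj (e.symm x) (e.symm y) ↔ Q8.Adj x y := fun x y => e.symm.map_rel_iff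
  obtain ⟨w, h1, h2⟩ := hc (e.symm 2) (e.symm 5) ((key _ _).2 ((q8_adj _ _).2 (by decide)))
  obtain ⟨x, rfl⟩ := e.symm.surjective w
  rw [key, q8_adj] at h1 h2
  revert h1 h2
  revert x
  decide

private theorem wh_edge {n : ℕ} (hn : 3 ≤ n) (u v : Option (Fin n)) (h : (wheel n).Adj u v) :
    ∃ w, (wheel n).Adj u w ∧ (wheel n).Adj v w := by
  have key : ∀ i : Fin n, ∃ w, (wheel n).Adj none w ∧ (wheel n).Adj (some i) w := by
    intro i
    have hlt : (i.1 + 1) % n < n := Nat.mod_lt _ (by omega)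
    refine ⟨some ⟨(i.1 + 1) % n, hlt⟩, wh_hub _, (wh_rim _ _).2 ⟨?_, Or.inl rfl⟩⟩
    intro h1
    have h2 : i.1 = (i.1 + 1) % n := congrArg Fin.val h1
    have hi := i.2
    rcases Nat.lt_or_ge (i.1 + 1) n with h3 | h3
    · rw [Nat.mod_eq_of_lt h3] at h2
      omega
    · have h4 : i.1 + 1 = n := by omega
      rw [h4, Nat.mod_self] at h2
      omega
  rcases u with _ | i
  · rcases v with _ | j
    · exact absurd rfl h.ne
    · exact key j
  · rcases v with _ | j
    · obtain ⟨w, h1, h2⟩ := key i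
      exact ⟨w, h2, h1⟩
    · exact ⟨none, (wh_hub i).symm, (wh_hub j).symm⟩

theorem wheel_edge {k : ℕ} (hk : 1 ≤ k) (e : H ≃g wheel (2 * k + 1)) :
    (∀ v, InTri H v) ∧ ∀ u v, H.Adj u v → ∃ w, H.Adj u w ∧ H.Adj v w := by
  have key : ∀ x y, H.Adj (e.symm x) (e.symm y) ↔ (wheel (2 * k + 1)).Adj x y :=
    fun x y => e.symm.map_rel_iff
  have hedge : ∀ u v, H.Adj u v → ∃ w, H.Adj u w ∧ H.Adj v w := by
    intro u v h
    obtain ⟨x, rfl⟩ := e.symm.surjective u
    obtain ⟨y, rfl⟩ := e.symm.surjective v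
    rw [key] at h
    obtain ⟨w, h1, h2⟩ := wh_edge (by omega) x y h
    exact ⟨e.symm w, (key _ _).2 h1, (key _ _).2 h2⟩
  refine ⟨fun v => ?_, hedge⟩
  obtain ⟨x, rfl⟩ := e.symm.surjective v
  obtain ⟨y, hy⟩ : ∃ y, (wheel (2 * k + 1)).Adj x y := by
    rcases x with _ | i
    · exact ⟨some ⟨0, by omega⟩, wh_hub _⟩
    · exact ⟨none, (wh_hub i).symm⟩
  obtain ⟨w, h1, h2⟩ := hedge _ _ ((key _ _).2 hy)
  exact ⟨_, w, (key _ _).2 hy, h1, h2⟩

private theorem wh_claw {n : ℕ} (hn : n = 3 ∨ n = 5) (a b c : Option (Fin n)) (hab : a ≠ b)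
    (hac : a ≠ c) (hbc : b ≠ c) :
    (wheel n).Adj a b ∨ (wheel n).Adj a c ∨ (wheel n).Adj b c := by
  rcases a with _ | i
  · rcases b with _ | j
    · exact absurd rfl hab
    · exact Or.inl (wh_hub j)
  rcases b with _ | j
  · exact Or.inl (wh_hub i).symm
  rcases c with _ | l
  · exact Or.inr (Or.inl (wh_hub i).symm)
  have h1 : i ≠ j := fun h => hab (by rw [h])
  have h2 : i ≠ l := fun h => hac (by rw [h])
  have h3 : j ≠ l := fun h => hbc (by rw [h])
  rw [wh_rim, wh_rim, wh_rim]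
  have hi := i.2
  have hj := j.2
  have hl := l.2
  have h1' : i.1 ≠ j.1 := fun h => h1 (Fin.ext h)
  have h2' : i.1 ≠ l.1 := fun h => h2 (Fin.ext h)
  have h3' : j.1 ≠ l.1 := fun h => h3 (Fin.ext h)
  simp only [ne_eq, h1, h2, h3, not_false_eq_true, true_and]
  rcases hn with rfl | rfl
  · omega
  · omega

theorem wheel_claw' {k : ℕ} (hk : 1 ≤ k) (hk' : k ≤ 2) (e : H ≃g wheel (2 * k + 1)) :
    ClawFree H := by
  have key : ∀ x y, H.Adj (e.symm x) (e.symm y) ↔ (wheel (2 * k + 1)).Adj x y :=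
    fun x y => e.symm.map_rel_iff
  intro v a b c _ _ _ hab hac hbc
  obtain ⟨x, rfl⟩ := e.symm.surjective a
  obtain ⟨y, rfl⟩ := e.symm.surjective b
  obtain ⟨z, rfl⟩ := e.symm.surjective c
  rw [key, key, key]
  exact wh_claw (by omega) x y z (fun h => hab (by rw [h])) (fun h => hac (by rw [h]))
    (fun h => hbc (by rw [h]))

end Pool.Agent.Work.MP_0f7328_co.TV
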