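import Pool.Agent.Work.MP_0f7328_co.TV.Defs

/-!
Dominating vertex `r`: an odd set with a rotation such that the rest without `r` has a perfect
matching is everything but `r`.

Proof. Otherwise choose `y` outside of `insert r X`, and let `f` be the perfect matching of
`(insert r X)ᶜ`, `z = f y`. `Y = {r, y, z}` is a triangle, disjoint from `X`, with a rotation
(`Rot.tri`). The rest `(X ∪ Y)ᶜ` is mapped to itself by `f`, so it has a perfect matching, hence a
rotation. So `Xᶜ = Y ∪ (X ∪ Y)ᶜ` has a rotation and `Split H` holds.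
-/

set_option autoImplicit false
set_option linter.unusedSectionVars false

namespace Pool.Agent.Work.MP_0f7328_co.TV

open Finset

variable {V : Type} [Fintype V] [DecidableEq V] {H : SimpleGraph V}

theorem d1 (h : SB H) {r : V} (hd : ∀ v, v ≠ r → H.Adj r v) {X : Finset V} (hr : r ∉ X)
    (hX : Odd X.card) (rX : Rot H X) (mX : Mat H (insert r X)ᶜ) : insert r X = univ := by
  by_contra hne
  obtain ⟨f, hf⟩ := mX
  obtain ⟨y, hy⟩ : ∃ y, y ∉ insert r X := by
    by_contra hcon
    push Not at hcon
    exact hne (eq_univ_iff_forall.2 hcon)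
  have hy' : y ∈ (insert r X)ᶜ := mem_compl.2 hy
  obtain ⟨h1, h2, h3⟩ := hf y hy'
  have h1' : f y ∉ insert r X := mem_compl.1 h1
  have hyr : y ≠ r := fun h => hy (h ▸ mem_insert_self _ _)
  have hzr : f y ≠ r := fun h => h1' (h ▸ mem_insert_self _ _)
  have hyX : y ∉ X := fun h => hy (mem_insert_of_mem h)
  have hzX : f y ∉ X := fun h => h1' (mem_insert_of_mem h)
  have hT := Rot.tri (hd y hyr) h3 (hd (f y) hzr)
  apply h.nosplit
  refine ⟨X, hX, rX, ?_⟩
  have hrest : Rot H (X ∪ {r, y, f y})ᶜ := by
    refine Rot.of_mat ⟨f, fun v hv => ?_⟩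
    simp only [mem_compl, mem_union, mem_insert, mem_singleton, not_or] at hv
    obtain ⟨v1, v2, v3, v4⟩ := hv
    have hv' : v ∈ (insert r X)ᶜ := by
      rw [mem_compl, mem_insert, not_or]
      exact ⟨v2, v1⟩
    obtain ⟨g1, g2, g3⟩ := hf v hv'
    rw [mem_compl, mem_insert, not_or] at g1
    refine ⟨?_, g2, g3⟩
    simp only [mem_compl, mem_union, mem_insert, mem_singleton, not_or]
    refine ⟨g1.2, g1.1, fun h => ?_, fun h => ?_⟩
    · apply v4
      rw [← g2, h]
    · apply v3
      rw [← g2, h, h2]
  have hX' : Xᶜ = {r, y, f y} ∪ (X ∪ {r, y, f y})ᶜ := by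
    ext v
    simp only [mem_compl, mem_union, mem_insert, mem_singleton]
    constructor
    · intro hv
      by_cases hv' : v = r ∨ v = y ∨ v = f y
      · exact Or.inl hv'
      · exact Or.inr fun h => h.elim hv hv'
    · rintro (h | h) hv
      · rcases h with rfl | rfl | rfl
        · exact hr hv
        · exact hyX hv
        · exact hzX hv
      · exact h (Or.inl hv)
  rw [hX']
  refine hT.union hrest ?_
  rw [disjoint_left]
  intro v hv hv'
  rw [mem_compl, mem_union, not_or] at hv'
  exact hv'.2 hv

end Pool.Agent.Work.MP_0f7328_co.TV
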