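import Pool.Agent.Work.MP_0f7328_co.TV.D1
import Pool.Agent.Work.MP_0f7328_co.TV.AltP
import Pool.Agent.Work.MP_0f7328_co.TV.Surp

/-!
Dominating vertex `r`: the graph without `r` has a Hamiltonian cycle `e 0, ..., e (2 k)`.

Proof. Take `v ≠ r`; by `deg_three` it has a neighbour `w ≠ r`. Let `f` be the perfect matching of
`{r, v}ᶜ` and `g` that of `{r, w}ᶜ`. Apply `altp` with `A = {r}ᶜ`. Consecutive vertices are
adjacent (`g x`, `f x` are adjacent to `x` where used) and `e (2 k) = w` is adjacent to `e 0 = v`.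
Let `X` be the set of all `e i`, `i ≤ 2 k`. It has `2 k + 1` elements and the rotation
`e i ↦ e (i + 1)`, `e (2 k) ↦ e 0`. `(insert r X)ᶜ` is mapped to itself by `f` (last statement of
`altp`), so it has a perfect matching. By `d1`, `insert r X = univ`.
-/

set_option autoImplicit false
set_option linter.unusedSectionVars false

namespace Pool.Agent.Work.MP_0f7328_co.TV

open Finset

variable {V : Type} [Fintype V] [DecidableEq V] {H : SimpleGraph V}

theorem d2 (h : SB H) {r : V} (hd : ∀ v, v ≠ r → H.Adj r v) :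
    ∃ (k : ℕ) (e : ℕ → V), 1 ≤ k ∧ (∀ i ≤ 2 * k, e i ≠ r) ∧
      (∀ i ≤ 2 * k, ∀ j ≤ 2 * k, e i = e j → i = j) ∧
      (∀ i < 2 * k, H.Adj (e i) (e (i + 1))) ∧ H.Adj (e (2 * k)) (e 0) ∧
      ∀ v, v ≠ r → ∃ i ≤ 2 * k, e i = v := by
  have hnt : Nontrivial V := by
    rw [← Fintype.one_lt_card_iff_nontrivial]
    exact lt_of_lt_of_le (by norm_num) h.four
  obtain ⟨v, hvr⟩ := exists_ne r
  obtain ⟨w, hw1, hwr⟩ := Finset.exists_mem_ne
    (lt_of_lt_of_le (by norm_num) (deg_three h.bic h.four v)) r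
  have hvw : H.Adj v w := by
    rw [mem_nb] at hw1
    obtain ⟨x, hx, hx'⟩ := hw1
    rw [mem_singleton] at hx
    rw [← hx]; exact hx'
  obtain ⟨f, hf⟩ := h.bic r v hvr.symm
  obtain ⟨g, hg⟩ := h.bic r w hwr.symm
  have hf' : ∀ x, x ≠ r → x ≠ v → f x ≠ r ∧ f x ≠ v ∧ f (f x) = x ∧ H.Adj x (f x) := by
    intro x h1 h2
    have h3 := hf x (by
      rw [mem_compl, mem_insert, mem_singleton]
      rintro (h3 | h3)
      · exact h1 h3
      · exact h2 h3)
    rw [mem_compl, mem_insert, mem_singleton] at h3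
    push Not at h3
    exact ⟨h3.1.1, h3.1.2, h3.2⟩
  have hg' : ∀ x, x ≠ r → x ≠ w → g x ≠ r ∧ g x ≠ w ∧ g (g x) = x ∧ H.Adj x (g x) := by
    intro x h1 h2
    have h3 := hg x (by
      rw [mem_compl, mem_insert, mem_singleton]
      rintro (h3 | h3)
      · exact h1 h3
      · exact h2 h3)
    rw [mem_compl, mem_insert, mem_singleton] at h3
    push Not at h3
    exact ⟨h3.1.1, h3.1.2, h3.2⟩
  have memA : ∀ x, x ∈ (({r} : Finset V)ᶜ) ↔ x ≠ r := fun x => by
    rw [mem_compl, mem_singleton]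
  obtain ⟨k, e, hk, he0, hek, hA, hinj, hstep, hlast⟩ := altp (({r} : Finset V)ᶜ) f g v w
    ((memA v).2 hvr) ((memA w).2 hwr) hvw.ne
    (fun x hx hxv => by
      rw [memA] at hx
      obtain ⟨a1, a2, a3, a4⟩ := hf' x hx hxv
      exact ⟨(memA _).2 a1, a2, a3, a4.ne'⟩)
    (fun x hx hxv => by
      rw [memA] at hx
      obtain ⟨a1, a2, a3, a4⟩ := hg' x hx hxv
      exact ⟨(memA _).2 a1, a2, a3, a4.ne'⟩)
  have hAr : ∀ i ≤ 2 * k, e i ≠ r := fun i hi => (memA _).1 (hA i hi)
  have hadj : ∀ i < 2 * k, H.Adj (e i) (e (i + 1)) := by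
    intro i hi
    rcases Nat.even_or_odd' i with ⟨j, hj | hj⟩
    · have hjk : j < k := by omega
      have h1 := (hstep j hjk).1
      have h2 : e (2 * j) ≠ w := by
        intro h3
        have := hinj (2 * j) (by omega) (2 * k) le_rfl (h3.trans hek.symm)
        omega
      have h3 := (hg' _ (hAr (2 * j) (by omega)) h2).2.2.2
      rw [hj, ← h1]
      exact h3
    · have hjk : j < k := by omega
      have h1 := (hstep j hjk).2
      have h2 : e (2 * j + 1) ≠ v := by
        intro h3
        have := hinj (2 * j + 1) (by omega) 0 (by omega) (h3.trans he0.symm)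
        omega
      have h3 := (hf' _ (hAr (2 * j + 1) (by omega)) h2).2.2.2
      rw [h1] at h3
      rw [hj]
      exact h3
  have hclose : H.Adj (e (2 * k)) (e 0) := by
    rw [hek, he0]
    exact hvw.symm
  refine ⟨k, e, hk, hAr, hinj, hadj, hclose, ?_⟩
  set X : Finset V := (range (2 * k + 1)).image e with hXdef
  have memX : ∀ x, x ∈ X ↔ ∃ i ≤ 2 * k, e i = x := by
    intro x
    rw [hXdef, mem_image]
    constructor
    · rintro ⟨i, hi, hi'⟩
      rw [mem_range] at hi
      exact ⟨i, by omega, hi'⟩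
    · rintro ⟨i, hi, hi'⟩
      exact ⟨i, mem_range.2 (by omega), hi'⟩
  have hcard : X.card = 2 * k + 1 := by
    rw [hXdef, card_image_of_injOn, card_range]
    intro a ha b hb hab
    rw [mem_coe, mem_range] at ha hb
    exact hinj a (by omega) b (by omega) hab
  have hrX : r ∉ X := by
    rw [memX]
    rintro ⟨i, hi, hi'⟩
    exact hAr i hi hi'
  have rX : Rot H X := by
    have hidx : ∀ x, ∃ i, x ∈ X → i ≤ 2 * k ∧ e i = x := by
      intro x
      by_cases hx : x ∈ X
      · obtain ⟨i, hi, hi'⟩ := (memX x).1 hx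
        exact ⟨i, fun _ => ⟨hi, hi'⟩⟩
      · exact ⟨0, fun h => absurd h hx⟩
    choose idx hidx using hidx
    refine ⟨fun x => if idx x = 2 * k then e 0 else e (idx x + 1), ?_, ?_⟩
    · intro a ha b hb hab
      rw [mem_coe] at ha hb
      obtain ⟨a1, a2⟩ := hidx a ha
      obtain ⟨b1, b2⟩ := hidx b hb
      simp only at hab
      have hab' : idx a = idx b := by
        split_ifs at hab with c1 c2 c2
        · omega
        · have := hinj 0 (by omega) _ (by omega) hab
          omega
        · have := hinj _ (by omega) 0 (by omega) hab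
          omega
        · have := hinj _ (by omega) _ (by omega) hab
          omega
      rw [← a2, ← b2, hab']
    · intro x hx
      obtain ⟨a1, a2⟩ := hidx x hx
      simp only
      split_ifs with c1
      · refine ⟨(memX _).2 ⟨0, by omega, rfl⟩, ?_⟩
        rw [c1] at a2
        rw [← a2]
        exact hclose
      · refine ⟨(memX _).2 ⟨idx x + 1, by omega, rfl⟩, ?_⟩
        have h3 := hadj (idx x) (by omega)
        rw [a2] at h3
        exact h3
  have mX : Mat H (insert r X)ᶜ := by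
    refine ⟨f, fun x hx => ?_⟩
    rw [mem_compl, mem_insert] at hx
    push Not at hx
    have hxv : x ≠ v := by
      intro h3
      exact hx.2 ((memX x).2 ⟨0, by omega, he0.trans h3.symm⟩)
    obtain ⟨b1, b2, b3, b4⟩ := hf' x hx.1 hxv
    refine ⟨?_, b3, b4⟩
    rw [mem_compl, mem_insert]
    push Not
    refine ⟨b1, ?_⟩
    rw [memX]
    push Not
    refine hlast x ((memA x).2 hx.1) ?_
    intro i hi h3
    exact hx.2 ((memX x).2 ⟨i, hi, h3⟩)
  have huniv := d1 h hd hrX (by rw [hcard]; exact ⟨k, rfl⟩) rX mX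
  intro x hx
  have h3 : x ∈ insert r X := by
    rw [huniv]; exact mem_univ x
  rw [mem_insert] at h3
  exact (memX x).1 (h3.resolve_left hx)

end Pool.Agent.Work.MP_0f7328_co.TV
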