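import Pool.Agent.Work.MP_0f7328_co.TV.D1

/-!
Dominating vertex `r`: a Hamiltonian cycle of the graph without `r` has no chord.

Proof. Suppose `j - i` is even. Let `X = {e i, ..., e j}`, with `j - i + 1` elements, an odd number,
and the rotation `e t ↦ e (t + 1)` (`i ≤ t < j`), `e j ↦ e i`. The other vertices of the cycle, in
cyclic order `e (j + 1), ..., e (2 k), e 0, ..., e (i - 1)`, form a path with an even number
`2 k - j + i` of vertices, so they have a perfect matching. (If `i` is even then `2 k - j` is even: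
match `e (j + 1) e (j + 2)`, ..., `e (2 k - 1) e (2 k)` and `e 0 e 1`, ..., `e (i - 2) e (i - 1)`. If
`i` is odd then `j` is odd: match `e (j + 1) e (j + 2)`, ..., `e (2 k - 2) e (2 k - 1)`,
`e (2 k) e 0`, `e 1 e 2`, ..., `e (i - 2) e (i - 1)`.) By `d1`, `insert r X = univ`, so `i = 0` and
`j = 2 k`.
Suppose `j - i` is odd. Let `X = {e j, ..., e (2 k), e 0, ..., e i}`: `2 k + 1 - (j - i - 1)`
elements, an odd number, with the rotation `e t ↦ e (t + 1)` for `j ≤ t < 2 k` or `t < i`,
`e (2 k) ↦ e 0`, `e i ↦ e j`. The other vertices `e (i + 1), ..., e (j - 1)` are an even number and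
are matched as `e (i + 1) e (i + 2)`, ..., `e (j - 2) e (j - 1)`. By `d1` there are none, so
`j = i + 1`.
-/

set_option autoImplicit false
set_option linter.unusedSectionVars false

namespace Pool.Agent.Work.MP_0f7328_co.TV

open Finset

variable {V : Type} [Fintype V] [DecidableEq V] {H : SimpleGraph V}

private theorem core (h : SB H) {r : V} (hd : ∀ v, v ≠ r → H.Adj r v) {k : ℕ} {e : ℕ → V}
    (h1 : ∀ i ≤ 2 * k, e i ≠ r) (h2 : ∀ i ≤ 2 * k, ∀ j ≤ 2 * k, e i = e j → i = j)
    (h5 : ∀ v, v ≠ r → ∃ i ≤ 2 * k, e i = v) {S : Finset ℕ} (hS : ∀ t ∈ S, t ≤ 2 * k)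
    (hodd : Odd S.card) (σ : ℕ → ℕ) (hσ : ∀ t ∈ S, σ t ∈ S ∧ H.Adj (e t) (e (σ t)))
    (hinj : ∀ a ∈ S, ∀ b ∈ S, σ a = σ b → a = b) (τ : ℕ → ℕ)
    (hτ : ∀ t ≤ 2 * k, t ∉ S → τ t ≤ 2 * k ∧ τ t ∉ S ∧ τ (τ t) = t ∧ H.Adj (e t) (e (τ t))) :
    ∀ t ≤ 2 * k, t ∈ S := by
  choose! ix hix using h5
  have hie : ∀ t ≤ 2 * k, ix (e t) = t := fun t ht =>
    h2 _ (hix _ (h1 t ht)).1 _ ht (hix _ (h1 t ht)).2
  have hmem : ∀ t ≤ 2 * k, e t ∈ S.image e → t ∈ S := by
    intro t ht hm
    obtain ⟨s, hs, hse⟩ := mem_image.mp hm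
    have := h2 s (hS s hs) t ht hse
    rwa [← this]
  have hr : r ∉ S.image e := by
    intro hm
    obtain ⟨s, hs, hse⟩ := mem_image.mp hm
    exact h1 s (hS s hs) hse
  have hcard : (S.image e).card = S.card :=
    card_image_of_injOn fun a ha b hb hab => h2 a (hS a ha) b (hS b hb) hab
  have rX : Rot H (S.image e) := by
    refine ⟨fun v => e (σ (ix v)), ?_, ?_⟩
    · intro v hv w hw hvw
      obtain ⟨a, ha, rfl⟩ := mem_image.mp (mem_coe.mp hv)
      obtain ⟨b, hb, rfl⟩ := mem_image.mp (mem_coe.mp hw)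
      simp only at hvw
      rw [hie a (hS a ha), hie b (hS b hb)] at hvw
      have h6 := h2 _ (hS _ (hσ a ha).1) _ (hS _ (hσ b hb).1) hvw
      rw [hinj a ha b hb h6]
    · intro v hv
      obtain ⟨a, ha, rfl⟩ := mem_image.mp hv
      simp only
      rw [hie a (hS a ha)]
      exact ⟨mem_image_of_mem e (hσ a ha).1, (hσ a ha).2⟩
  have mX : Mat H (insert r (S.image e))ᶜ := by
    refine ⟨fun v => e (τ (ix v)), ?_⟩
    intro v hv
    rw [mem_compl, mem_insert, not_or] at hv
    obtain ⟨hvr, hvX⟩ := hv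
    obtain ⟨ht, het⟩ := hix v hvr
    have htS : ix v ∉ S := fun hm => hvX (by rw [← het]; exact mem_image_of_mem e hm)
    obtain ⟨a1, a2, a3, a4⟩ := hτ (ix v) ht htS
    refine ⟨?_, ?_, ?_⟩
    · rw [mem_compl, mem_insert, not_or]
      exact ⟨h1 _ a1, fun hm => a2 (hmem _ a1 hm)⟩
    · simp only
      rw [hie _ a1, a3, het]
    · simp only
      rw [het] at a4
      exact a4
  have hall := d1 h hd hr (by rw [hcard]; exact hodd) rX mX
  intro t ht
  have hmt : e t ∈ insert r (S.image e) := by rw [hall]; exact mem_univ _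
  rcases mem_insert.mp hmt with h7 | h7
  · exact absurd h7 (h1 t ht)
  · exact hmem t ht h7

theorem d3 (h : SB H) {r : V} (hd : ∀ v, v ≠ r → H.Adj r v) {k : ℕ} {e : ℕ → V}
    (h1 : ∀ i ≤ 2 * k, e i ≠ r) (h2 : ∀ i ≤ 2 * k, ∀ j ≤ 2 * k, e i = e j → i = j)
    (h3 : ∀ i < 2 * k, H.Adj (e i) (e (i + 1))) (h4 : H.Adj (e (2 * k)) (e 0))
    (h5 : ∀ v, v ≠ r → ∃ i ≤ 2 * k, e i = v) {i j : ℕ} (hij : i < j) (hj : j ≤ 2 * k)
    (hadj : H.Adj (e i) (e j)) : j = i + 1 ∨ (i = 0 ∧ j = 2 * k) := by
  have hcyc : ∀ a b : ℕ, ((b = a + 1 ∧ a < 2 * k) ∨ (a = b + 1 ∧ b < 2 * k) ∨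
      (a = 2 * k ∧ b = 0) ∨ (a = 0 ∧ b = 2 * k) ∨ (a = i ∧ b = j) ∨ (a = j ∧ b = i)) →
      H.Adj (e a) (e b) := by
    intro a b hab
    rcases hab with ⟨rfl, hh⟩ | ⟨rfl, hh⟩ | ⟨rfl, rfl⟩ | ⟨rfl, rfl⟩ | ⟨rfl, rfl⟩ | ⟨rfl, rfl⟩
    · exact h3 _ hh
    · exact (h3 _ hh).symm
    · exact h4
    · exact h4.symm
    · exact hadj
    · exact hadj.symm
  rcases Nat.even_or_odd (j - i) with hpar | hpar
  · right
    obtain ⟨c, hc⟩ := hpar
    have hcard : Odd (Icc i j).card := by
      rw [Nat.card_Icc]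
      exact ⟨c, by omega⟩
    have hall : ∀ t ≤ 2 * k, t ∈ Icc i j := by
      rcases Nat.mod_two_eq_zero_or_one i with hi | hi
      · refine core h hd h1 h2 h5 (fun t ht => (mem_Icc.mp ht).2.trans hj) hcard
          (fun t => if t = j then i else t + 1) ?_ ?_
          (fun t => if t < i then (if t % 2 = 0 then t + 1 else t - 1)
            else (if t % 2 = 0 then t - 1 else t + 1)) ?_
        · intro t ht
          rw [mem_Icc] at ht
          refine ⟨?_, hcyc _ _ ?_⟩
          · rw [mem_Icc]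
            split_ifs <;> omega
          · split_ifs <;> omega
        · intro a ha b hb hab
          rw [mem_Icc] at ha hb
          split_ifs at hab <;> omega
        · intro t ht htS
          rw [mem_Icc, not_and_or, not_le, not_le] at htS
          refine ⟨?_, ?_, ?_, hcyc _ _ ?_⟩
          · split_ifs <;> omega
          · rw [mem_Icc]
            split_ifs <;> omega
          · split_ifs <;> omega
          · split_ifs <;> omega
      · obtain ⟨τ, T0, T1, T2, T3, T4, T5⟩ : ∃ τ : ℕ → ℕ, τ 0 = 2 * k ∧ τ (2 * k) = 0 ∧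
            (∀ t, t ≠ 0 → t ≠ 2 * k → t < i → t % 2 = 0 → τ t = t - 1) ∧
            (∀ t, t ≠ 0 → t ≠ 2 * k → t < i → t % 2 = 1 → τ t = t + 1) ∧
            (∀ t, t ≠ 0 → t ≠ 2 * k → i ≤ t → t % 2 = 0 → τ t = t + 1) ∧
            (∀ t, t ≠ 0 → t ≠ 2 * k → i ≤ t → t % 2 = 1 → τ t = t - 1) := by
          refine ⟨fun t => if t = 0 then 2 * k else if t = 2 * k then 0 else
            if t < i then (if t % 2 = 0 then t - 1 else t + 1)
            else (if t % 2 = 0 then t + 1 else t - 1), ?_, ?_, ?_, ?_, ?_, ?_⟩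
          · exact if_pos rfl
          · exact (if_neg (by omega)).trans (if_pos rfl)
          · intro t a1 a2 a3 a4
            exact ((if_neg a1).trans (if_neg a2)).trans ((if_pos a3).trans (if_pos a4))
          · intro t a1 a2 a3 a4
            exact ((if_neg a1).trans (if_neg a2)).trans ((if_pos a3).trans (if_neg (by omega)))
          · intro t a1 a2 a3 a4
            exact ((if_neg a1).trans (if_neg a2)).trans ((if_neg (by omega)).trans (if_pos a4))
          · intro t a1 a2 a3 a4
            exact ((if_neg a1).trans (if_neg a2)).trans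
              ((if_neg (by omega)).trans (if_neg (by omega)))
        refine core h hd h1 h2 h5 (fun t ht => (mem_Icc.mp ht).2.trans hj) hcard
          (fun t => if t = j then i else t + 1) ?_ ?_ τ ?_
        · intro t ht
          rw [mem_Icc] at ht
          refine ⟨?_, hcyc _ _ ?_⟩
          · rw [mem_Icc]
            split_ifs <;> omega
          · split_ifs <;> omega
        · intro a ha b hb hab
          rw [mem_Icc] at ha hb
          split_ifs at hab <;> omega
        · intro t ht htS
          rw [mem_Icc] at htS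
          rw [mem_Icc]
          by_cases c0 : t = 0
          · subst c0
            rw [T0, T1]
            exact ⟨le_rfl, by omega, rfl, hcyc _ _ (by omega)⟩
          by_cases c1 : t = 2 * k
          · subst c1
            rw [T1, T0]
            exact ⟨by omega, by omega, rfl, hcyc _ _ (by omega)⟩
          rcases lt_or_ge t i with c2 | c2 <;> rcases Nat.mod_two_eq_zero_or_one t with c3 | c3
          · rw [T2 t c0 c1 c2 c3, T3 (t - 1) (by omega) (by omega) (by omega) (by omega)]
            exact ⟨by omega, by omega, by omega, hcyc _ _ (by omega)⟩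
          · rw [T3 t c0 c1 c2 c3, T2 (t + 1) (by omega) (by omega) (by omega) (by omega)]
            exact ⟨by omega, by omega, by omega, hcyc _ _ (by omega)⟩
          · rw [T4 t c0 c1 c2 c3, T5 (t + 1) (by omega) (by omega) (by omega) (by omega)]
            exact ⟨by omega, by omega, by omega, hcyc _ _ (by omega)⟩
          · rw [T5 t c0 c1 c2 c3, T4 (t - 1) (by omega) (by omega) (by omega) (by omega)]
            exact ⟨by omega, by omega, by omega, hcyc _ _ (by omega)⟩
    have e1 := mem_Icc.mp (hall 0 (Nat.zero_le _))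
    have e2 := mem_Icc.mp (hall (2 * k) le_rfl)
    omega
  · left
    have hall := core h hd h1 h2 h5 (S := range (2 * k + 1) \ Ioo i j)
      (fun t ht => Nat.lt_succ_iff.mp (mem_range.mp (mem_sdiff.mp ht).1))
      (by
        have hsub : Ioo i j ⊆ range (2 * k + 1) := by
          intro t ht
          rw [mem_Ioo] at ht
          rw [mem_range]
          omega
        rw [card_sdiff_of_subset hsub, card_range, Nat.card_Ioo]
        obtain ⟨c, hc⟩ := hpar
        exact ⟨k - c, by omega⟩)
      (fun t => if t = i then j else if t = 2 * k then 0 else t + 1)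
      (by
        intro t ht
        rw [mem_sdiff, mem_range, mem_Ioo] at ht
        refine ⟨?_, hcyc _ _ ?_⟩
        · rw [mem_sdiff, mem_range, mem_Ioo]
          split_ifs <;> omega
        · split_ifs <;> omega)
      (by
        intro a ha b hb hab
        rw [mem_sdiff, mem_range, mem_Ioo] at ha hb
        split_ifs at hab <;> omega)
      (fun t => if (t - i) % 2 = 0 then t - 1 else t + 1)
      (by
        intro t ht htS
        rw [mem_sdiff, mem_range, mem_Ioo] at htS
        obtain ⟨c, hc⟩ := hpar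
        refine ⟨?_, ?_, ?_, hcyc _ _ ?_⟩
        · split_ifs <;> omega
        · rw [mem_sdiff, mem_range, mem_Ioo]
          split_ifs <;> omega
        · split_ifs <;> omega
        · split_ifs <;> omega)
    by_contra hne
    have e1 := hall (i + 1) (by omega)
    rw [mem_sdiff, mem_range, mem_Ioo] at e1
    omega

end Pool.Agent.Work.MP_0f7328_co.TV
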