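import Pool.Agent.Work.MP_0f7328_co.TV.D2
import Pool.Agent.Work.MP_0f7328_co.TV.D3

/-!
Dominating vertex: the graph is an odd wheel.

Proof. Take `k, e` from `d2`. The map `none ↦ r`, `some i ↦ e i` from `Option (Fin (2 k + 1))` to `V`
is a bijection. `r` is adjacent to all `e i`. `e i`, `e j` with `i < j` are adjacent if and only if
`j = i + 1` or `i = 0, j = 2 k` (`d3` and the properties of `e`), which is the adjacency of the wheel:
`(i + 1) % (2 k + 1) = j` or `(j + 1) % (2 k + 1) = i`.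
-/

set_option autoImplicit false
set_option linter.unusedSectionVars false

namespace Pool.Agent.Work.MP_0f7328_co.TV

open Finset

variable {V : Type} [Fintype V] [DecidableEq V] {H : SimpleGraph V}

private theorem wheel_nn {n : ℕ} : ¬ (wheel n).Adj none none := fun h => h.ne rfl

private theorem wheel_ns {n : ℕ} (i : Fin n) : (wheel n).Adj none (some i) := by
  unfold wheel
  rw [SimpleGraph.fromRel_adj]
  exact ⟨by simp, Or.inl trivial⟩

private theorem wheel_ss {n : ℕ} (i j : Fin n) : (wheel n).Adj (some i) (some j) ↔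
    i ≠ j ∧ ((i.1 + 1) % n = j.1 ∨ (j.1 + 1) % n = i.1) := by
  unfold wheel
  rw [SimpleGraph.fromRel_adj]
  simp

private theorem arith {k i j : ℕ} (hij : i < j) (hj : j ≤ 2 * k) :
    ((i + 1) % (2 * k + 1) = j ∨ (j + 1) % (2 * k + 1) = i) ↔
      (j = i + 1 ∨ (i = 0 ∧ j = 2 * k)) := by
  have h1 : (i + 1) % (2 * k + 1) = i + 1 := Nat.mod_eq_of_lt (by omega)
  rw [h1]
  rcases Nat.lt_or_ge j (2 * k) with h | h
  · rw [Nat.mod_eq_of_lt (show j + 1 < 2 * k + 1 by omega)]
    omega
  · have h2 : j = 2 * k := by omega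
    subst h2
    rw [Nat.mod_self]
    omega

theorem d4 (h : SB H) {r : V} (hd : ∀ v, v ≠ r → H.Adj r v) :
    ∃ k, 1 ≤ k ∧ Nonempty (H ≃g wheel (2 * k + 1)) := by
  obtain ⟨k, e, hk, h1, h2, h3, h4, h5⟩ := d2 h hd
  refine ⟨k, hk, ?_⟩
  let φ : Option (Fin (2 * k + 1)) → V := fun o => o.elim r fun i => e i.1
  have hφ0 : φ none = r := rfl
  have hφ1 : ∀ i : Fin (2 * k + 1), φ (some i) = e i.1 := fun i => rfl
  have hinj : Function.Injective φ := by
    rintro (_ | i) (_ | j) hij
    · rfl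
    · rw [hφ0, hφ1] at hij
      exact absurd hij.symm (h1 j.1 (by omega))
    · rw [hφ0, hφ1] at hij
      exact absurd hij (h1 i.1 (by omega))
    · rw [hφ1, hφ1] at hij
      rw [Fin.ext (h2 i.1 (by omega) j.1 (by omega) hij)]
  have hsur : Function.Surjective φ := by
    intro v
    by_cases hv : v = r
    · exact ⟨none, hv.symm⟩
    · obtain ⟨i, hi, hi'⟩ := h5 v hv
      exact ⟨some ⟨i, by omega⟩, hi'⟩
  have key : ∀ i j : ℕ, i < j → j ≤ 2 * k →
      (H.Adj (e i) (e j) ↔ (j = i + 1 ∨ (i = 0 ∧ j = 2 * k))) := by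
    intro i j hij hj
    constructor
    · intro hadj
      exact d3 h hd h1 h2 h3 h4 h5 hij hj hadj
    · rintro (h6 | ⟨h6, h7⟩)
      · subst h6
        exact h3 i (by omega)
      · subst h6 h7
        exact h4.symm
  have hadj : ∀ a b, H.Adj (φ a) (φ b) ↔ (wheel (2 * k + 1)).Adj a b := by
    rintro (_ | i) (_ | j)
    · exact ⟨fun h6 => absurd rfl h6.ne, fun h6 => absurd h6 wheel_nn⟩
    · rw [hφ0, hφ1]
      exact ⟨fun _ => wheel_ns j, fun _ => hd _ (h1 j.1 (by omega))⟩
    · rw [hφ0, hφ1]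
      exact ⟨fun _ => (wheel_ns i).symm, fun _ => (hd _ (h1 i.1 (by omega))).symm⟩
    · rw [hφ1, hφ1, wheel_ss]
      rcases Nat.lt_trichotomy i.1 j.1 with h6 | h6 | h6
      · rw [key i.1 j.1 h6 (by omega), ← arith h6 (by omega)]
        constructor
        · intro h7
          refine ⟨fun h8 => ?_, h7⟩
          rw [h8] at h6
          exact absurd h6 (lt_irrefl _)
        · exact fun h7 => h7.2
      · constructor
        · intro h7
          rw [h6] at h7
          exact absurd rfl h7.ne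
        · intro h7
          exact absurd (Fin.ext h6) h7.1
      · rw [H.adj_comm, key j.1 i.1 h6 (by omega), ← arith h6 (by omega)]
        constructor
        · intro h7
          refine ⟨fun h8 => ?_, h7.symm⟩
          rw [h8] at h6
          exact absurd h6 (lt_irrefl _)
        · exact fun h7 => h7.2.symm
  exact ⟨(⟨Equiv.ofBijective φ ⟨hinj, hsur⟩, fun {a b} => hadj a b⟩ :
    wheel (2 * k + 1) ≃g H).symm⟩

end Pool.Agent.Work.MP_0f7328_co.TV
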