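import Pool.Agent.Work.MP_0f7328_co.TV.BigN
import Pool.Agent.Work.MP_0f7328_co.TV.Swp

/-!
The common part `P` and the common outside `O` of a family of big stable sets.

Proof. Let `f` be the perfect matching of `{x, y}ᶜ`. For every `I ∈ F` we have `nb H I = Iᶜ` (by
`big_nb`), `x, y ∈ nb H I`, and `swp` says: `f` maps `I` into `Iᶜ \ {x, y}`, and `Iᶜ \ {x, y}`
into `I`. Hence `f` maps `P` into `O \ {x, y}` and `O \ {x, y}` into `P` (`F` is nonempty, so the
elements of `P` are different from `x, y`), and both maps are injective since `f` is an involution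
off `{x, y}`. So `|P| = |O| - 2`, where `x, y ∈ O` are distinct.
-/

set_option autoImplicit false
set_option linter.unusedSectionVars false

namespace Pool.Agent.Work.MP_0f7328_co.TV

open Finset

variable {V : Type} [Fintype V] [DecidableEq V] {H : SimpleGraph V}

theorem fam_card (h : SB H) {F : Finset (Finset V)} (hF : ∀ I ∈ F, Big H I) (hne : F.Nonempty)
    {P O : Finset V} (hP : ∀ v, v ∈ P ↔ ∀ I ∈ F, v ∈ I) (hO : ∀ v, v ∈ O ↔ ∀ I ∈ F, v ∉ I)
    {x y : V} (hxy : x ≠ y) (hx : x ∈ O) (hy : y ∈ O) : O.card = P.card + 2 := by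
  obtain ⟨f, hf⟩ := h.bic x y hxy
  have hmem : ∀ v : V, v ≠ x → v ≠ y → v ∈ ({x, y} : Finset V)ᶜ := by
    intro v h1 h2
    simp [h1, h2]
  have key : ∀ I ∈ F, (∀ v ∈ I, f v ∉ I ∧ f v ≠ x ∧ f v ≠ y) ∧
      (∀ v, v ∉ I → v ≠ x → v ≠ y → f v ∈ I) := by
    intro I hI
    have hn := big_nb h (hF I hI)
    have hxI : x ∈ nb H I := by rw [hn]; exact mem_compl.2 ((hO x).1 hx I hI)
    have hyI : y ∈ nb H I := by rw [hn]; exact mem_compl.2 ((hO y).1 hy I hI)
    obtain ⟨h1, h2, -⟩ := swp (hF I hI).1 (big_card h (hF I hI)).1 hxI hyI hxy hf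
    rw [hn] at h1 h2
    exact ⟨fun v hv => ⟨mem_compl.1 (h1 v hv).1, (h1 v hv).2⟩,
      fun v hv => h2 v (mem_compl.2 hv)⟩
  obtain ⟨I₀, hI₀⟩ := hne
  have hPx : ∀ v ∈ P, v ≠ x ∧ v ≠ y := by
    intro v hv
    have h1 := (hP v).1 hv I₀ hI₀
    constructor
    · rintro rfl
      exact (hO v).1 hx I₀ hI₀ h1
    · rintro rfl
      exact (hO v).1 hy I₀ hI₀ h1
  have hcard : P.card = ((O.erase x).erase y).card := by
    apply card_nbij' f f
    · intro v hv
      rw [mem_coe] at hv ⊢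
      have h1 := (key I₀ hI₀).1 v ((hP v).1 hv I₀ hI₀)
      refine mem_erase.2 ⟨h1.2.2, mem_erase.2 ⟨h1.2.1, (hO _).2 ?_⟩⟩
      intro I hI
      exact ((key I hI).1 v ((hP v).1 hv I hI)).1
    · intro v hv
      rw [mem_coe] at hv ⊢
      rw [mem_erase, mem_erase] at hv
      refine (hP _).2 ?_
      intro I hI
      exact (key I hI).2 v ((hO v).1 hv.2.2 I hI) hv.2.1 hv.1
    · intro v hv
      rw [mem_coe] at hv
      exact (hf v (hmem v (hPx v hv).1 (hPx v hv).2)).2.1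
    · intro v hv
      rw [mem_coe, mem_erase, mem_erase] at hv
      exact (hf v (hmem v hv.2.1 hv.1)).2.1
  have h1 : ((O.erase x).erase y).card = (O.erase x).card - 1 :=
    card_erase_of_mem (mem_erase.2 ⟨hxy.symm, hy⟩)
  have h2 : (O.erase x).card = O.card - 1 := card_erase_of_mem hx
  have h3 : 0 < (O.erase x).card := card_pos.2 ⟨y, mem_erase.2 ⟨hxy.symm, hy⟩⟩
  omega

end Pool.Agent.Work.MP_0f7328_co.TV
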