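import Pool.Agent.Work.MP_0f7328_co.TV.Fam1
import Pool.Agent.Work.MP_0f7328_co.TV.ThmA

/-!
Existence of a pair of hubs.

Proof. For a nonempty finite family `F` of big stable sets let `P F` be the set of vertices in all
members and `O F` the set of vertices in no member. Consider the families for which there are
`x, r, s` with `H.Adj r s`, `H.Adj x r`, `H.Adj x s` and `r, s ∈ O F`. There is one: take any
vertex `x`, a triangle `x r s` (`ht x`), `I` from `thmA` for this triangle and `F = {I}`. Choose
such a family with `(P F).card` minimal. If `P F` is nonempty, choose `x' ∈ P F` and its triangle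
`x' r' s'`. For every `I ∈ F` we have `x' ∈ I`, so `r', s' ∉ I` by stability: `r', s' ∈ O F`. Take
`I'` from `thmA` for the triangle `x' r' s'` and `F' = insert I' F`; then `r', s' ∈ O F'`, and
`P F'` is contained in `(P F).erase x'`, smaller, a contradiction. So `P F = ∅`, and `fam_card` (with
`r ≠ s` in `O F`) gives `(O F).card = 2`, i.e. `O F = {r, s}`. For `v ≠ r, s`: `v ∉ O F` gives
`I ∈ F` with `v ∈ I`, `v ∉ P F` gives `I ∈ F` with `v ∉ I`; all members of `F` avoid `r, s`.
-/

set_option autoImplicit false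
set_option linter.unusedSectionVars false

namespace Pool.Agent.Work.MP_0f7328_co.TV

open Finset

variable {V : Type} [Fintype V] [DecidableEq V] {H : SimpleGraph V}

private theorem fam2_aux (h : SB H) (ht : ∀ v, InTri H v) : ∀ (n : ℕ) (F : Finset (Finset V)),
    (∀ I ∈ F, Big H I) → F.Nonempty → ∀ x r s, H.Adj r s → H.Adj x r → H.Adj x s →
    (∀ I ∈ F, r ∉ I) → (∀ I ∈ F, s ∉ I) →
    (univ.filter fun v => ∀ I ∈ F, v ∈ I).card = n → ∃ r s, Hub H r s := by
  intro n
  induction n using Nat.strong_induction_on with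
  | _ n ih =>
  intro F hF hne x r s hrs hxr hxs hr hs hn
  by_cases hP : (univ.filter fun v => ∀ I ∈ F, v ∈ I).Nonempty
  · obtain ⟨y, hy⟩ := hP
    have hy' : ∀ I ∈ F, y ∈ I := (mem_filter.1 hy).2
    obtain ⟨a, b, hya, hyb, hab⟩ := ht y
    obtain ⟨J, hJ, hyJ, haJ, hbJ⟩ := thmA h hya hab hyb
    refine ih _ ?_ (insert J F) ?_ (insert_nonempty _ _) y a b hab hya hyb ?_ ?_ rfl
    · rw [← hn]
      apply card_lt_card
      rw [ssubset_iff_of_subset]
      · refine ⟨y, hy, fun h1 => ?_⟩
        exact hyJ ((mem_filter.1 h1).2 J (mem_insert_self _ _))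
      · intro v hv
        rw [mem_filter] at hv ⊢
        exact ⟨hv.1, fun I hI => hv.2 I (mem_insert_of_mem hI)⟩
    · intro I hI
      rcases mem_insert.1 hI with rfl | hI
      · exact hJ
      · exact hF I hI
    · intro I hI
      rcases mem_insert.1 hI with rfl | hI
      · exact haJ
      · exact fun h1 => (hF I hI).1 y (hy' I hI) a h1 hya
    · intro I hI
      rcases mem_insert.1 hI with rfl | hI
      · exact hbJ
      · exact fun h1 => (hF I hI).1 y (hy' I hI) b h1 hyb
  · rw [not_nonempty_iff_eq_empty] at hP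
    have hO := fam_card h hF hne (P := univ.filter fun v => ∀ I ∈ F, v ∈ I)
      (O := univ.filter fun v => ∀ I ∈ F, v ∉ I) (fun v => by simp) (fun v => by simp)
      hrs.ne (by simpa using hr) (by simpa using hs)
    rw [hP, card_empty, zero_add] at hO
    have hsub : ({r, s} : Finset V) ⊆ univ.filter fun v => ∀ I ∈ F, v ∉ I := by
      intro v hv
      rw [mem_insert, mem_singleton] at hv
      rcases hv with rfl | rfl
      · simpa using hr
      · simpa using hs
    have heq : ({r, s} : Finset V) = univ.filter fun v => ∀ I ∈ F, v ∉ I := by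
      apply eq_of_subset_of_card_le hsub
      rw [hO, card_pair hrs.ne]
    refine ⟨r, s, h, ht, hrs, ⟨x, hxr.symm, hxs.symm⟩, ?_, ?_⟩
    · intro v hvr hvs
      by_contra hc
      have hv : v ∈ univ.filter fun v => ∀ I ∈ F, v ∉ I := by
        rw [mem_filter]
        exact ⟨mem_univ _, fun I hI hvI => hc ⟨I, hF I hI, hr I hI, hs I hI, hvI⟩⟩
      rw [← heq, mem_insert, mem_singleton] at hv
      rcases hv with h1 | h1
      · exact hvr h1
      · exact hvs h1
    · intro v hvr hvs
      by_contra hc
      have hv : v ∈ univ.filter fun v => ∀ I ∈ F, v ∈ I := by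
        rw [mem_filter]
        refine ⟨mem_univ _, fun I hI => ?_⟩
        by_contra hvI
        exact hc ⟨I, hF I hI, hr I hI, hs I hI, hvI⟩
      rw [hP] at hv
      exact absurd hv (notMem_empty _)

theorem exists_hub (h : SB H) (ht : ∀ v, InTri H v) : ∃ r s, Hub H r s := by
  have hc : 0 < Fintype.card V := by have := h.four; omega
  obtain ⟨x⟩ := Fintype.card_pos_iff.1 hc
  obtain ⟨a, b, hxa, hxb, hab⟩ := ht x
  obtain ⟨J, hJ, hxJ, haJ, hbJ⟩ := thmA h hxa hab hxb
  refine fam2_aux h ht _ {J} ?_ (singleton_nonempty _) x a b hab hxa hxb ?_ ?_ rfl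
  · intro I hI
    rw [mem_singleton.1 hI]
    exact hJ
  · intro I hI
    rw [mem_singleton.1 hI]
    exact haJ
  · intro I hI
    rw [mem_singleton.1 hI]
    exact hbJ

end Pool.Agent.Work.MP_0f7328_co.TV
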