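import Pool.Agent.Work.MP_0f7328_co.TV.Defs

/-!
Transport of `TwoOdd` along an isomorphism.

Proof. Given `σ, C, D` for `H` and `e : H ≃g K`, take `(e.toEquiv.symm.trans σ).trans e.toEquiv`,
i.e. `e σ e⁻¹`, and the images of `C`, `D` under `e`. (`Equiv.Perm.IsCycleOn` is transported by
`Equiv.Perm.IsCycleOn.conj` or directly.)
-/

set_option autoImplicit false
set_option linter.unusedSectionVars false

namespace Pool.Agent.Work.MP_0f7328_co.TV

open Finset

variable {V : Type} [Fintype V] [DecidableEq V] {H : SimpleGraph V}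

theorem twoOdd_iso {W : Type} [Fintype W] [DecidableEq W] {K : SimpleGraph W} (e : H ≃g K)
    (h : TwoOdd H) : TwoOdd K := by
  obtain ⟨σ, C, D, hadj, hdis, hC, hD, hcC, hcD, hrest⟩ := h
  set τ : Equiv.Perm W := (e.toEquiv.symm.trans σ).trans e.toEquiv with hτ
  have h1 : ∀ v, τ (e v) = e (σ v) := by
    intro v
    change e.toEquiv (σ (e.toEquiv.symm (e.toEquiv v))) = e.toEquiv (σ v)
    rw [Equiv.symm_apply_apply]
  have h1' : ∀ v, τ.symm (e v) = e (σ.symm v) := by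
    intro v
    rw [Equiv.symm_apply_eq, h1, Equiv.apply_symm_apply]
  have hn : ∀ (n : ℕ) v, (τ ^ n) (e v) = e ((σ ^ n) v) := by
    intro n
    induction n with
    | zero => intro v; rfl
    | succ n ih =>
      intro v
      rw [pow_succ, pow_succ, Equiv.Perm.mul_apply, Equiv.Perm.mul_apply, h1, ih]
  have hz : ∀ (i : ℤ) v, (τ ^ i) (e v) = e ((σ ^ i) v) := by
    intro i v
    cases i with
    | ofNat n => exact hn n v
    | negSucc n =>
      rw [zpow_negSucc, zpow_negSucc]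
      change (τ ^ (n + 1)).symm (e v) = e ((σ ^ (n + 1)).symm v)
      rw [Equiv.symm_apply_eq, hn, Equiv.apply_symm_apply]
  have hcyc : ∀ X : Finset V, σ.IsCycleOn X → τ.IsCycleOn (X.map e.toEquiv.toEmbedding) := by
    intro X hX
    refine ⟨⟨?_, τ.injective.injOn, ?_⟩, ?_⟩
    · intro w hw
      obtain ⟨v, hv, rfl⟩ := mem_map.1 (mem_coe.1 hw)
      exact mem_coe.2 (mem_map.2 ⟨σ v, mem_coe.1 (hX.1.mapsTo (mem_coe.2 hv)), (h1 v).symm⟩)
    · intro w hw
      obtain ⟨v, hv, rfl⟩ := mem_map.1 (mem_coe.1 hw)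
      obtain ⟨u, hu, hu'⟩ := hX.1.surjOn (mem_coe.2 hv)
      refine ⟨e u, mem_coe.2 (mem_map.2 ⟨u, mem_coe.1 hu, rfl⟩), ?_⟩
      rw [h1, hu']
      rfl
    · intro w hw w' hw'
      obtain ⟨v, hv, rfl⟩ := mem_map.1 (mem_coe.1 hw)
      obtain ⟨v', hv', rfl⟩ := mem_map.1 (mem_coe.1 hw')
      obtain ⟨i, hi⟩ := hX.2 (mem_coe.2 hv) (mem_coe.2 hv')
      exact ⟨i, by
        change (τ ^ i) (e v) = e v'
        rw [hz, hi]⟩
  refine ⟨τ, C.map e.toEquiv.toEmbedding, D.map e.toEquiv.toEmbedding, ?_, ?_, ?_, ?_,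
    hcyc C hcC, hcyc D hcD, ?_⟩
  · intro w
    obtain ⟨v, rfl⟩ := e.surjective w
    rw [h1, e.map_adj_iff]
    exact hadj v
  · exact (disjoint_map _).2 hdis
  · rw [card_map]; exact hC
  · rw [card_map]; exact hD
  · intro w hw hw'
    obtain ⟨v, rfl⟩ := e.surjective w
    rw [h1, h1, hrest v (fun h2 => hw (mem_map.2 ⟨v, h2, rfl⟩))
      (fun h2 => hw' (mem_map.2 ⟨v, h2, rfl⟩))]

end Pool.Agent.Work.MP_0f7328_co.TV
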