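import Pool.Agent.Work.MP_0f7328_co.TV.Surp
import Pool.Agent.Work.MP_0f7328_co.TV.Hall

/-!
A closed stable set is matched into its partners and the hub `r`, avoiding a prescribed vertex.

Proof. Let `Q = insert r (D.image m)`. Apply `match_of_hall` with `P = D` and target `Q.erase β`.
For `S ⊆ D` nonempty (`S = ∅` is trivial): `S` is stable, so `S.card + 2 ≤ (nb H S).card` by
`surplus`. Every `v ∈ nb H S` is `r`, or `s`, or satisfies `m v ∈ D` by `hD.clo` (`v` is adjacent to
an element of `S ⊆ D`), and then `v = m (m v) ∈ D.image m`. So `nb H S ⊆ insert s Q` and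
`(nb H S ∩ Q.erase β).card ≥ (nb H S).card - 2 ≥ S.card` (remove `s` and `β`).
-/

set_option autoImplicit false
set_option linter.unusedSectionVars false

namespace Pool.Agent.Work.MP_0f7328_co.TV

open Finset

variable {V : Type} [Fintype V] [DecidableEq V] {H : SimpleGraph V}

theorem lemQ {r s : V} {m : V → V} (h : SB H) (hm : PM H r s m) {D : Finset V}
    (hD : Clo H r s m D) (β : V) :
    ∃ φ : V → V, Set.InjOn φ D ∧
      ∀ v ∈ D, φ v ∈ (insert r (D.image m)).erase β ∧ H.Adj v (φ v) := by
  apply match_of_hall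
  intro S hS
  rcases S.eq_empty_or_nonempty with rfl | hne
  · simp
  have h1 := surplus h.bic h.four (hD.st.mono hS) hne
  have h2 : nb H S ⊆ insert β (insert s (nb H S ∩ (insert r (D.image m)).erase β)) := by
    intro v hv
    obtain ⟨w, hw, hwv⟩ := mem_nb.1 hv
    rw [mem_insert, mem_insert, mem_inter, mem_erase, mem_insert, mem_image]
    by_cases hβ : v = β
    · exact Or.inl hβ
    by_cases hs : v = s
    · exact Or.inr (Or.inl hs)
    refine Or.inr (Or.inr ⟨hv, hβ, ?_⟩)
    by_cases hr : v = r
    · exact Or.inl hr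
    · exact Or.inr ⟨m v, hD.clo w (hS hw) v hr hs hwv.symm, hm.inv v⟩
  have h3 := card_le_card h2
  have h4 := card_insert_le β (insert s (nb H S ∩ (insert r (D.image m)).erase β))
  have h5 := card_insert_le s (nb H S ∩ (insert r (D.image m)).erase β)
  omega

end Pool.Agent.Work.MP_0f7328_co.TV
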