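import Pool.Agent.Work.MP_0f7328_co.TV.BigN
import Pool.Agent.Work.MP_0f7328_co.TV.Swp

/-!
Perfect matchings and big stable sets in the presence of hubs.

`exists_PM`: from `hh.sb.bic r s` take `f` and put `m r = s`, `m s = r`, `m v = f v` otherwise.
`side`: if `v ∈ I` then `m v ∉ I` because they are adjacent. Conversely `m`, restricted to
`{r, s}ᶜ`, satisfies the hypothesis of `swp` with `x = r`, `y = s` (for `v ≠ r, s` we have
`m v ≠ r, s` by `PM.ne_r`, `PM.ne_s`), `r, s ∈ nb H I = Iᶜ` (`big_nb`); so for `v ∉ I`, `v ≠ r, s`,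
`m v ∈ I`.
-/

set_option autoImplicit false
set_option linter.unusedSectionVars false

namespace Pool.Agent.Work.MP_0f7328_co.TV

open Finset

variable {V : Type} [Fintype V] [DecidableEq V] {H : SimpleGraph V}

theorem exists_PM {r s : V} (hh : Hub H r s) : ∃ m, PM H r s m := by
  obtain ⟨f, hf⟩ := hh.sb.bic r s hh.adj.ne
  have hrs : r ≠ s := hh.adj.ne
  have hf' : ∀ v, v ≠ r → v ≠ s → f v ≠ r ∧ f v ≠ s ∧ f (f v) = v ∧ H.Adj v (f v) := by
    intro v h1 h2
    have h := hf v (by simp [h1, h2])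
    obtain ⟨h3, h4, h5⟩ := h
    simp only [mem_compl, mem_insert, mem_singleton, not_or] at h3
    exact ⟨h3.1, h3.2, h4, h5⟩
  refine ⟨fun v => if v = r then s else if v = s then r else f v, ?_, ?_, ?_⟩
  · intro v
    by_cases h1 : v = r
    · subst h1
      simp
    · by_cases h2 : v = s
      · subst h2
        simp [h1]
      · obtain ⟨h3, h4, h5, h6⟩ := hf' v h1 h2
        simp [h1, h2, h3, h4, h5]
  · intro v
    by_cases h1 : v = r
    · subst h1
      simpa using hh.adj
    · by_cases h2 : v = s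
      · subst h2
        simpa [h1] using hh.adj.symm
      · obtain ⟨h3, h4, h5, h6⟩ := hf' v h1 h2
        simpa [h1, h2] using h6
  · simp

theorem side {r s : V} {m : V → V} (hh : Hub H r s) (hm : PM H r s m) {I : Finset V}
    (hI : Big H I) (hr : r ∉ I) (hs : s ∉ I) {v : V} (h1 : v ≠ r) (h2 : v ≠ s) :
    v ∈ I ↔ m v ∉ I := by
  have hrs : r ≠ s := hh.adj.ne
  have hnb := big_nb hh.sb hI
  have hf : ∀ w ∈ ({r, s} : Finset V)ᶜ, m w ∈ ({r, s} : Finset V)ᶜ ∧ m (m w) = w ∧
      H.Adj w (m w) := by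
    intro w hw
    simp only [mem_compl, mem_insert, mem_singleton, not_or] at hw ⊢
    exact ⟨⟨hm.ne_r hw.2, hm.ne_s hw.1⟩, hm.inv w, hm.adj w⟩
  have h := swp hI.1 (big_card hh.sb hI).1 (x := r) (y := s)
    (by rw [hnb, mem_compl]; exact hr) (by rw [hnb, mem_compl]; exact hs) hrs hf
  constructor
  · intro hv hmv
    exact hI.1 v hv (m v) hmv (hm.adj v)
  · intro hmv
    by_contra hv
    exact hmv (h.2.1 v (by rw [hnb, mem_compl]; exact hv) h1 h2)

end Pool.Agent.Work.MP_0f7328_co.TV
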