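import Pool.Agent.Work.MP_0f7328_co.TV.NB2
import Pool.Agent.Work.MP_0f7328_co.TV.Side

/-!
If there is a triangle `a b c` without hubs then the graph is `Q8`.

Proof. Take `m` from `exists_PM`. `nb1` for `a`, `b`, `c` (rotate the triangle), `nb2` for `r` and
for `s` (with `hh.swap`, `hm.swap`): the neighbours of `r` are among `s, m a, m b, m c`, the
neighbours of `s` among `r, m a, m b, m c`.
Every vertex is one of `r, s, a, b, c, m a, m b, m c`: let `u` be another one, with triangle
`u v w`. `v` is not a hub (a neighbour `u ≠ s` of `r` is `m a`, `m b` or `m c`), and `w` neither. So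
`u v w` is a triangle without hubs and `nb1` gives that `m u` is adjacent to `r`; `m u ≠ s` since
`u ≠ r`; so `m u ∈ {m a, m b, m c}` by `nb2` and `u ∈ {a, b, c}`.
The eight vertices are distinct: `m` is injective, `m a ≠ b` since `b` is not adjacent to `r` and
`m a` is, etc. The isomorphism sends `r, s, m a, m b, m c, a, b, c` to `0, ..., 7`. Adjacencies: `r`
and `s` are adjacent, both are adjacent to `m a, m b, m c` and not to `a, b, c`; `m a` is adjacent
to `a, r, s` only; `a, b, c` are pairwise adjacent.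
Suggestion: define `e : Fin 8 → V` by `![r, s, m a, m b, m c, a, b, c]`, show it is bijective and
`∀ i j, H.Adj (e i) (e j) ↔ Q8.Adj i j` by `fin_cases`.
-/

set_option autoImplicit false
set_option linter.unusedSectionVars false

namespace Pool.Agent.Work.MP_0f7328_co.TV

open Finset

variable {V : Type} [Fintype V] [DecidableEq V] {H : SimpleGraph V}

private def qb (a b : Fin 8) : Bool :=
  decide (a ≠ b ∧ ((a, b) ∈ ([(0, 1), (0, 2), (0, 3), (0, 4), (1, 2), (1, 3), (1, 4),
    (5, 6), (6, 7), (5, 7), (2, 5), (3, 6), (4, 7)] : List (Fin 8 × Fin 8)) ∨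
    (b, a) ∈ ([(0, 1), (0, 2), (0, 3), (0, 4), (1, 2), (1, 3), (1, 4),
    (5, 6), (6, 7), (5, 7), (2, 5), (3, 6), (4, 7)] : List (Fin 8 × Fin 8))))

private theorem q8_adj (i j : Fin 8) : Q8.Adj i j ↔ qb i j = true := by
  simp only [Q8, SimpleGraph.fromRel_adj, qb, decide_eq_true_eq]

private theorem qb_sep : ∀ i j : Fin 8, i ≠ j →
    qb i j = true ∨ ∃ k, qb i k ≠ qb j k := by
  decide

private theorem q8_sep (i j : Fin 8) (h : i ≠ j) :
    Q8.Adj i j ∨ ∃ k, ¬ (Q8.Adj i k ↔ Q8.Adj j k) := by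
  rcases qb_sep i j h with h1 | ⟨k, hk⟩
  · exact Or.inl ((q8_adj i j).2 h1)
  · refine Or.inr ⟨k, fun h2 => hk ?_⟩
    rw [q8_adj, q8_adj] at h2
    exact Bool.eq_iff_iff.2 h2

theorem nb3 {r s : V} (hh : Hub H r s) {a b c : V} (har : a ≠ r)
    (has : a ≠ s) (hbr : b ≠ r) (hbs : b ≠ s) (hcr : c ≠ r) (hcs : c ≠ s) (hab : H.Adj a b)
    (hbc : H.Adj b c) (hac : H.Adj a c) : Nonempty (H ≃g Q8) := by
  obtain ⟨m, hm⟩ := exists_PM hh
  obtain ⟨a1, a2, a3, a4, a5, -⟩ := nb1 hh hm har has hbr hbs hcr hcs hab hbc hac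
  obtain ⟨b1, b2, b3, b4, b5, -⟩ := nb1 hh hm hbr hbs hcr hcs har has hbc hac.symm hab.symm
  obtain ⟨c1, c2, c3, c4, c5, -⟩ := nb1 hh hm hcr hcs har has hbr hbs hac.symm hab hbc.symm
  have Nr : ∀ u, H.Adj u r → u ≠ s → u = m a ∨ u = m b ∨ u = m c := fun u h1 h2 =>
    nb2 hh hm har has hbr hbs hcr hcs hab hbc hac h1 h2
  have Ns : ∀ u, H.Adj u s → u ≠ r → u = m a ∨ u = m b ∨ u = m c := fun u h1 h2 =>
    nb2 hh.swap hm.swap has har hbs hbr hcs hcr hab hbc hac h1 h2
  have all : ∀ u, u = r ∨ u = s ∨ u = m a ∨ u = m b ∨ u = m c ∨ u = a ∨ u = b ∨ u = c := by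
    intro u
    by_contra hcon
    push Not at hcon
    obtain ⟨ur, us, ua, ub, uc, ua', ub', uc'⟩ := hcon
    obtain ⟨v, w, huv, huw, hvw⟩ := hh.tri u
    have key : ∀ x, H.Adj u x → x ≠ r ∧ x ≠ s := by
      intro x hx
      refine ⟨?_, ?_⟩
      · rintro rfl
        rcases Nr u hx us with h | h | h
        · exact ua h
        · exact ub h
        · exact uc h
      · rintro rfl
        rcases Ns u hx ur with h | h | h
        · exact ua h
        · exact ub h
        · exact uc h
    have h1 := nb1 hh hm ur us (key v huv).1 (key v huv).2 (key w huw).1 (key w huw).2 huv hvw huw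
    rcases Nr (m u) h1.1 (hm.ne_s ur) with h | h | h
    · exact ua' (hm.inj h)
    · exact ub' (hm.inj h)
    · exact uc' (hm.inj h)
  have hrs := hh.adj
  have ma := hm.adj a
  have mb := hm.adj b
  have mc := hm.adj c
  have mar := hm.ne_r has
  have mas := hm.ne_s har
  have mbr := hm.ne_r hbs
  have mbs := hm.ne_s hbr
  have mcr := hm.ne_r hcs
  have mcs := hm.ne_s hcr
  have n1 : ¬ H.Adj (m a) (m b) := by
    intro h
    rcases a3 _ h with h | h | h
    · rw [h] at b1; exact a4 b1
    · exact mbr h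
    · exact mbs h
  have n2 : ¬ H.Adj (m a) (m c) := by
    intro h
    rcases a3 _ h with h | h | h
    · rw [h] at c1; exact a4 c1
    · exact mcr h
    · exact mcs h
  have n3 : ¬ H.Adj (m b) (m c) := by
    intro h
    rcases b3 _ h with h | h | h
    · rw [h] at c1; exact b4 c1
    · exact mcr h
    · exact mcs h
  have n4 : ¬ H.Adj (m a) b := by
    intro h
    rcases a3 _ h with h | h | h
    · exact hab.ne h.symm
    · exact hbr h
    · exact hbs h
  have n5 : ¬ H.Adj (m a) c := by
    intro h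
    rcases a3 _ h with h | h | h
    · exact hac.ne h.symm
    · exact hcr h
    · exact hcs h
  have n6 : ¬ H.Adj (m b) a := by
    intro h
    rcases b3 _ h with h | h | h
    · exact hab.ne h
    · exact har h
    · exact has h
  have n7 : ¬ H.Adj (m b) c := by
    intro h
    rcases b3 _ h with h | h | h
    · exact hbc.ne h.symm
    · exact hcr h
    · exact hcs h
  have n8 : ¬ H.Adj (m c) a := by
    intro h
    rcases c3 _ h with h | h | h
    · exact hac.ne h
    · exact har h
    · exact has h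
  have n9 : ¬ H.Adj (m c) b := by
    intro h
    rcases c3 _ h with h | h | h
    · exact hbc.ne h
    · exact hbr h
    · exact hbs h
  let e : Fin 8 → V := ![r, s, m a, m b, m c, a, b, c]
  have hadj : ∀ i j, H.Adj (e i) (e j) ↔ Q8.Adj i j := by
    intro i j
    fin_cases i <;> fin_cases j <;>
      simp [e, Q8, hrs, hrs.symm, ma, ma.symm, mb, mb.symm, mc, mc.symm, a1, a1.symm, a2, a2.symm,
        b1, b1.symm, b2, b2.symm, c1, c1.symm, c2, c2.symm, hab, hab.symm, hbc, hbc.symm, hac,
        hac.symm, a4, a5, b4, b5, c4, c5, n1, n2, n3, n4, n5, n6, n7, n8, n9,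
        H.adj_comm r a, H.adj_comm s a, H.adj_comm r b, H.adj_comm s b, H.adj_comm r c,
        H.adj_comm s c, H.adj_comm (m b) (m a), H.adj_comm (m c) (m a), H.adj_comm (m c) (m b),
        H.adj_comm b (m a), H.adj_comm c (m a), H.adj_comm a (m b), H.adj_comm c (m b),
        H.adj_comm a (m c), H.adj_comm b (m c)]
  have hinj : Function.Injective e := by
    intro i j hij
    by_contra hne
    rcases q8_sep i j hne with h | ⟨k, hk⟩
    · rw [← hadj, hij] at h
      exact H.loopless.irrefl _ h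
    · apply hk
      rw [← hadj, ← hadj, hij]
  have hsurj : Function.Surjective e := by
    intro u
    rcases all u with rfl | rfl | rfl | rfl | rfl | rfl | rfl | rfl
    · exact ⟨0, rfl⟩
    · exact ⟨1, rfl⟩
    · exact ⟨2, rfl⟩
    · exact ⟨3, rfl⟩
    · exact ⟨4, rfl⟩
    · exact ⟨5, rfl⟩
    · exact ⟨6, rfl⟩
    · exact ⟨7, rfl⟩
  let E : Q8 ≃g H :=
    { toEquiv := Equiv.ofBijective e ⟨hinj, hsurj⟩
      map_rel_iff' := by
        intro i j
        exact hadj i j }
  exact ⟨E.symm⟩

end Pool.Agent.Work.MP_0f7328_co.TV
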