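import Pool.Agent.Work.MP_0f7328_co.TV.Defs

/-!
`Q8` has no two disjoint odd cycles with a perfect matching of the rest.

Proof. Let `σ`, `C`, `D` be as in `TwoOdd`; both `C` and `D` are invariant under `σ`. Let
`x = {2, 3, 4}` (stable), `B = {0, 1, 5, 6, 7}`; the edges inside `B` are `01, 56, 67, 57`. As `σ`
maps `x` into `B`, exactly two elements of `B` are mapped to `B` (`B` has 5 elements, three of them
are mapped to `x`, because `σ` is a bijection). By parity each of `C`, `D` contains exactly one of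
them (`C.card` is `2 |C ∩ x|` plus the number of elements of `C ∩ B` mapped into `B`; it is odd, so
this number is 1; same for `D`). If in both `C` and `D` the element and its image are in
`{5, 6, 7}` then `{5, 6, 7}` has four elements, a contradiction (image and element are different and
in the same set). If in both they are in `{0, 1}`, again impossible. So, say, `0 ↦ 1` or `1 ↦ 0` in
`C` and `p ↦ q` in `D` with `p, q ∈ {5, 6, 7}`; `0, 1 ∈ C`. The partner `q - 3` of `q` is in `x`. The
element `σ q` is not in `B` (only one arc in `B`), so `σ q = q - 3`, and this is in `D`. Its image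
`σ (q - 3)` is in `D` and in `{0, 1, q}`, so it is `q`. But `σ p = q`, and `p ≠ q - 3`,
a contradiction to injectivity.
A computer proof (`decide`) over suitable finite data is also welcome.
-/

set_option autoImplicit false
set_option linter.unusedSectionVars false

namespace Pool.Agent.Work.MP_0f7328_co.TV

open Finset

variable {V : Type} [Fintype V] [DecidableEq V] {H : SimpleGraph V}

private instance : DecidableRel Q8.Adj := by
  unfold Q8
  infer_instance

private def xx (v : Fin 8) : Bool := decide (v = 2 ∨ v = 3 ∨ v = 4)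

private theorem f1 : ∀ a b, Q8.Adj a b → xx a = true → xx b = false := by decide

private theorem f2 : ∀ a b, Q8.Adj a b → xx a = false → xx b = false →
    (a.1 < 2 ∧ b.1 < 2) ∨ (5 ≤ a.1 ∧ 5 ≤ b.1) := by decide

private theorem f3 : ∀ a b, Q8.Adj a b → 5 ≤ a.1 → xx b = true → b.1 + 3 = a.1 := by decide

private theorem f4 : ∀ a b, Q8.Adj a b → xx a = true → b.1 < 2 ∨ b.1 = a.1 + 3 := by decide

private theorem f5 : ∀ a, xx a = false → a.1 < 2 ∨ 5 ≤ a.1 := by decide

private theorem parity (σ : Equiv.Perm (Fin 8)) (hadj : ∀ v, Q8.Adj v (σ v))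
    (C : Finset (Fin 8)) (hC : ∀ v, σ v ∈ C ↔ v ∈ C) :
    C.card = 2 * (C.filter fun v => xx v = true).card +
      (C.filter fun v => xx v = false ∧ xx (σ v) = false).card := by
  have h1 : (C.filter fun v => xx v = false ∧ xx (σ v) = true).card =
      (C.filter fun v => xx v = true).card := by
    refine card_bij (fun v _ => σ v) ?_ ?_ ?_
    · intro v hv
      rw [mem_filter] at hv ⊢
      exact ⟨(hC v).2 hv.1, hv.2.2⟩
    · intro a _ b _ hab
      exact σ.injective hab
    · intro w hw
      rw [mem_filter] at hw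
      have h2 : σ (σ.symm w) = w := σ.apply_symm_apply w
      have h3 : xx (σ.symm w) = false := f1 w _ (by
        have := hadj (σ.symm w)
        rw [h2] at this
        exact this.symm) hw.2
      refine ⟨σ.symm w, mem_filter.2 ⟨(hC _).1 (by rw [h2]; exact hw.1), h3, ?_⟩, h2⟩
      rw [h2]
      exact hw.2
  have h2 : C.card = (C.filter fun v => xx v = true).card +
      (C.filter fun v => ¬ xx v = true).card := (card_filter_add_card_filter_not _).symm
  have h3 : (C.filter fun v => ¬ xx v = true).card =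
      (C.filter fun v => xx v = false ∧ xx (σ v) = true).card +
      (C.filter fun v => xx v = false ∧ xx (σ v) = false).card := by
    rw [← card_union_of_disjoint]
    · congr 1
      ext v
      simp only [mem_filter, mem_union]
      cases xx v <;> cases xx (σ v) <;> simp
    · rw [disjoint_left]
      intro v hv hv'
      rw [mem_filter] at hv hv'
      rw [hv.2.2] at hv'
      exact absurd hv'.2.2 (by decide)
  omega

/-- the arc inside the complement of the three middle vertices -/
private theorem arc (σ : Equiv.Perm (Fin 8)) (hadj : ∀ v, Q8.Adj v (σ v))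
    (C D : Finset (Fin 8)) (hC : ∀ v, σ v ∈ C ↔ v ∈ C) (hD : ∀ v, σ v ∈ D ↔ v ∈ D)
    (hdis : Disjoint C D) {a b : Fin 8} (ha : a ∈ C) (hb : b ∈ D)
    (ha1 : a.1 < 2) (ha2 : (σ a).1 < 2) (hb1 : 5 ≤ b.1) (hb2 : 5 ≤ (σ b).1)
    (huniq : ∀ v ∈ D, xx v = false → xx (σ v) = false → v = b) : False := by
  have hq : σ b ∈ D := (hD b).2 hb
  have hne : σ b ≠ b := (hadj b).ne'
  have h5 : ∀ v : Fin 8, 5 ≤ v.1 → xx v = false := by decide
  have hqx : xx (σ (σ b)) = true := by
    by_contra hcon
    rw [Bool.not_eq_true] at hcon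
    exact hne (huniq _ hq (h5 _ hb2) hcon)
  have h3 := f3 _ _ (hadj (σ b)) hb2 hqx
  have h4 := f4 _ _ (hadj (σ (σ b))) hqx
  have hD3 : σ (σ (σ b)) ∈ D := (hD _).2 ((hD _).2 hq)
  have hσa : σ a ∈ C := (hC a).2 ha
  have hnea : σ a ≠ a := (hadj a).ne'
  have h01 : ∀ v ∈ D, ¬ v.1 < 2 := by
    intro v hv hv2
    have h6 : v = a ∨ v = σ a := by
      have h7 : (σ a).1 ≠ a.1 := fun h => hnea (Fin.ext h)
      rcases (by omega : v.1 = a.1 ∨ v.1 = (σ a).1) with h8 | h8
      · exact Or.inl (Fin.ext h8)
      · exact Or.inr (Fin.ext h8)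
    rcases h6 with h6 | h6
    · exact disjoint_left.1 hdis ha (h6 ▸ hv)
    · exact disjoint_left.1 hdis hσa (h6 ▸ hv)
  have h9 := h01 _ hD3
  have h10 : (σ (σ (σ b))).1 = (σ b).1 := by omega
  have h11 : σ (σ (σ b)) = σ b := Fin.ext h10
  have h12 : σ (σ b) = b := σ.injective h11
  rw [h12] at hqx
  rw [h5 _ hb1] at hqx
  exact absurd hqx (by decide)

theorem q8_not_twoOdd : ¬ TwoOdd Q8 := by
  rintro ⟨σ, C, D, hadj, hdis, hoC, hoD, hcC, hcD, -⟩
  have hinv : ∀ X : Finset (Fin 8), σ.IsCycleOn X → ∀ v, σ v ∈ X ↔ v ∈ X := by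
    intro X hX v
    constructor
    · intro h
      obtain ⟨u, hu, huv⟩ := hX.1.surjOn (mem_coe.2 h)
      exact σ.injective huv ▸ mem_coe.1 hu
    · intro h
      exact mem_coe.1 (hX.1.mapsTo (mem_coe.2 h))
  have hC := hinv C hcC
  have hD := hinv D hcD
  have pC := parity σ hadj C hC
  have pD := parity σ hadj D hD
  have pU := parity σ hadj univ (fun v => by simp)
  set MC := C.filter fun v => xx v = false ∧ xx (σ v) = false with hMC
  set MD := D.filter fun v => xx v = false ∧ xx (σ v) = false with hMD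
  have hx3 : ((univ : Finset (Fin 8)).filter fun v => xx v = true).card = 3 := by decide
  rw [hx3] at pU
  have hU8 : (univ : Finset (Fin 8)).card = 8 := by simp
  have hle : MC.card + MD.card ≤
      ((univ : Finset (Fin 8)).filter fun v => xx v = false ∧ xx (σ v) = false).card := by
    rw [← card_union_of_disjoint]
    · apply card_le_card
      intro v hv
      rw [mem_union, hMC, hMD, mem_filter, mem_filter] at hv
      rw [mem_filter]
      exact ⟨mem_univ _, by rcases hv with h | h <;> exact h.2⟩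
    · rw [hMC, hMD]
      exact disjoint_filter_filter hdis
  have hMC1 : MC.card = 1 := by
    obtain ⟨c, hc⟩ := hoC
    obtain ⟨d, hd⟩ := hoD
    omega
  have hMD1 : MD.card = 1 := by
    obtain ⟨c, hc⟩ := hoC
    obtain ⟨d, hd⟩ := hoD
    omega
  obtain ⟨a, ha⟩ := card_eq_one.1 hMC1
  obtain ⟨b, hb⟩ := card_eq_one.1 hMD1
  have haM : a ∈ MC := by rw [ha]; exact mem_singleton_self a
  have hbM : b ∈ MD := by rw [hb]; exact mem_singleton_self b
  rw [hMC, mem_filter] at haM
  rw [hMD, mem_filter] at hbM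
  have huC : ∀ v ∈ C, xx v = false → xx (σ v) = false → v = a := by
    intro v hv h1 h2
    have : v ∈ MC := by rw [hMC, mem_filter]; exact ⟨hv, h1, h2⟩
    rw [ha] at this
    exact mem_singleton.1 this
  have huD : ∀ v ∈ D, xx v = false → xx (σ v) = false → v = b := by
    intro v hv h1 h2
    have : v ∈ MD := by rw [hMD, mem_filter]; exact ⟨hv, h1, h2⟩
    rw [hb] at this
    exact mem_singleton.1 this
  have hsa : σ a ∈ C := (hC a).2 haM.1
  have hsb : σ b ∈ D := (hD b).2 hbM.1
  have n1 : (σ a).1 ≠ a.1 := fun h => (hadj a).ne' (Fin.ext h)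
  have n2 : (σ b).1 ≠ b.1 := fun h => (hadj b).ne' (Fin.ext h)
  have nd : ∀ u ∈ C, ∀ v ∈ D, u.1 ≠ v.1 := by
    intro u hu v hv h
    exact disjoint_left.1 hdis hu (Fin.ext h ▸ hv)
  have n3 := nd a haM.1 b hbM.1
  have n4 := nd a haM.1 _ hsb
  have n5 := nd _ hsa b hbM.1
  have n6 := nd _ hsa _ hsb
  have b1 := a.2
  have b2 := b.2
  have b3 := (σ a).2
  have b4 := (σ b).2
  rcases f2 _ _ (hadj a) haM.2.1 haM.2.2 with ⟨h1, h2⟩ | ⟨h1, h2⟩ <;>
    rcases f2 _ _ (hadj b) hbM.2.1 hbM.2.2 with ⟨h3, h4⟩ | ⟨h3, h4⟩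
  · omega
  · exact arc σ hadj C D hC hD hdis haM.1 hbM.1 h1 h2 h3 h4 huD
  · exact arc σ hadj D C hD hC hdis.symm hbM.1 haM.1 h3 h4 h1 h2 huC
  · omega

end Pool.Agent.Work.MP_0f7328_co.TV
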