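import Pool.Agent.Work.MP_0f7328_co.TV.Defs

/-!
Parity: a rotation of `X` with exactly one arc outside of the stable set `I`.

Proof. `g` is a bijection of the finite set `X`. An element `v ∈ X` satisfies `g v ∈ I` if and only
if `v ∈ X \ I` and `v ≠ z`. Hence `g` restricts to a bijection from `(X \ I).erase z` onto
`X ∩ I`, and `X.card = (X ∩ I).card + (X \ I).card = 2 * (X ∩ I).card + 1`.
-/

set_option autoImplicit false
set_option linter.unusedSectionVars false

namespace Pool.Agent.Work.MP_0f7328_co.TV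

open Finset

variable {V : Type} [Fintype V] [DecidableEq V] {H : SimpleGraph V}

theorem par {I X : Finset V} {g : V → V} {z : V} (hg : Set.InjOn g X) (hX : ∀ v ∈ X, g v ∈ X)
    (hz : z ∈ X) (hzI : z ∉ I) (hgz : g z ∉ I) (h1 : ∀ v ∈ X, v ∈ I → g v ∉ I)
    (h2 : ∀ v ∈ X, v ∉ I → v ≠ z → g v ∈ I) : Odd X.card := by
  have himg : X.image g = X := by
    apply eq_of_subset_of_card_le
    · intro u hu
      obtain ⟨v, hv, rfl⟩ := mem_image.1 hu
      exact hX v hv
    · rw [card_image_of_injOn hg]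
  have hzA : z ∈ X.filter (fun v => v ∉ I) := mem_filter.2 ⟨hz, hzI⟩
  have h3 : ((X.filter (fun v => v ∉ I)).erase z).image g = X.filter (fun v => v ∈ I) := by
    ext u
    rw [mem_image, mem_filter]
    constructor
    · rintro ⟨v, hv, rfl⟩
      rw [mem_erase, mem_filter] at hv
      exact ⟨hX v hv.2.1, h2 v hv.2.1 hv.2.2 hv.1⟩
    · rintro ⟨hu, huI⟩
      have : u ∈ X.image g := by rw [himg]; exact hu
      obtain ⟨v, hv, rfl⟩ := mem_image.1 this
      refine ⟨v, mem_erase.2 ⟨?_, mem_filter.2 ⟨hv, ?_⟩⟩, rfl⟩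
      · rintro rfl
        exact hgz huI
      · intro hvI
        exact h1 v hv hvI huI
  have h4 : (X.filter (fun v => v ∈ I)).card = (X.filter (fun v => v ∉ I)).card - 1 := by
    rw [← h3, card_image_of_injOn, card_erase_of_mem hzA]
    intro a ha b hb hab
    rw [mem_coe, mem_erase, mem_filter] at ha hb
    exact hg ha.2.1 hb.2.1 hab
  have h5 : 0 < (X.filter (fun v => v ∉ I)).card := card_pos.2 ⟨z, hzA⟩
  have h6 := card_filter_add_card_filter_not (s := X) (fun v => v ∈ I)
  refine ⟨(X.filter (fun v => v ∈ I)).card, ?_⟩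
  omega

end Pool.Agent.Work.MP_0f7328_co.TV
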