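import Pool.Agent.Work.MP_0f7328_co.TV.BigN
import Pool.Agent.Work.MP_0f7328_co.TV.Swp
import Pool.Agent.Work.MP_0f7328_co.TV.Par
import Pool.Agent.Work.MP_0f7328_co.TV.Hit

/-!
Theorem B: the complement of a big stable set contains no 4-cycle `a b c d`.

Proof. By `big_nb`, `big_card` the neighbourhood of `I` is `Iᶜ` and has `|I| + 2` elements. Let `f₁`
be the perfect matching of `{a, c}ᶜ` and `f₂` that of `{b, d}ᶜ`. By `swp`, `f₁` maps `I` injectively
into `Iᶜ \ {a, c}` and `f₂` maps `Iᶜ \ {b, d}` injectively into `I`. Define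
`σ v = f₁ v` for `v ∈ I`, `σ b = a`, `σ d = c`, `σ v = f₂ v` for the other `v`. Then `σ` is
injective (the three targets `Iᶜ \ {a, c}`, `{a, c}`, `I` are disjoint) and `v` is adjacent to
`σ v`.
Apply `hit σ _ a b d`: we get `X` and `w ∈ {b, d}` with `a, w ∈ X`. Let `g` be `σ` except that
`g w = a` (`w` is adjacent to `a` in both cases). Then `g` maps `X` to `X`, injectively: if
`σ v = a` with `v ∈ X`, `v ≠ w`, then `v = b` (as `σ b = a`), but `v ≠ b`. By `par` (with `z = w`)
`X.card` is odd. So `X` has a rotation.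
The complement: if `w = b` then `σ` itself maps `X` to `X` and hence (finite, injective) `Xᶜ` to
`Xᶜ`, a rotation of `Xᶜ`. If `w = d` then `b ∉ X` (an element `v ≠ w` of `X` is not `b`; and
`b ≠ d`), and the map `σ'` that is `σ` except `σ' d = a` and `σ' b = c` is injective on `V`, has
`v` adjacent to `σ' v`, maps `X` to `X`, hence `Xᶜ` to `Xᶜ`. In both cases `Split H`, contradicting
`h.nosplit`.
-/

set_option autoImplicit false
set_option linter.unusedSectionVars false

namespace Pool.Agent.Work.MP_0f7328_co.TV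

open Finset

variable {V : Type} [Fintype V] [DecidableEq V] {H : SimpleGraph V}

theorem thmB (h : SB H) {I : Finset V} (hI : Big H I) {a b c d : V} (ha : a ∉ I) (hb : b ∉ I)
    (hc : c ∉ I) (hd : d ∉ I) (hab : H.Adj a b) (hbc : H.Adj b c) (hcd : H.Adj c d)
    (hda : H.Adj d a) (hac : a ≠ c) (hbd : b ≠ d) : False := by
  classical
  obtain ⟨f₁, hf₁⟩ := h.bic a c hac
  obtain ⟨f₂, hf₂⟩ := h.bic b d hbd
  have hnb := big_nb h hI
  have hcd' := (big_card h hI).1
  have hmem : ∀ v, v ∈ nb H I ↔ v ∉ I := by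
    intro v
    rw [hnb, mem_compl]
  have s1 := (swp hI.1 hcd' ((hmem a).2 ha) ((hmem c).2 hc) hac hf₁).1
  have s2 := (swp hI.1 hcd' ((hmem b).2 hb) ((hmem d).2 hd) hbd hf₂).2.1
  have c1 : ∀ v ∈ I, v ∈ ({a, c} : Finset V)ᶜ := by
    intro v hv
    rw [mem_compl, mem_insert, mem_singleton, not_or]
    exact ⟨fun h1 => ha (h1 ▸ hv), fun h1 => hc (h1 ▸ hv)⟩
  have c2 : ∀ v, v ≠ b → v ≠ d → v ∈ ({b, d} : Finset V)ᶜ := by
    intro v h1 h2
    rw [mem_compl, mem_insert, mem_singleton, not_or]
    exact ⟨h1, h2⟩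
  obtain ⟨σ, hσ⟩ : ∃ σ : V → V, ∀ v, σ v = if v ∈ I then f₁ v else if v = b then a else
      if v = d then c else f₂ v := ⟨_, fun v => rfl⟩
  have e1 : ∀ v ∈ I, σ v = f₁ v := fun v hv => by rw [hσ, if_pos hv]
  have e2 : σ b = a := by rw [hσ, if_neg hb, if_pos rfl]
  have e3 : σ d = c := by rw [hσ, if_neg hd, if_neg hbd.symm, if_pos rfl]
  have e4 : ∀ v, v ∉ I → v ≠ b → v ≠ d → σ v = f₂ v := fun v h1 h2 h3 => by
    rw [hσ, if_neg h1, if_neg h2, if_neg h3]
  have m1 : ∀ v ∈ I, σ v ∉ I ∧ σ v ≠ a ∧ σ v ≠ c := by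
    intro v hv
    rw [e1 v hv]
    have h1 := s1 v hv
    exact ⟨(hmem _).1 h1.1, h1.2⟩
  have m4 : ∀ v, v ∉ I → v ≠ b → v ≠ d → σ v ∈ I := by
    intro v h1 h2 h3
    rw [e4 v h1 h2 h3]
    exact s2 v ((hmem v).2 h1) h2 h3
  have hcase : ∀ v, v ∈ I ∨ v = b ∨ v = d ∨ (v ∉ I ∧ v ≠ b ∧ v ≠ d) := by
    intro v
    tauto
  have hadj : ∀ v, H.Adj v (σ v) := by
    intro v
    rcases hcase v with h1 | rfl | rfl | ⟨h1, h2, h3⟩
    · rw [e1 v h1]
      exact (hf₁ v (c1 v h1)).2.2
    · rw [e2]
      exact hab.symm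
    · rw [e3]
      exact hcd.symm
    · rw [e4 v h1 h2 h3]
      exact (hf₂ v (c2 v h2 h3)).2.2
  have hinj : Function.Injective σ := by
    intro u v huv
    rcases hcase u with h1 | rfl | rfl | ⟨h1, h2, h3⟩ <;>
      rcases hcase v with k1 | rfl | rfl | ⟨k1, k2, k3⟩
    · rw [e1 u h1, e1 v k1] at huv
      rw [← (hf₁ u (c1 u h1)).2.1, ← (hf₁ v (c1 v k1)).2.1, huv]
    · rw [e2] at huv
      exact absurd huv (m1 u h1).2.1
    · rw [e3] at huv
      exact absurd huv (m1 u h1).2.2
    · exact absurd (huv ▸ m4 v k1 k2 k3) (m1 u h1).1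
    · rw [e2] at huv
      exact absurd huv.symm (m1 v k1).2.1
    · rfl
    · rw [e2, e3] at huv
      exact absurd huv hac
    · rw [e2] at huv
      exact absurd (huv ▸ m4 v k1 k2 k3) ha
    · rw [e3] at huv
      exact absurd huv.symm (m1 v k1).2.2
    · rw [e2, e3] at huv
      exact absurd huv.symm hac
    · rfl
    · rw [e3] at huv
      exact absurd (huv ▸ m4 v k1 k2 k3) hc
    · exact absurd (huv ▸ m4 u h1 h2 h3) (m1 v k1).1
    · rw [e2] at huv
      exact absurd (huv ▸ m4 u h1 h2 h3) ha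
    · rw [e3] at huv
      exact absurd (huv ▸ m4 u h1 h2 h3) hc
    · rw [e4 u h1 h2 h3, e4 v k1 k2 k3] at huv
      rw [← (hf₂ u (c2 u h2 h3)).2.1, ← (hf₂ v (c2 v k2 k3)).2.1, huv]
  obtain ⟨X, w, haX, hwX, hw, hstep⟩ := hit σ hinj a b d e2
  have hwa : H.Adj w a := by
    rcases hw with rfl | rfl
    · exact hab.symm
    · exact hda
  have hwI : w ∉ I := by
    rcases hw with rfl | rfl
    · exact hb
    · exact hd
  have hrot : ∃ g : V → V, Set.InjOn g X ∧ (∀ v ∈ X, g v ∈ X ∧ H.Adj v (g v)) ∧ g w = a ∧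
      ∀ v, v ≠ w → g v = σ v := by
    refine ⟨fun v => if v = w then a else σ v, ?_, ?_, ?_, ?_⟩
    · intro u hu v hv huv
      have hu' : u ∈ X := hu
      have hv' : v ∈ X := hv
      simp only at huv
      by_cases h1 : u = w <;> by_cases h2 : v = w
      · rw [h1, h2]
      · rw [if_pos h1, if_neg h2, ← e2] at huv
        exact absurd (hinj huv).symm (hstep v hv' h2).1
      · rw [if_neg h1, if_pos h2, ← e2] at huv
        exact absurd (hinj huv) (hstep u hu' h1).1
      · rw [if_neg h1, if_neg h2] at huv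
        exact hinj huv
    · intro v hv
      simp only
      by_cases h1 : v = w
      · rw [if_pos h1, h1]
        exact ⟨haX, hwa⟩
      · rw [if_neg h1]
        exact ⟨(hstep v hv h1).2.2, hadj v⟩
    · simp only [if_true]
    · intro v hv
      simp only [if_neg hv]
  obtain ⟨g, g1, g2, g3, g4⟩ := hrot
  have hodd : Odd X.card := by
    refine par (I := I) (z := w) g1 (fun v hv => (g2 v hv).1) hwX hwI (by rw [g3]; exact ha) ?_ ?_
    · intro v hv hvI
      rw [g4 v (fun h1 => hwI (h1 ▸ hvI))]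
      exact (m1 v hvI).1
    · intro v hv hvI hvw
      rw [g4 v hvw]
      have h1 := hstep v hv hvw
      exact m4 v hvI h1.1 h1.2.1
  have hτ : ∃ τ : V → V, Function.Injective τ ∧ (∀ v, H.Adj v (τ v)) ∧ ∀ v ∈ X, τ v ∈ X := by
    rcases hw with hwb | hwd
    · refine ⟨σ, hinj, hadj, fun v hv => ?_⟩
      by_cases h1 : v = b
      · rw [h1, e2]
        exact haX
      · exact (hstep v hv (by rw [hwb]; exact h1)).2.2
    · refine ⟨fun v => if v = d then a else if v = b then c else σ v, ?_, ?_, ?_⟩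
      · intro u v huv
        simp only at huv
        by_cases h1 : u = d <;> by_cases h2 : v = d
        · rw [h1, h2]
        · rw [if_pos h1, if_neg h2] at huv
          by_cases h3 : v = b
          · rw [if_pos h3] at huv
            exact absurd huv hac
          · rw [if_neg h3, ← e2] at huv
            exact absurd (hinj huv).symm h3
        · rw [if_neg h1, if_pos h2] at huv
          by_cases h3 : u = b
          · rw [if_pos h3] at huv
            exact absurd huv.symm hac
          · rw [if_neg h3, ← e2] at huv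
            exact absurd (hinj huv) h3
        · rw [if_neg h1, if_neg h2] at huv
          by_cases h3 : u = b <;> by_cases h4 : v = b
          · rw [h3, h4]
          · rw [if_pos h3, if_neg h4, ← e3] at huv
            exact absurd (hinj huv).symm h2
          · rw [if_neg h3, if_pos h4, ← e3] at huv
            exact absurd (hinj huv) h1
          · rw [if_neg h3, if_neg h4] at huv
            exact hinj huv
      · intro v
        simp only
        by_cases h1 : v = d
        · rw [if_pos h1, h1]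
          exact hda
        · rw [if_neg h1]
          by_cases h2 : v = b
          · rw [if_pos h2, h2]
            exact hbc
          · rw [if_neg h2]
            exact hadj v
      · intro v hv
        simp only
        by_cases h1 : v = d
        · rw [if_pos h1]
          exact haX
        · rw [if_neg h1]
          have h2 := hstep v hv (by rw [hwd]; exact h1)
          rw [if_neg h2.1]
          exact h2.2.2
  obtain ⟨τ, t1, t2, t3⟩ := hτ
  have hcomp : Rot H Xᶜ := by
    refine ⟨τ, t1.injOn, fun v hv => ⟨?_, t2 v⟩⟩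
    rw [mem_compl] at hv ⊢
    intro h1
    have him : X.image τ = X := by
      apply eq_of_subset_of_card_le
      · intro u hu
        obtain ⟨x, hx, rfl⟩ := mem_image.1 hu
        exact t3 x hx
      · rw [card_image_of_injective _ t1]
    rw [← him] at h1
    obtain ⟨u, hu, huv⟩ := mem_image.1 h1
    exact hv (t1 huv ▸ hu)
  exact h.nosplit ⟨X, hodd, ⟨g, g1, g2⟩, hcomp⟩

end Pool.Agent.Work.MP_0f7328_co.TV
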