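import Pool.Agent.Work.MP_0f7328_co.TV.Surp

/-!
Claw-free bicritical graphs: every vertex is in a triangle. The same if every edge is in one.

Proof. By `deg_three` the vertex `v` has three different neighbours; by claw-freeness two of them are
adjacent. For `tri_of_edges` take one neighbour `w` of `v` and a common neighbour of `v` and `w`.
-/

set_option autoImplicit false
set_option linter.unusedSectionVars false

namespace Pool.Agent.Work.MP_0f7328_co.TV

open Finset

variable {V : Type} [Fintype V] [DecidableEq V] {H : SimpleGraph V}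

theorem tri_of_claw (hb : Bicrit H) (h4 : 4 ≤ Fintype.card V) (hc : ClawFree H) (v : V) :
    InTri H v := by
  obtain ⟨a, b, c, ha, hb', hc', hab, hac, hbc⟩ := two_lt_card_iff.1 (deg_three hb h4 v)
  have key : ∀ x, x ∈ nb H ({v} : Finset V) → H.Adj v x := by
    intro x hx
    rw [mem_nb] at hx
    obtain ⟨s, hs, h⟩ := hx
    rw [mem_singleton] at hs
    exact hs ▸ h
  have ka := key a ha
  have kb := key b hb'
  have kc := key c hc'
  rcases hc v a b c ka kb kc hab hac hbc with h | h | h
  · exact ⟨a, b, ka, kb, h⟩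
  · exact ⟨a, c, ka, kc, h⟩
  · exact ⟨b, c, kb, kc, h⟩

theorem tri_of_edges (hb : Bicrit H) (h4 : 4 ≤ Fintype.card V)
    (he : ∀ u v, H.Adj u v → ∃ w, H.Adj u w ∧ H.Adj v w) (v : V) : InTri H v := by
  have h3 := deg_three hb h4 v
  obtain ⟨w, hw⟩ : (nb H ({v} : Finset V)).Nonempty := card_pos.1 (by omega)
  rw [mem_nb] at hw
  obtain ⟨s, hs, h⟩ := hw
  rw [mem_singleton] at hs
  subst hs
  obtain ⟨x, h1, h2⟩ := he _ _ h
  exact ⟨w, x, h, h1, h2⟩

end Pool.Agent.Work.MP_0f7328_co.TV
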