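import Pool.Agent.Work.MP_0f7328_co.TV.Defs

/-!
The wheel: one vertex is adjacent to all others, and the others have exactly three neighbours.

Proof. Transport along the isomorphism `e`. `r` is the preimage of the hub `none`. A rim vertex
`some i` has the neighbours `none`, `some (i + 1)`, `some (i - 1)` (modulo `2 k + 1 ≥ 3`), and these
are three different vertices.
-/

set_option autoImplicit false
set_option linter.unusedSectionVars false

namespace Pool.Agent.Work.MP_0f7328_co.TV

open Finset

variable {V : Type} [Fintype V] [DecidableEq V] {H : SimpleGraph V}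

private theorem wheel_hub (n : ℕ) (i : Fin n) : (wheel n).Adj none (some i) := by
  rw [wheel, SimpleGraph.fromRel_adj]
  exact ⟨by simp, Or.inl trivial⟩

private theorem wheel_rim (n : ℕ) (i j : Fin n) :
    (wheel n).Adj (some i) (some j) ↔ i ≠ j ∧ ((i.1 + 1) % n = j.1 ∨ (j.1 + 1) % n = i.1) := by
  rw [wheel, SimpleGraph.fromRel_adj]
  simp

private theorem mod_case {n i : ℕ} (hi : i < n) :
    (i + 1 < n ∧ (i + 1) % n = i + 1) ∨ (i + 1 = n ∧ (i + 1) % n = 0) := by
  rcases Nat.lt_or_ge (i + 1) n with h | h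
  · exact Or.inl ⟨h, Nat.mod_eq_of_lt h⟩
  · have h1 : i + 1 = n := by omega
    exact Or.inr ⟨h1, by rw [h1, Nat.mod_self]⟩

private theorem wheel_nb {n : ℕ} (hn : 3 ≤ n) (i : Fin n) :
    (nb (wheel n) ({some i} : Finset (Option (Fin n)))).card = 3 := by
  have hi := i.2
  let a : Fin n := ⟨(i.1 + 1) % n, Nat.mod_lt _ (by omega)⟩
  let b : Fin n := ⟨if i.1 = 0 then n - 1 else i.1 - 1, by split_ifs <;> omega⟩
  have hset : nb (wheel n) ({some i} : Finset (Option (Fin n))) = {none, some a, some b} := by
    ext w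
    rw [mem_nb]
    simp only [mem_singleton, exists_eq_left, mem_insert]
    cases w with
    | none => simpa using (wheel_hub n i).symm
    | some j =>
      have hj := j.2
      rw [wheel_rim]
      simp only [reduceCtorEq, Option.some.injEq, false_or, Fin.ext_iff, a, b, ne_eq]
      rcases mod_case hi with ⟨h1, h2⟩ | ⟨h1, h2⟩ <;>
        rcases mod_case hj with ⟨h3, h4⟩ | ⟨h3, h4⟩ <;> rw [h2, h4] <;> split_ifs <;> omega
  rw [hset, card_eq_three]
  refine ⟨none, some a, some b, by simp, by simp, ?_, rfl⟩
  simp only [ne_eq, Option.some.injEq, Fin.ext_iff, a, b]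
  rcases mod_case hi with ⟨h1, h2⟩ | ⟨h1, h2⟩ <;> rw [h2] <;> split_ifs <;> omega

theorem wheel_props {k : ℕ} (hk : 1 ≤ k) (e : H ≃g wheel (2 * k + 1)) :
    ∃ r, (∀ v, v ≠ r → H.Adj r v) ∧ ∀ v, v ≠ r → (nb H ({v} : Finset V)).card = 3 := by
  refine ⟨e.symm none, ?_, ?_⟩
  · intro v hv
    rw [← e.map_adj_iff, e.apply_symm_apply]
    cases hw : e v with
    | none => exact absurd (by rw [← hw, e.symm_apply_apply]) hv
    | some i => exact wheel_hub _ i
  · intro v hv
    have hmap : (nb H ({v} : Finset V)).map e.toEquiv.toEmbedding =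
        nb (wheel (2 * k + 1)) ({e v} : Finset (Option (Fin (2 * k + 1)))) := by
      ext w
      obtain ⟨u, rfl⟩ := e.surjective w
      rw [mem_nb, mem_map]
      constructor
      · rintro ⟨u', hu', hu⟩
        have h1 : u' = u := e.injective hu
        subst h1
        obtain ⟨s, hs, hsu⟩ := mem_nb.1 hu'
        rw [mem_singleton] at hs
        subst hs
        exact ⟨e s, mem_singleton_self _, e.map_adj_iff.2 hsu⟩
      · rintro ⟨s, hs, hsu⟩
        rw [mem_singleton] at hs
        subst hs
        exact ⟨u, mem_nb.2 ⟨v, mem_singleton_self _, e.map_adj_iff.1 hsu⟩, rfl⟩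
    rw [← card_map e.toEquiv.toEmbedding, hmap]
    cases hw : e v with
    | none => exact absurd (by rw [← hw, e.symm_apply_apply]) hv
    | some i => exact wheel_nb (by omega) i

end Pool.Agent.Work.MP_0f7328_co.TV
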