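import Pool.Agent.Work.MP_0f7328_co.TV.Conn

/-!
Wheels have no two disjoint odd cycles with a perfect matching of the rest.

Proof. Let `σ, C, D` be as in `TwoOdd`. As `C`, `D` are disjoint, one of them does not contain `r`;
by symmetry let it be `C` (write a private lemma). `C` is invariant under `σ` and `σ⁻¹`, and
`3 ≤ C.card`: it is odd, and `C.card = 1` is impossible as `σ` has no fixed points (`v` is adjacent
to `σ v`). For `v ∈ C`, `σ v ≠ σ⁻¹ v`: otherwise `σ (σ v) = v` and the cycle of `v`, which is `C`, has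
at most two elements. `σ v`, `σ⁻¹ v` and `r` are three different neighbours of `v` (`r ∉ C`), so
they are all the neighbours of `v` (`h3`). Hence no edge joins `C` to a vertex `u ∉ C`, `u ≠ r`. By
`conn` (with `W = C`) `C = {r}ᶜ`. So `D ⊆ {r}`, `D` is odd, `D = {r}` and `σ r = r`, a contradiction.
-/

set_option autoImplicit false
set_option linter.unusedSectionVars false

namespace Pool.Agent.Work.MP_0f7328_co.TV

open Finset

variable {V : Type} [Fintype V] [DecidableEq V] {H : SimpleGraph V}

private theorem wh_aux (hb : Bicrit H) (h4 : 4 ≤ Fintype.card V) {r : V}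
    (hd : ∀ v, v ≠ r → H.Adj r v) (h3 : ∀ v, v ≠ r → (nb H ({v} : Finset V)).card = 3)
    (σ : Equiv.Perm V) (C D : Finset V) (hadj : ∀ v, H.Adj v (σ v)) (hdis : Disjoint C D)
    (hoC : Odd C.card) (hoD : Odd D.card) (hC : σ.IsCycleOn C) (hD : σ.IsCycleOn D)
    (hr : r ∉ C) : False := by
  have hinv : ∀ X : Finset V, σ.IsCycleOn X → ∀ v, σ v ∈ X ↔ v ∈ X := by
    intro X hX v
    constructor
    · intro h
      obtain ⟨u, hu, huv⟩ := hX.1.surjOn (mem_coe.2 h)
      exact σ.injective huv ▸ mem_coe.1 hu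
    · intro h
      exact mem_coe.1 (hX.1.mapsTo (mem_coe.2 h))
  have hCi := hinv C hC
  have hDi := hinv D hD
  have hne : C.Nonempty := by
    rw [← card_pos]
    exact hoC.pos
  -- the cycle has no two-cycles
  have hss : ∀ v ∈ C, σ v ≠ σ.symm v := by
    intro v hv h
    have h2 : σ (σ v) = v := by rw [h, Equiv.apply_symm_apply]
    have hsub : C ⊆ {v, σ v} := by
      intro u hu
      obtain ⟨i, hi⟩ := hC.2 (mem_coe.2 hv) (mem_coe.2 hu)
      have hz : ∀ n : ℕ, (σ ^ n) v = v ∨ (σ ^ n) v = σ v := by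
        intro n
        induction n with
        | zero => exact Or.inl rfl
        | succ n ih =>
          rw [pow_succ', Equiv.Perm.mul_apply]
          rcases ih with ih | ih
          · right; rw [ih]
          · left; rw [ih, h2]
      have hfin : ∃ n : ℕ, (σ ^ n) v = u := by
        have hsc : σ.SameCycle v u := ⟨i, hi⟩
        obtain ⟨n, -, hn⟩ := hsc.exists_pow_eq'
        exact ⟨n, hn⟩
      obtain ⟨n, hn⟩ := hfin
      rw [mem_insert, mem_singleton, ← hn]
      exact hz n
    have hsub' : ({v, σ v} : Finset V) ⊆ C := by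
      intro u hu
      rw [mem_insert, mem_singleton] at hu
      rcases hu with rfl | rfl
      · exact hv
      · exact (hCi v).2 hv
    have heq := Subset.antisymm hsub hsub'
    rw [heq, card_pair (hadj v).ne] at hoC
    exact absurd hoC (by decide)
  have hsymm : ∀ v, H.Adj v (σ.symm v) := by
    intro v
    have := hadj (σ.symm v)
    rw [Equiv.apply_symm_apply] at this
    exact this.symm
  have hnb : ∀ v ∈ C, nb H ({v} : Finset V) = {σ v, σ.symm v, r} := by
    intro v hv
    have hvr : v ≠ r := fun h => hr (h ▸ hv)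
    symm
    refine eq_of_subset_of_card_le ?_ ?_
    · intro u hu
      rw [mem_insert, mem_insert, mem_singleton] at hu
      rw [mem_nb]
      refine ⟨v, mem_singleton_self v, ?_⟩
      rcases hu with rfl | rfl | rfl
      · exact hadj v
      · exact hsymm v
      · exact (hd v hvr).symm
    · rw [h3 v hvr]
      have h1 : σ v ∈ C := (hCi v).2 hv
      have h2 : σ.symm v ∈ C := (hCi _).1 (by rw [Equiv.apply_symm_apply]; exact hv)
      have hcard : ({σ v, σ.symm v, r} : Finset V).card = 3 := by
        rw [card_eq_three]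
        refine ⟨σ v, σ.symm v, r, hss v hv, fun h => hr ?_, fun h => hr ?_, rfl⟩
        · rw [← h]; exact h1
        · rw [← h]; exact h2
      rw [hcard]
  have hall : ∀ u, u ∉ C → u = r := by
    intro u hu
    by_contra hur
    obtain ⟨w, hw, u', hu', hur', hwu⟩ := conn hb h4 r C hne hr ⟨u, hu, hur⟩
    have h1 : u' ∈ nb H ({w} : Finset V) := mem_nb.2 ⟨w, mem_singleton_self w, hwu⟩
    rw [hnb w hw, mem_insert, mem_insert, mem_singleton] at h1
    rcases h1 with rfl | rfl | rfl
    · exact hu' ((hCi w).2 hw)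
    · exact hu' ((hCi _).1 (by rw [Equiv.apply_symm_apply]; exact hw))
    · exact hur' rfl
  obtain ⟨d, hdD⟩ : D.Nonempty := by
    rw [← card_pos]
    exact hoD.pos
  have e1 : d = r := hall d (fun h => disjoint_left.1 hdis h hdD)
  have e2 : σ d = r := hall _ (fun h => disjoint_left.1 hdis h ((hDi d).2 hdD))
  exact (hadj d).ne (e1.trans e2.symm)

theorem wheel_not_twoOdd (hb : Bicrit H) (h4 : 4 ≤ Fintype.card V) {r : V}
    (hd : ∀ v, v ≠ r → H.Adj r v) (h3 : ∀ v, v ≠ r → (nb H ({v} : Finset V)).card = 3) :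
    ¬ TwoOdd H := by
  rintro ⟨σ, C, D, hadj, hdis, hoC, hoD, hC, hD, -⟩
  by_cases hr : r ∈ C
  · exact wh_aux hb h4 hd h3 σ D C hadj hdis.symm hoD hoC hD hC (disjoint_left.1 hdis hr)
  · exact wh_aux hb h4 hd h3 σ C D hadj hdis hoC hoD hC hD hr

end Pool.Agent.Work.MP_0f7328_co.TV
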