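import Pool.Agent.Work.MP_0f7328_co.TV.Fam2
import Pool.Agent.Work.MP_0f7328_co.TV.NB3
import Pool.Agent.Work.MP_0f7328_co.TV.B5
import Pool.Agent.Work.MP_0f7328_co.TV.D4
import Pool.Agent.Work.MP_0f7328_co.TV.ThmB
import Pool.Agent.Work.MP_0f7328_co.TV.IsoT
import Pool.Agent.Work.MP_0f7328_co.TV.Q8S
import Pool.Agent.Work.MP_0f7328_co.TV.WhI
import Pool.Agent.Work.MP_0f7328_co.TV.WhS
import Pool.Agent.Work.MP_0f7328_co.TV.Bar2
import Pool.Agent.Work.MP_0f7328_co.TV.SplT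
import Pool.Agent.Work.MP_0f7328_co.TV.Tri3
import Pool.Agent.Work.MP_0f7328_co.TV.CorC

/-!
Solid bricks all of whose vertices lie in triangles.
-/

set_option autoImplicit false
set_option linter.unusedSectionVars false

namespace Pool.Agent.Work.MP_0f7328_co.TV

open Finset

variable {V : Type} [Fintype V] [DecidableEq V] {H : SimpleGraph V}

theorem classify (h : SB H) (ht : ∀ v, InTri H v) :
    (∃ k, 1 ≤ k ∧ Nonempty (H ≃g wheel (2 * k + 1))) ∨ Nonempty (H ≃g Q8) := by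
  obtain ⟨r, s, hh⟩ := exists_hub h ht
  by_cases hT : ∀ a b c, a ≠ r → a ≠ s → b ≠ r → b ≠ s → c ≠ r → c ≠ s → H.Adj a b → H.Adj b c →
      H.Adj a c → False
  · left
    rcases b5 hh hT with hd | hd
    · exact d4 h hd
    · exact d4 h hd
  · right
    push Not at hT
    obtain ⟨a, b, c, h1, h2, h3, h4, h5, h6, h7, h8, h9, -⟩ := hT
    exact nb3 hh h1 h2 h3 h4 h5 h6 h7 h8 h9

theorem sb_of_brick {E : Type} {G : MGraph V E} (hG : G.IsBrick) (hs : G.Solid) :
    SB G.simple := by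
  refine ⟨bicrit_of_brick hG, fun h => ?_, four_le hG⟩
  obtain ⟨τ, hτ⟩ := exists_pm hG.1
  exact (solid_iff G hG).1 hs (twoOdd_of_split h hτ)

theorem solid_of_wheel {E : Type} {G : MGraph V E} (hG : G.IsBrick) {k : ℕ} (hk : 1 ≤ k)
    (e : G.simple ≃g wheel (2 * k + 1)) : G.Solid := by
  obtain ⟨r, h1, h2⟩ := wheel_props hk e
  exact (solid_iff G hG).2 (wheel_not_twoOdd (bicrit_of_brick hG) (four_le hG) h1 h2)

theorem solid_of_q8 {E : Type} {G : MGraph V E} (hG : G.IsBrick)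
    (e : G.simple ≃g Q8) : G.Solid :=
  (solid_iff G hG).2 fun h => q8_not_twoOdd (twoOdd_iso e h)

theorem main {E : Type} {G : MGraph V E} (hG : G.IsBrick) (ht : ∀ v, InTri G.simple v) :
    G.Solid ↔ (∃ k, 1 ≤ k ∧ Nonempty (G.simple ≃g wheel (2 * k + 1))) ∨
      Nonempty (G.simple ≃g Q8) := by
  constructor
  · exact fun hs => classify (sb_of_brick hG hs) ht
  · rintro (⟨k, hk, ⟨e⟩⟩ | h)
    · exact solid_of_wheel hG hk e
    · exact solid_of_q8 hG h.some

theorem main_edges {E : Type} {G : MGraph V E} (hG : G.IsBrick)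
    (he : ∀ u v, G.simple.Adj u v → ∃ w, G.simple.Adj u w ∧ G.simple.Adj v w) :
    G.Solid ↔ ∃ k, 1 ≤ k ∧ Nonempty (G.simple ≃g wheel (2 * k + 1)) := by
  rw [main hG fun v => tri_of_edges (bicrit_of_brick hG) (four_le hG) he v]
  constructor
  · rintro (h | h)
    · exact h
    · exact absurd he (q8_edge h.some)
  · exact Or.inl

theorem main_claw {E : Type} {G : MGraph V E} (hG : G.IsBrick) (hc : ClawFree G.simple) :
    G.Solid ↔ Nonempty (G.simple ≃g wheel 3) ∨ Nonempty (G.simple ≃g wheel 5) := by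
  rw [main hG fun v => tri_of_claw (bicrit_of_brick hG) (four_le hG) hc v]
  constructor
  · rintro (⟨k, hk, ⟨e⟩⟩ | h)
    · have h2 := wheel_claw e hc
      interval_cases k
      · exact Or.inl ⟨e⟩
      · exact Or.inr ⟨e⟩
    · exact absurd hc (q8_claw h.some)
  · rintro (h | h)
    · exact Or.inl ⟨1, le_refl _, h⟩
    · exact Or.inl ⟨2, by omega, h⟩

theorem main_dom {E : Type} {G : MGraph V E} (hG : G.IsBrick)
    (hd : ∃ r, ∀ v, v ≠ r → G.simple.Adj r v) :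
    G.Solid ↔ ∃ k, 1 ≤ k ∧ Nonempty (G.simple ≃g wheel (2 * k + 1)) := by
  obtain ⟨r, hr⟩ := hd
  constructor
  · exact fun hs => d4 (sb_of_brick hG hs) hr
  · rintro ⟨k, hk, ⟨e⟩⟩
    exact solid_of_wheel hG hk e

theorem main_stable {E : Type} {G : MGraph V E} (hG : G.IsBrick) (hs : G.Solid) {a b c : V}
    (hab : G.simple.Adj a b) (hbc : G.simple.Adj b c) (hac : G.simple.Adj a c) :
    ∃ I : Finset V, Stable G.simple I ∧ 2 * I.card + 2 = Fintype.card V ∧
      a ∉ I ∧ b ∉ I ∧ c ∉ I := by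
  obtain ⟨I, h1, h2⟩ := thmA (sb_of_brick hG hs) hab hbc hac
  exact ⟨I, h1.1, h1.2, h2⟩

theorem main_four {E : Type} {G : MGraph V E} (hG : G.IsBrick) (hs : G.Solid) {I : Finset V}
    (hI : Stable G.simple I) (hc : 2 * I.card + 2 = Fintype.card V) {a b c d : V} (ha : a ∉ I)
    (hb : b ∉ I) (hc' : c ∉ I) (hd : d ∉ I) (hab : G.simple.Adj a b) (hbc : G.simple.Adj b c)
    (hcd : G.simple.Adj c d) (hda : G.simple.Adj d a) (hac : a ≠ c) (hbd : b ≠ d) : False :=
  thmB (sb_of_brick hG hs) ⟨hI, hc⟩ ha hb hc' hd hab hbc hcd hda hac hbd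

end Pool.Agent.Work.MP_0f7328_co.TV
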