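import Pool.Agent.Work.MP_0f7328_co.TV.NBd
import Pool.Agent.Work.MP_0f7328_co.TV.LemP
import Pool.Agent.Work.MP_0f7328_co.TV.Glue
import Pool.Agent.Work.MP_0f7328_co.TV.Cb

/-!
A triangle `a b c` without hubs: the partner `m a` of `a` is adjacent to exactly `a`, `r`, `s`, and
`a` is not adjacent to the hubs.

Proof. Let `C = cl (m a)` and `D = cl (m b) ∪ cl (m c)`, both `Clo` (`cl_clo`, `nb_clo`). By
`nb_disj` (for `a b c` and `a c b`) the sets `C ∪ C.image m` and `D ∪ D.image m` are disjoint.
(1) `insert s (C.image m)` contains no edge `p q`: otherwise `lemP` for the pair of hubs `(s, r)`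
(use `hm.swap`, `Clo.swap`) gives that `X = insert s (C ∪ C.image m)` is odd with a rotation, and
`lemP` for `(r, s)`, `D` and the edge `b c` (`b = m (m b) ∈ D.image m`, same for `c`) gives a
rotation of `Y = insert r (D ∪ D.image m)`. `X, Y` are disjoint, and `v ∉ X ∪ Y` implies
`m v ∉ X ∪ Y` (`m v = s` iff `v = r`, `m v ∈ C` iff `v ∈ C.image m`, ...). This contradicts `glue`.
In the same way (hubs exchanged, `Hub.swap`, `cl_swap`) `insert r (C.image m)` contains no edge.
(2) Every `u ∈ C` is adjacent to `r` and to `s`: let `u v w` be its triangle (`hh.tri u`). A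
neighbour `v ≠ r, s` of `u ∈ C` has `m v ∈ C`, so `v ∈ C.image m`. So if `v` or `w` is not a hub
then `v, w ∈ insert r (C.image m)` or `v, w ∈ insert s (C.image m)`, except when `{v, w} = {r, s}`;
an edge inside is impossible by (1). So `{v, w} = {r, s}`.
(3) `C = {m a}`: let `u ∈ C`, `u ≠ m a`. By (2) both are common neighbours of `r, s`. `hh.non u`
gives a big `I` avoiding the hubs and `u`; then `m a ∉ I` (else `u ∈ I` as `u ∈ cl (m a)`). This
contradicts `cb`.
(4) A neighbour `v ≠ r, s` of `m a` has `m v ∈ C = {m a}`, so `v = a`. And `a = m (m a)` lies in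
`C.image m`, so by (1) it is not adjacent to `s` nor to `r`.
-/

set_option autoImplicit false
set_option linter.unusedSectionVars false

namespace Pool.Agent.Work.MP_0f7328_co.TV

open Finset

variable {V : Type} [Fintype V] [DecidableEq V] {H : SimpleGraph V}

private theorem nb1_key {r s : V} {m : V → V} (hh : Hub H r s) (hm : PM H r s m) {a b c : V}
    (har : a ≠ r) (has : a ≠ s) (hbr : b ≠ r) (hbs : b ≠ s) (hcr : c ≠ r) (hcs : c ≠ s)
    (hab : H.Adj a b) (hbc : H.Adj b c) (hac : H.Adj a c) :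
    ∀ p ∈ insert s ((cl H r s (m a)).image m), ∀ q ∈ insert s ((cl H r s (m a)).image m),
      ¬ H.Adj p q := by
  intro p hp q hq hpq
  have hmar : m a ≠ r := hm.ne_r has
  have hmas : m a ≠ s := hm.ne_s har
  have hC : Clo H r s m (cl H r s (m a)) := cl_clo hh hm hmar hmas
  have hD : Clo H r s m (cl H r s (m b) ∪ cl H r s (m c)) :=
    nb_clo hh hm har has hbr hbs hcr hcs hab hbc hac
  have hdis : ∀ v ∈ cl H r s (m a), v ∉ cl H r s (m b) ∪ cl H r s (m c) ∧
      m v ∉ cl H r s (m b) ∪ cl H r s (m c) := by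
    intro v hv
    have h1 := nb_disj hh hm har has hbr hbs hcr hcs hab hbc hac hv
    have h2 := nb_disj hh hm har has hcr hcs hbr hbs hac hbc.symm hab hv
    rw [mem_union, mem_union, not_or, not_or]
    exact ⟨⟨h1.1, h2.1⟩, h1.2, h2.2⟩
  set C := cl H r s (m a) with hCdef
  set D := cl H r s (m b) ∪ cl H r s (m c) with hDdef
  obtain ⟨oX, rX⟩ := lemP hh.sb hm.swap hC.swap hp hq hpq
  have hbD : b ∈ insert r (D.image m) := by
    rw [mem_insert, mem_image]
    exact Or.inr ⟨m b, mem_union_left _ (self_mem_cl _ _ _), hm.inv b⟩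
  have hcD : c ∈ insert r (D.image m) := by
    rw [mem_insert, mem_image]
    exact Or.inr ⟨m c, mem_union_right _ (self_mem_cl _ _ _), hm.inv c⟩
  obtain ⟨_, rY⟩ := lemP hh.sb hm hD hbD hcD hbc
  refine glue hh.sb hm oX rX rY ?_ ?_
  · rw [disjoint_left]
    intro v hvX hvY
    rw [mem_insert, mem_union, mem_image] at hvX hvY
    rcases hvX with rfl | hvC | ⟨u, hu, rfl⟩
    · rcases hvY with h | h | ⟨d, hd, h⟩
      · exact hh.adj.ne h.symm
      · exact hD.ns h
      · have : d = r := by
          rw [← hm.inv d, h, hm.hub']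
        exact hD.nr (this ▸ hd)
    · rcases hvY with h | h | ⟨d, hd, h⟩
      · exact hC.nr (h ▸ hvC)
      · exact (hdis v hvC).1 h
      · refine (hdis v hvC).2 ?_
        rw [← h, hm.inv]
        exact hd
    · rcases hvY with h | h | ⟨d, hd, h⟩
      · have : u = s := by
          rw [← hm.inv u, h, hm.hub]
        exact hC.ns (this ▸ hu)
      · exact (hdis u hu).2 h
      · have := hm.inj h
        exact (hdis u hu).1 (this ▸ hd)
  · intro v hvX hvY
    rw [mem_insert, mem_union, mem_image, not_or, not_or] at hvX hvY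
    rw [mem_insert, mem_union, mem_image, mem_insert, mem_union, mem_image]
    constructor
    · rintro (h | h | ⟨u, hu, h⟩)
      · refine hvY.1 ?_
        rw [← hm.inv v, h, hm.hub']
      · exact hvX.2.2 ⟨m v, h, hm.inv v⟩
      · have := hm.inj h
        exact hvX.2.1 (this ▸ hu)
    · rintro (h | h | ⟨u, hu, h⟩)
      · refine hvX.1 ?_
        rw [← hm.inv v, h, hm.hub]
      · exact hvY.2.2 ⟨m v, h, hm.inv v⟩
      · have := hm.inj h
        exact hvY.2.1 (this ▸ hu)

theorem nb1 {r s : V} {m : V → V} (hh : Hub H r s) (hm : PM H r s m) {a b c : V} (har : a ≠ r)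
    (has : a ≠ s) (hbr : b ≠ r) (hbs : b ≠ s) (hcr : c ≠ r) (hcs : c ≠ s) (hab : H.Adj a b)
    (hbc : H.Adj b c) (hac : H.Adj a c) :
    H.Adj (m a) r ∧ H.Adj (m a) s ∧ (∀ v, H.Adj (m a) v → v = a ∨ v = r ∨ v = s) ∧
      ¬ H.Adj a r ∧ ¬ H.Adj a s ∧ cl H r s (m a) = {m a} := by
  have hmar : m a ≠ r := hm.ne_r has
  have hmas : m a ≠ s := hm.ne_s har
  have hC : Clo H r s m (cl H r s (m a)) := cl_clo hh hm hmar hmas
  have hEs := nb1_key hh hm har has hbr hbs hcr hcs hab hbc hac
  have hEr := nb1_key hh.swap hm.swap has har hbs hbr hcs hcr hab hbc hac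
  rw [cl_swap] at hEr
  set C := cl H r s (m a) with hCdef
  have himg : ∀ u ∈ C, ∀ v, v ≠ r → v ≠ s → H.Adj u v → v ∈ C.image m := by
    intro u hu v h1 h2 h3
    rw [mem_image]
    exact ⟨m v, hC.clo u hu v h1 h2 h3.symm, hm.inv v⟩
  have hadj : ∀ u ∈ C, H.Adj u r ∧ H.Adj u s := by
    intro u hu
    obtain ⟨v, w, hv, hw, hvw⟩ := hh.tri u
    by_cases hvr : v = r
    · by_cases hws : w = s
      · exact ⟨hvr ▸ hv, hws ▸ hw⟩
      · have hwr : w ≠ r := by
          rintro rfl
          exact hvw.ne hvr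
        exact (hEr v (by rw [hvr]; exact mem_insert_self _ _) w
          (mem_insert_of_mem (himg u hu w hwr hws hw)) hvw).elim
    by_cases hvs : v = s
    · by_cases hwr : w = r
      · exact ⟨hwr ▸ hw, hvs ▸ hv⟩
      · have hws : w ≠ s := by
          rintro rfl
          exact hvw.ne hvs
        exact (hEs v (by rw [hvs]; exact mem_insert_self _ _) w
          (mem_insert_of_mem (himg u hu w hwr hws hw)) hvw).elim
    have hvi := himg u hu v hvr hvs hv
    by_cases hwr : w = r
    · exact (hEr v (mem_insert_of_mem hvi) w (by rw [hwr]; exact mem_insert_self _ _) hvw).elim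
    by_cases hws : w = s
    · exact (hEs v (mem_insert_of_mem hvi) w (by rw [hws]; exact mem_insert_self _ _) hvw).elim
    exact (hEs v (mem_insert_of_mem hvi) w
      (mem_insert_of_mem (himg u hu w hwr hws hw)) hvw).elim
  have hself : m a ∈ C := self_mem_cl _ _ _
  have hsing : C = {m a} := by
    ext u
    rw [mem_singleton]
    constructor
    · intro hu
      by_contra hne
      have hur : u ≠ r := fun h => hC.nr (h ▸ hu)
      have hus : u ≠ s := fun h => hC.ns (h ▸ hu)
      obtain ⟨I, hI, hIr, hIs, huI⟩ := hh.non u hur hus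
      have hmaI : m a ∉ I := fun h => huI (mem_cl.1 hu I hI hIr hIs h)
      exact huI (cb hh (Ne.symm hne) (hadj _ hself).1.symm (hadj _ hself).2.symm
        (hadj _ hu).1.symm (hadj _ hu).2.symm hI hIr hIs hmaI)
    · rintro rfl
      exact hself
  have haimg : a ∈ C.image m := by
    rw [mem_image]
    exact ⟨m a, hself, hm.inv a⟩
  refine ⟨(hadj _ hself).1, (hadj _ hself).2, fun v hv => ?_, fun h => ?_, fun h => ?_, hsing⟩
  · by_contra hc'
    push Not at hc'
    obtain ⟨h1, h2, h3⟩ := hc'
    have h4 := hC.clo (m a) hself v h2 h3 hv.symm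
    rw [hsing, mem_singleton] at h4
    exact h1 (hm.inj h4)
  · exact hEr a (mem_insert_of_mem haimg) r (mem_insert_self _ _) h
  · exact hEs a (mem_insert_of_mem haimg) s (mem_insert_self _ _) h

end Pool.Agent.Work.MP_0f7328_co.TV
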