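import Pool.Agent.Work.MP_0f7328_co.TV.NB1
import Pool.Agent.Work.MP_0f7328_co.TV.LemQ
import Pool.Agent.Work.MP_0f7328_co.TV.Glue

/-!
If there is a triangle `a b c` without hubs then the neighbours of the hub `r` are `s` and the
partners `m a`, `m b`, `m c`.

Proof. `nb1` holds for `a`, for `b` (triangle `b c a`) and for `c`. Let `x₁ = m a`, `x₂ = m b`,
`x₃ = m c`; `a₁, a₂, a₃ = a, b, c`. Suppose `u` is adjacent to `r`, `u ≠ s`, `u ≠ x₁, x₂, x₃`.
Then `u ≠ a, b, c`. Let `C = cl (m u)`, a `Clo` set with `m u ∈ C`. Take `φ` from `lemQ` for `D = C`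
and `β = u`: injective on `C`, `φ v ∈ insert r (C.image m)`, `φ v ≠ u`, `φ v` adjacent to `v`.
Let `C' = {v ∈ C : φ v ≠ m v}` and `X = insert r (C' ∪ C'.image m)`. As `C`, `C.image m` are
disjoint and do not contain `r`, `X.card = 2 * C'.card + 1` is odd. Rotation of `X`: `g v = φ v` for
`v ∈ C'`, `g v = m v` for `v ∈ C'.image m`, `g r = u`. It maps `X` to `X`: if `v ∈ C'` and
`φ v ≠ r` then `φ v = m v'` with `v' ∈ C`, and `v' ∈ C'`, for `φ v' = m v' = φ v` would give
`v = v'`, `φ v = m v`; and `u = m (m u)` with `m u ∈ C'` because `φ (m u) ≠ u`. It is injective: on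
`C'` its values are in `insert r (C'.image m)` and not `u`, on `C'.image m` they are in `C'`.
At most one `xⱼ` is in `C'`: if `xⱼ ∈ C'` then `φ xⱼ` is adjacent to `xⱼ`, so it is `aⱼ = m xⱼ`,
`r` or `s`; it is not `m xⱼ`, not `s` (`s ∉ insert r (C.image m)`), so `φ xⱼ = r`; `φ` is injective.
No `aⱼ` is in `C`: `aⱼ ∈ cl (m u)` would give by `cl_dual` `u ∈ cl (m aⱼ) = {xⱼ}`.
So there are `i ≠ l` with `xᵢ, xₗ ∉ C'` (and `aᵢ, aₗ ∉ C'`), hence `xᵢ, aᵢ, xₗ, aₗ ∉ X`. The set
`Y = {s, xᵢ, aᵢ, aₗ, xₗ}` is a 5-cycle in this order, so it has a rotation; `X, Y` are disjoint and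
`v ∉ X ∪ Y` implies `m v ∉ X ∪ Y`. This contradicts `glue`. (Write a private lemma for given `i, l`,
i.e. for two adjacent vertices `p, q` with `m p, m q ∉ C'`, and use it three times.)
-/

set_option autoImplicit false
set_option linter.unusedSectionVars false

namespace Pool.Agent.Work.MP_0f7328_co.TV

open Finset

variable {V : Type} [Fintype V] [DecidableEq V] {H : SimpleGraph V}

private theorem nb2_rotY {s x y z w : V} (h1 : H.Adj s x) (h2 : H.Adj x y) (h3 : H.Adj y z)
    (h4 : H.Adj z w) (h5 : H.Adj w s) (n1 : s ≠ y) (n2 : s ≠ z) (n3 : x ≠ z) (n4 : x ≠ w)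
    (n5 : y ≠ w) : Rot H ({s, x, y, z, w} : Finset V) := by
  have m1 := h1.ne
  have m2 := h2.ne
  have m3 := h3.ne
  have m4 := h4.ne
  have m5 := h5.ne
  let f : V → V := fun v => if v = s then x else if v = x then y else if v = y then z else
    if v = z then w else s
  have e1 : f s = x := if_pos rfl
  have e2 : f x = y := by
    change (if x = s then x else if x = x then y else _) = y
    rw [if_neg m1.symm, if_pos rfl]
  have e3 : f y = z := by
    change (if y = s then x else if y = x then y else if y = y then z else _) = z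
    rw [if_neg n1.symm, if_neg m2.symm, if_pos rfl]
  have e4 : f z = w := by
    change (if z = s then x else if z = x then y else if z = y then z else
      if z = z then w else s) = w
    rw [if_neg n2.symm, if_neg n3.symm, if_neg m3.symm, if_pos rfl]
  have e5 : f w = s := by
    change (if w = s then x else if w = x then y else if w = y then z else
      if w = z then w else s) = s
    rw [if_neg m5, if_neg n4.symm, if_neg n5.symm, if_neg m4.symm]
  refine ⟨f, ?_, ?_⟩
  · intro a ha b hb hab
    simp only [coe_insert, coe_singleton, Set.mem_insert_iff, Set.mem_singleton_iff] at ha hb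
    rcases ha with rfl | rfl | rfl | rfl | rfl <;> rcases hb with rfl | rfl | rfl | rfl | rfl <;>
      simp only [e1, e2, e3, e4, e5] at hab <;>
      first
        | rfl
        | exact absurd hab m1
        | exact absurd hab.symm m1
        | exact absurd hab m2
        | exact absurd hab.symm m2
        | exact absurd hab m3
        | exact absurd hab.symm m3
        | exact absurd hab m4
        | exact absurd hab.symm m4
        | exact absurd hab m5
        | exact absurd hab.symm m5
        | exact absurd hab n1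
        | exact absurd hab.symm n1
        | exact absurd hab n2
        | exact absurd hab.symm n2
        | exact absurd hab n3
        | exact absurd hab.symm n3
        | exact absurd hab n4
        | exact absurd hab.symm n4
        | exact absurd hab n5
        | exact absurd hab.symm n5
  · intro v hv
    simp only [mem_insert, mem_singleton] at hv ⊢
    rcases hv with rfl | rfl | rfl | rfl | rfl
    · rw [e1]; exact ⟨Or.inr (Or.inl rfl), h1⟩
    · rw [e2]; exact ⟨Or.inr (Or.inr (Or.inl rfl)), h2⟩
    · rw [e3]; exact ⟨Or.inr (Or.inr (Or.inr (Or.inl rfl))), h3⟩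
    · rw [e4]; exact ⟨Or.inr (Or.inr (Or.inr (Or.inr rfl))), h4⟩
    · rw [e5]; exact ⟨Or.inl rfl, h5⟩

private theorem nb2_glue {r s : V} {m : V → V} (hh : Hub H r s) (hm : PM H r s m) {u : V}
    (hu : H.Adj u r) {C : Finset V} (hC : Clo H r s m C) (huC : m u ∈ C) {φ : V → V}
    (hi : Set.InjOn φ C)
    (hφ : ∀ v ∈ C, φ v ∈ (insert r (C.image m)).erase u ∧ H.Adj v (φ v)) {p q : V} (hpr : p ≠ r)
    (hps : p ≠ s) (hqr : q ≠ r) (hqs : q ≠ s) (hpq : H.Adj p q) (hxp : H.Adj (m p) s)
    (hxq : H.Adj (m q) s) (hpC : p ∉ C) (hqC : q ∉ C) (hpq' : m p ≠ q)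
    (hp' : ¬ (m p ∈ C ∧ φ (m p) ≠ m (m p))) (hq' : ¬ (m q ∈ C ∧ φ (m q) ≠ m (m q))) : False := by
  have hdis : ∀ v ∈ C, m v ∉ C := fun v hv hv' => hC.st v hv (m v) hv' (hm.adj v)
  have hrs : r ≠ s := hh.adj.ne
  set C' : Finset V := C.filter (fun v => φ v ≠ m v) with hC'
  have memC' : ∀ v, v ∈ C' ↔ v ∈ C ∧ φ v ≠ m v := fun v => by rw [hC', mem_filter]
  have hsub : ∀ v, v ∈ C' → v ∈ C := fun v hv => ((memC' v).1 hv).1
  have memI : ∀ v, v ∈ C'.image m ↔ m v ∈ C' := by
    intro v
    rw [mem_image]
    constructor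
    · rintro ⟨w, hw, rfl⟩
      rw [hm.inv]; exact hw
    · intro h
      exact ⟨m v, h, hm.inv v⟩
  have memIC : ∀ v, v ∈ C.image m ↔ m v ∈ C := by
    intro v
    rw [mem_image]
    constructor
    · rintro ⟨w, hw, rfl⟩
      rw [hm.inv]; exact hw
    · intro h
      exact ⟨m v, h, hm.inv v⟩
  have hrC : r ∉ C := hC.nr
  have hsC : s ∉ C := hC.ns
  have hmr : m r ∉ C := by rw [hm.hub]; exact hsC
  have hms : m s ∉ C := by rw [hm.hub']; exact hrC
  have memX : ∀ v, v ∈ insert r (C' ∪ C'.image m) ↔ v = r ∨ v ∈ C' ∨ m v ∈ C' := by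
    intro v
    rw [mem_insert, mem_union, memI]
  have huC' : m u ∈ C' := by
    rw [memC']
    refine ⟨huC, ?_⟩
    rw [hm.inv]
    exact (mem_erase.1 (hφ _ huC).1).1
  -- cardinality
  have hcard : (insert r (C' ∪ C'.image m)).card = 2 * C'.card + 1 := by
    rw [card_insert_of_notMem, card_union_of_disjoint, card_image_of_injOn]
    · ring
    · intro a _ b _ hab
      exact hm.inj hab
    · rw [disjoint_left]
      intro v hv hv'
      rw [memI] at hv'
      exact hdis v (hsub v hv) (hsub _ hv')
    · rw [mem_union, memI]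
      rintro (h | h)
      · exact hrC (hsub _ h)
      · exact hmr (hsub _ h)
  have hodd : Odd (insert r (C' ∪ C'.image m)).card := by
    rw [hcard]; exact ⟨C'.card, rfl⟩
  -- rotation of X
  have rX : Rot H (insert r (C' ∪ C'.image m)) := by
    refine ⟨fun v => if v ∈ C' then φ v else if v = r then u else m v, ?_, ?_⟩
    · intro a ha b hb hab
      rw [mem_coe, memX] at ha hb
      simp only at hab
      have key : ∀ x y, x ∈ C' → (y = r ∨ m y ∈ C') → y ∉ C' →
          (if y ∈ C' then φ y else if y = r then u else m y) ≠ φ x := by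
        intro x y hx hy hy'
        rw [if_neg hy']
        have hx2 := (hφ x (hsub x hx)).1
        rw [mem_erase, mem_insert, memIC] at hx2
        by_cases hyr : y = r
        · rw [if_pos hyr]
          exact fun h => hx2.1 h.symm
        · rw [if_neg hyr]
          intro h
          have hy2 : m y ∈ C := hsub _ (hy.resolve_left hyr)
          rw [h] at hy2
          rcases hx2.2 with h3 | h3
          · rw [h3] at hy2; exact hrC hy2
          · exact hdis _ hy2 h3
      by_cases h1 : a ∈ C' <;> by_cases h2 : b ∈ C'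
      · rw [if_pos h1, if_pos h2] at hab
        exact hi (hsub a h1) (hsub b h2) hab
      · exfalso
        rw [if_pos h1] at hab
        refine key a b h1 ?_ h2 hab.symm
        rcases hb with h | h | h
        · exact Or.inl h
        · exact absurd h h2
        · exact Or.inr h
      · exfalso
        rw [if_pos h2] at hab
        refine key b a h2 ?_ h1 hab
        rcases ha with h | h | h
        · exact Or.inl h
        · exact absurd h h1
        · exact Or.inr h
      · rw [if_neg h1, if_neg h2] at hab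
        by_cases h3 : a = r <;> by_cases h4 : b = r
        · rw [h3, h4]
        · exfalso
          rw [if_pos h3, if_neg h4] at hab
          have hb2 : m b ∈ C := hsub _ ((hb.resolve_left h4).resolve_left h2)
          rw [← hab] at hb2
          exact hdis _ hb2 huC
        · exfalso
          rw [if_neg h3, if_pos h4] at hab
          have hb2 : m a ∈ C := hsub _ ((ha.resolve_left h3).resolve_left h1)
          rw [hab] at hb2
          exact hdis _ hb2 huC
        · rw [if_neg h3, if_neg h4] at hab
          exact hm.inj hab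
    · intro v hv
      rw [memX] at hv
      simp only
      rw [memX]
      by_cases h1 : v ∈ C'
      · rw [if_pos h1]
        have hv2 := hφ v (hsub v h1)
        refine ⟨?_, hv2.2⟩
        have hv3 := hv2.1
        rw [mem_erase, mem_insert, memIC] at hv3
        rcases hv3.2 with h3 | h3
        · exact Or.inl h3
        · right; right
          rw [memC']
          refine ⟨h3, ?_⟩
          rw [hm.inv]
          intro h4
          have h5 : m (φ v) = v := hi h3 (hsub v h1) h4
          apply ((memC' v).1 h1).2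
          rw [← h5, hm.inv]
          rw [h5]
      · rw [if_neg h1]
        by_cases h2 : v = r
        · rw [if_pos h2]
          refine ⟨Or.inr (Or.inr huC'), ?_⟩
          rw [h2]; exact hu.symm
        · rw [if_neg h2]
          have h3 : m v ∈ C' := (hv.resolve_left h2).resolve_left h1
          exact ⟨Or.inr (Or.inl h3), hm.adj v⟩
  -- rotation of Y
  have rY : Rot H ({s, m p, p, q, m q} : Finset V) := by
    apply nb2_rotY hxp.symm (hm.adj p).symm hpq (hm.adj q) hxq hps.symm hqs.symm hpq'
    · intro h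
      exact hpq.ne (hm.inj h)
    · intro h
      apply hpq'
      rw [h, hm.inv]
  have hp3 : p ∉ C' := fun h => hpC (hsub _ h)
  have hq3 : q ∉ C' := fun h => hqC (hsub _ h)
  have hp4 : m p ∉ C' := fun h => hp' ((memC' _).1 h)
  have hq4 : m q ∉ C' := fun h => hq' ((memC' _).1 h)
  have hd : Disjoint (insert r (C' ∪ C'.image m)) ({s, m p, p, q, m q} : Finset V) := by
    rw [disjoint_left]
    intro v hv hv'
    rw [memX] at hv
    simp only [mem_insert, mem_singleton] at hv'
    rcases hv' with rfl | rfl | rfl | rfl | rfl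
    · rcases hv with h | h | h
      · exact hrs h.symm
      · exact hsC (hsub _ h)
      · exact hms (hsub _ h)
    · rcases hv with h | h | h
      · exact hm.ne_r hps h
      · exact hp4 h
      · rw [hm.inv] at h
        exact hp3 h
    · rcases hv with h | h | h
      · exact hpr h
      · exact hp3 h
      · exact hp4 h
    · rcases hv with h | h | h
      · exact hqr h
      · exact hq3 h
      · exact hq4 h
    · rcases hv with h | h | h
      · exact hm.ne_r hqs h
      · exact hq4 h
      · rw [hm.inv] at h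
        exact hq3 h
  refine glue hh.sb hm hodd rX rY hd ?_
  intro v hvX hvY
  rw [memX] at hvX
  rw [memX]
  simp only [mem_insert, mem_singleton] at hvY ⊢
  push Not at hvX hvY
  refine ⟨?_, ?_⟩
  · rw [hm.inv]
    rintro (h | h | h)
    · apply hvY.1
      apply hm.inj
      rw [h, hm.hub']
    · exact hvX.2.2 h
    · exact hvX.2.1 h
  · rintro (h | h | h | h | h)
    · apply hvX.1
      apply hm.inj
      rw [h, hm.hub]
    · exact hvY.2.2.1 (hm.inj h)
    · apply hvY.2.1
      rw [← h, hm.inv]
    · apply hvY.2.2.2.2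
      rw [← h, hm.inv]
    · exact hvY.2.2.2.1 (hm.inj h)

theorem nb2 {r s : V} {m : V → V} (hh : Hub H r s) (hm : PM H r s m) {a b c : V} (har : a ≠ r)
    (has : a ≠ s) (hbr : b ≠ r) (hbs : b ≠ s) (hcr : c ≠ r) (hcs : c ≠ s) (hab : H.Adj a b)
    (hbc : H.Adj b c) (hac : H.Adj a c) {u : V} (hu : H.Adj u r) (hus : u ≠ s) :
    u = m a ∨ u = m b ∨ u = m c := by
  by_contra hcon
  push Not at hcon
  obtain ⟨hua, hub, huc⟩ := hcon
  have hur : u ≠ r := hu.ne
  have hrs : r ≠ s := hh.adj.ne
  obtain ⟨A1, A2, A3, A4, A5, A6⟩ := nb1 hh hm har has hbr hbs hcr hcs hab hbc hac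
  obtain ⟨B1, B2, B3, B4, B5, B6⟩ := nb1 hh hm hbr hbs hcr hcs har has hbc hac.symm hab.symm
  obtain ⟨C1, C2, C3, C4, C5, C6⟩ := nb1 hh hm hcr hcs har has hbr hbs hac.symm hab hbc.symm
  have hmur : m u ≠ r := hm.ne_r hus
  have hmus : m u ≠ s := hm.ne_s hur
  have hC : Clo H r s m (cl H r s (m u)) := cl_clo hh hm hmur hmus
  obtain ⟨φ, hi, hφ⟩ := lemQ hh.sb hm hC u
  have huC : m u ∈ cl H r s (m u) := self_mem_cl r s (m u)
  have notC : ∀ x, x ≠ r → x ≠ s → cl H r s (m x) = {m x} → u ≠ m x → x ∉ cl H r s (m u) := by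
    intro x hx1 hx2 hx3 hx4 hx5
    rw [cl_dual hh hm hmur hmus hx1 hx2, hm.inv, hx3, mem_singleton] at hx5
    exact hx4 hx5
  have key : ∀ x, (∀ v, H.Adj (m x) v → v = x ∨ v = r ∨ v = s) →
      (m x ∈ cl H r s (m u) ∧ φ (m x) ≠ m (m x)) → φ (m x) = r := by
    intro x hx h
    have h1 := hφ _ h.1
    rcases hx _ h1.2 with h2 | h2 | h2
    · exfalso
      apply h.2
      rw [h2, hm.inv]
    · exact h2
    · exfalso
      have h3 := h1.1
      rw [h2, mem_erase, mem_insert, mem_image] at h3
      rcases h3.2 with h4 | ⟨w, hw, hw'⟩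
      · exact hrs h4.symm
      · have : w = r := hm.inj (hw'.trans hm.hub.symm)
        rw [this] at hw
        exact hC.nr hw
  have hne : ∀ x y, x ≠ y → (∀ v, H.Adj (m x) v → v = x ∨ v = r ∨ v = s) →
      (∀ v, H.Adj (m y) v → v = y ∨ v = r ∨ v = s) →
      (m x ∈ cl H r s (m u) ∧ φ (m x) ≠ m (m x)) →
      ¬ (m y ∈ cl H r s (m u) ∧ φ (m y) ≠ m (m y)) := by
    intro x y hxy hx hy h1 h2
    have e1 := key x hx h1
    have e2 := key y hy h2
    exact hxy (hm.inj (hi h1.1 h2.1 (e1.trans e2.symm)))
  have haC := notC a har has A6 hua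
  have hbC := notC b hbr hbs B6 hub
  have hcC := notC c hcr hcs C6 huc
  have hmab : m a ≠ b := by
    intro h
    rw [h] at A2
    exact B5 A2
  have hmac : m a ≠ c := by
    intro h
    rw [h] at A2
    exact C5 A2
  have hmbc : m b ≠ c := by
    intro h
    rw [h] at B2
    exact C5 B2
  by_cases hPa : m a ∈ cl H r s (m u) ∧ φ (m a) ≠ m (m a)
  · exact nb2_glue hh hm hu hC huC hi hφ hbr hbs hcr hcs hbc B2 C2 hbC hcC hmbc
      (hne a b hab.ne A3 B3 hPa) (hne a c hac.ne A3 C3 hPa)
  · by_cases hPb : m b ∈ cl H r s (m u) ∧ φ (m b) ≠ m (m b)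
    · exact nb2_glue hh hm hu hC huC hi hφ har has hcr hcs hac A2 C2 haC hcC hmac
        hPa (hne b c hbc.ne B3 C3 hPb)
    · exact nb2_glue hh hm hu hC huC hi hφ har has hbr hbs hab A2 B2 haC hbC hmab hPa hPb

end Pool.Agent.Work.MP_0f7328_co.TV
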