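import Pool.Agent.Work.MP_0f7328_co.TV.ClA

/-!
For a triangle `a b c` without hubs the closures of `m a`, `m b`, `m c` are disjoint, also up to
partners, and the union of two of them is a closed stable set.

Proof of `nb_disj`. Let `v ∈ cl (m a)`; note `m a ≠ r, s` etc. and `v ≠ r, s`.
(i) If `v ∈ cl (m b)`: `cl_dual` gives `a = m (m a) ∈ cl (m v)` and `b ∈ cl (m v)`, but `cl (m v)`
is stable and `a, b` are adjacent.
(ii) If `m v ∈ cl (m b)`: `cl_dual` gives `b = m (m b) ∈ cl (m (m v)) = cl v ⊆ cl (m a)`. Take a big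
`I` that avoids the hubs and contains `c` (`hh.mem c`). Then `a, b ∉ I` by stability, so `m a ∈ I`
by `side`, so `b ∈ I`, a contradiction.
Proof of `nb_clo`. Both closures are `Clo` by `cl_clo`, only stability of the union remains: if
`v ∈ cl (m b)`, `w ∈ cl (m c)` are adjacent then `m w ∈ cl (m b)` by `cl_clo` (applied to `v` and
its neighbour `w ≠ r, s`), but `nb_disj` (for the triangle `c b a`) says `m w ∉ cl (m b)`.
-/

set_option autoImplicit false
set_option linter.unusedSectionVars false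

namespace Pool.Agent.Work.MP_0f7328_co.TV

open Finset

variable {V : Type} [Fintype V] [DecidableEq V] {H : SimpleGraph V}

variable {r s : V} {m : V → V}

theorem nb_disj (hh : Hub H r s) (hm : PM H r s m) {a b c : V} (har : a ≠ r) (has : a ≠ s)
    (hbr : b ≠ r) (hbs : b ≠ s) (hcr : c ≠ r) (hcs : c ≠ s) (hab : H.Adj a b) (hbc : H.Adj b c)
    (hac : H.Adj a c) {v : V} (hv : v ∈ cl H r s (m a)) :
    v ∉ cl H r s (m b) ∧ m v ∉ cl H r s (m b) := by
  have h1 : m a ≠ r := hm.ne_r has
  have h2 : m a ≠ s := hm.ne_s har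
  have h3 : m b ≠ r := hm.ne_r hbs
  have h4 : m b ≠ s := hm.ne_s hbr
  have hvr : v ≠ r := by
    rintro rfl
    exact cl_nr hh h1 h2 hv
  have hvs : v ≠ s := by
    rintro rfl
    exact cl_ns hh h1 h2 hv
  have h5 : m v ≠ r := hm.ne_r hvs
  have h6 : m v ≠ s := hm.ne_s hvr
  constructor
  · intro hvb
    have ha := (cl_dual hh hm h1 h2 hvr hvs).1 hv
    have hb := (cl_dual hh hm h3 h4 hvr hvs).1 hvb
    rw [hm.inv] at ha hb
    exact cl_stable hh h5 h6 a ha b hb hab
  · intro hvb
    have hb := (cl_dual hh hm h3 h4 h5 h6).1 hvb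
    rw [hm.inv, hm.inv] at hb
    have hb' := cl_trans hv hb
    obtain ⟨I, hI, hr, hs, hc⟩ := hh.mem c hcr hcs
    have haI : a ∉ I := fun h => hI.1 a h c hc hac
    have hbI : b ∉ I := fun h => hI.1 b h c hc hbc
    have hma : m a ∈ I := by
      by_contra hcon
      exact haI ((side hh hm hI hr hs har has).2 hcon)
    exact hbI (mem_cl.1 hb' I hI hr hs hma)

theorem nb_clo (hh : Hub H r s) (hm : PM H r s m) {a b c : V} (har : a ≠ r) (has : a ≠ s)
    (hbr : b ≠ r) (hbs : b ≠ s) (hcr : c ≠ r) (hcs : c ≠ s) (hab : H.Adj a b) (hbc : H.Adj b c)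
    (hac : H.Adj a c) : Clo H r s m (cl H r s (m b) ∪ cl H r s (m c)) := by
  have h1 := cl_clo hh hm (hm.ne_r hbs) (hm.ne_s hbr)
  have h2 := cl_clo hh hm (hm.ne_r hcs) (hm.ne_s hcr)
  have key : ∀ u ∈ cl H r s (m b), ∀ w ∈ cl H r s (m c), ¬ H.Adj u w := by
    intro u hu w hw huw
    have hwr : w ≠ r := by
      rintro rfl
      exact h2.nr hw
    have hws : w ≠ s := by
      rintro rfl
      exact h2.ns hw
    have h3 := h1.clo u hu w hwr hws huw.symm
    exact (nb_disj hh hm hcr hcs hbr hbs har has hbc.symm hab.symm hac.symm hw).2 h3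
  refine ⟨?_, ?_, ?_, ?_⟩
  · intro u hu w hw huw
    rw [mem_union] at hu hw
    rcases hu with hu | hu <;> rcases hw with hw | hw
    · exact h1.st u hu w hw huw
    · exact key u hu w hw huw
    · exact key w hw u hu huw.symm
    · exact h2.st u hu w hw huw
  · rw [mem_union]
    rintro (h | h)
    · exact h1.nr h
    · exact h2.nr h
  · rw [mem_union]
    rintro (h | h)
    · exact h1.ns h
    · exact h2.ns h
  · intro w hw v hvr hvs hvw
    rw [mem_union] at hw ⊢
    rcases hw with hw | hw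
    · exact Or.inl (h1.clo w hw v hvr hvs hvw)
    · exact Or.inr (h2.clo w hw v hvr hvs hvw)

end Pool.Agent.Work.MP_0f7328_co.TV
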