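import Pool.Agent.Work.MP_0f7328_co.TV.Defs

/-!
Tutte's theorem for the subgraph induced by `W`, in terms of finite sets.

Proof. Apply Mathlib's `SimpleGraph.tutte` to the induced graph `G = H.induce (W : Set V)` (a graph
on the subtype). A perfect matching of `G` (a subgraph `M` with `M.IsPerfectMatching`) gives
`Mat H W` (send `v ∈ W` to its partner). So there is none, and there is a Tutte violator `u`: a set
with `u.ncard < (((⊤ : G.Subgraph).deleteVerts u).coe.oddComponents).ncard`. Let `S` be the image of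
`u` in `V`, and `K` the set of images in `V` of the supports of the odd components. Different
components have disjoint, nonempty supports, so `K` has as many elements as there are odd
components; each is an odd subset of `W \ S`; an edge of `H` from an element `v` of a component to
`w ∈ W \ S` stays in the component.
-/

set_option autoImplicit false
set_option linter.unusedSectionVars false

namespace Pool.Agent.Work.MP_0f7328_co.TV

open Finset

variable {V : Type} [Fintype V] [DecidableEq V] {H : SimpleGraph V}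

theorem tutte_finset {W : Finset V} (h : ¬ Mat H W) :
    ∃ (S : Finset V) (K : Finset (Finset V)), S ⊆ W ∧ S.card < K.card ∧
      (∀ k ∈ K, k ⊆ W \ S ∧ Odd k.card) ∧ (∀ k ∈ K, ∀ l ∈ K, k ≠ l → Disjoint k l) ∧
      ∀ k ∈ K, ∀ v ∈ k, ∀ w ∈ W \ S, H.Adj v w → w ∈ k := by
  classical
  have hno : ¬ ∃ M : (H.induce (W : Set V)).Subgraph, M.IsPerfectMatching := by
    rintro ⟨M, hM⟩
    apply h
    rw [SimpleGraph.Subgraph.isPerfectMatching_iff] at hM
    choose g hg hgu using hM
    have hgg : ∀ v, g (g v) = v := fun v => (hgu (g v) v (hg v).symm).symm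
    refine ⟨fun v => if hv : v ∈ W then (g ⟨v, hv⟩ : V) else v, ?_⟩
    intro v hv
    have h1 : (g ⟨v, hv⟩ : V) ∈ W := (g ⟨v, hv⟩).2
    simp only [dif_pos hv]
    refine ⟨h1, ?_, ?_⟩
    · rw [dif_pos h1]
      have h2 := congrArg Subtype.val (hgg ⟨v, hv⟩)
      exact h2
    · have h2 := M.adj_sub (hg ⟨v, hv⟩)
      exact h2
  rw [SimpleGraph.tutte] at hno
  push Not at hno
  obtain ⟨u, hu⟩ := hno
  unfold SimpleGraph.IsTutteViolator at hu
  obtain ⟨D, hD⟩ : ∃ D, D = (⊤ : (H.induce (W : Set V)).Subgraph).deleteVerts u := ⟨_, rfl⟩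
  rw [← hD] at hu
  have hDv : ∀ x : ↥(W : Set V), x ∈ D.verts ↔ x ∉ u := by
    intro x
    rw [hD, SimpleGraph.Subgraph.deleteVerts_verts]
    simp
  have hDa : ∀ x y : ↥(W : Set V), x ∉ u → y ∉ u → H.Adj x.1 y.1 → D.Adj x y := by
    intro x y hx hy hxy
    rw [hD, SimpleGraph.Subgraph.deleteVerts_adj]
    exact ⟨trivial, hx, trivial, hy, hxy⟩
  obtain ⟨ψ, hψ⟩ : ∃ ψ : D.verts → V, ∀ x, ψ x = x.1.1 := ⟨fun x => x.1.1, fun _ => rfl⟩
  have hψi : Function.Injective ψ := by
    intro a b hab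
    rw [hψ, hψ] at hab
    exact Subtype.ext (Subtype.ext hab)
  obtain ⟨im, him⟩ : ∃ im : D.coe.ConnectedComponent → Finset V,
      ∀ c, im c = (Set.toFinite c.supp).toFinset.image ψ := ⟨fun c => _, fun _ => rfl⟩
  have hmem : ∀ c v, v ∈ im c ↔ ∃ x, D.coe.connectedComponentMk x = c ∧ ψ x = v := by
    intro c v
    rw [him, mem_image]
    constructor
    · rintro ⟨x, hx, h1⟩
      rw [Set.Finite.mem_toFinset, SimpleGraph.ConnectedComponent.mem_supp_iff] at hx
      exact ⟨x, hx, h1⟩
    · rintro ⟨x, hx, h1⟩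
      refine ⟨x, ?_, h1⟩
      rw [Set.Finite.mem_toFinset, SimpleGraph.ConnectedComponent.mem_supp_iff]
      exact hx
  have himc : ∀ c, (im c).card = c.supp.ncard := by
    intro c
    rw [him, card_image_of_injective _ hψi, Set.ncard_eq_toFinset_card _ (Set.toFinite c.supp)]
  have hinj : Function.Injective im := by
    intro c c' hc
    obtain ⟨x, hx⟩ := c.exists_rep
    have h1 : ψ x ∈ im c := (hmem c _).2 ⟨x, hx, rfl⟩
    rw [hc] at h1
    obtain ⟨y, hy, hxy⟩ := (hmem c' _).1 h1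
    rw [hψi hxy] at hy
    rw [← hy]
    exact hx.symm
  refine ⟨(Set.toFinite u).toFinset.image Subtype.val,
    (Set.toFinite D.coe.oddComponents).toFinset.image im, ?_, ?_, ?_, ?_, ?_⟩
  · intro v hv
    rw [mem_image] at hv
    obtain ⟨x, -, rfl⟩ := hv
    exact x.2
  · rw [card_image_of_injective _ hinj, card_image_of_injective _ Subtype.val_injective,
      ← Set.ncard_eq_toFinset_card, ← Set.ncard_eq_toFinset_card]
    exact hu
  · intro k hk
    rw [mem_image] at hk
    obtain ⟨c, hc, rfl⟩ := hk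
    rw [Set.Finite.mem_toFinset] at hc
    refine ⟨?_, ?_⟩
    · intro v hv
      obtain ⟨x, -, rfl⟩ := (hmem c v).1 hv
      rw [mem_sdiff]
      refine ⟨?_, ?_⟩
      · rw [hψ]
        exact x.1.2
      · intro h1
        rw [mem_image] at h1
        obtain ⟨y, hy, hxy⟩ := h1
        rw [Set.Finite.mem_toFinset] at hy
        rw [hψ] at hxy
        have h2 : y = x.1 := Subtype.ext hxy
        rw [h2] at hy
        exact (hDv x.1).1 x.2 hy
    · rw [himc]
      exact hc
  · intro k hk l hl hkl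
    rw [mem_image] at hk hl
    obtain ⟨c, -, rfl⟩ := hk
    obtain ⟨c', -, rfl⟩ := hl
    rw [disjoint_left]
    intro v hv hv'
    obtain ⟨x, hx, h1⟩ := (hmem c v).1 hv
    obtain ⟨y, hy, h2⟩ := (hmem c' v).1 hv'
    rw [← h2] at h1
    rw [hψi h1, hy] at hx
    exact hkl (by rw [hx])
  · intro k hk v hv w hw hvw
    rw [mem_image] at hk
    obtain ⟨c, -, rfl⟩ := hk
    obtain ⟨x, hx, rfl⟩ := (hmem c v).1 hv
    rw [mem_sdiff] at hw
    obtain ⟨hwW, hwS⟩ := hw
    have hwu : (⟨w, hwW⟩ : ↥(W : Set V)) ∉ u := by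
      intro h1
      apply hwS
      rw [mem_image]
      exact ⟨⟨w, hwW⟩, (Set.Finite.mem_toFinset _).2 h1, rfl⟩
    have hwD : (⟨w, hwW⟩ : ↥(W : Set V)) ∈ D.verts := (hDv _).2 hwu
    rw [hmem]
    refine ⟨⟨⟨w, hwW⟩, hwD⟩, ?_, hψ _⟩
    rw [← hx]
    refine SimpleGraph.ConnectedComponent.sound (SimpleGraph.Adj.reachable ?_)
    refine SimpleGraph.Adj.symm ?_
    show D.Adj x.1 ⟨w, hwW⟩
    have hxu : x.1 ∉ u := (hDv x.1).1 x.2
    rw [hψ] at hvw
    exact hDa _ _ hxu hwu hvw

end Pool.Agent.Work.MP_0f7328_co.TV
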